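import Mathlib
import Pool.Agent.Helper274.CoverL

set_option autoImplicit false
set_option linter.unusedSectionVars false
set_option linter.unusedVariables false

open Finset Filter

namespace Pool.Agent.W252.Cover

open Pool.Agent.Helper274.Cover

section
variable {G : Type*} [AddCommGroup G] [Fintype G] [DecidableEq G]

/-- One block, with a general step size. -/
theorem block_step_gen
    (K n Z' g Λ s0 : ℕ) (ε b β C θ : ℝ) (L : List G) (hnd : L.Nodup) (hK : 1 ≤ K)
    (hΛ : 1 ≤ Λ) (hL : 1 ≤ L.length) (hLN : L.length ^ 2 ≤ Fintype.card G)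
    (hβ : (1 / 4) ^ n * (Real.exp (12 * K) + 2) ≤ β)
    (hTr : TrOK ((Λ:ℝ) ^ g)⁻¹ (FL g (2 * n) Λ) K s0 b (ε * K * (L.length : ℝ) ^ 2) L)
    (hε : 0 ≤ ε)
    (hMom : MomOK K (2 * n) Z' (12 * K) 1 L)
    (htail : (1 - ((Λ:ℝ) ^ g)⁻¹) ^ Z' * (1 + 2 * (L.length:ℝ)) ^ (2 * n) ≤ 1)
    (hb : (K * L.length : ℝ) ≤ b)
    (T : Finset G) (hT : T.card ≤ K * L.length) (hC : 0 ≤ C) (hTC : (T.card : ℝ) ≤ C * L.length)
    (i j : ℕ) (hij : i ≤ j) (hj : j ≤ L.length)
    (hblock : C * ((j:ℝ) - i) ≤ θ * L.length) :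
    (1 - θ) * (unc T (suf i L) / Fintype.card G) - (θ * β + ε * K) ≤
      unc T (suf j L) / Fintype.card G := by
  obtain ⟨S, hSc, hS⟩ := hTr T hT
  have htr := hS i j (hij.trans hj) hj
  set k : ℝ := (L.length : ℝ) with hk
  set N : ℝ := (Fintype.card G : ℝ) with hN
  have hkpos : (1:ℝ) ≤ k := by rw [hk]; exact_mod_cast hL
  have hkN : k ^ 2 ≤ N := by rw [hk, hN]; exact_mod_cast hLN
  have hKr : (1:ℝ) ≤ K := by exact_mod_cast hK
  have hNpos : 0 < N := lt_of_lt_of_le (by positivity) hkN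
  have hTr' : (T.card : ℝ) ≤ K * k := by rw [hk]; exact_mod_cast hT
  have hstep : ∀ l y, (y :: l) <:+ L → unc T l - unc T (y :: l) ≤
      min (phi (bin ((Λ:ℝ) ^ g)⁻¹ (FL g (2 * n) Λ)) T
        (T.filter (fun t => t - y ∉ S)) l y) b := by
    intro l y hs
    have hnd' : (y :: l).Nodup := hnd.sublist hs.sublist
    have hy : y ∉ l := (List.nodup_cons.mp hnd').1
    exact unc_step g n Λ hΛ T l y hy S b (hTr'.trans hb)
  have htel := telescope (fun l => unc T l)
    (fun l y => min (phi (bin ((Λ:ℝ) ^ g)⁻¹ (FL g (2 * n) Λ)) T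
        (T.filter (fun t => t - y ∉ S)) l y) b) L hstep i j hij hj
  set u : ℝ := unc T (suf i L) / N with hu
  have hβ0 : 0 ≤ β := le_trans (by positivity) hβ
  have hu0 : 0 ≤ u := by rw [hu]; unfold unc; positivity
  have hrhs : stepSum (fun l (_ : G) => ind i j l *
      ((T.card : ℝ) / Fintype.card G * ∑ x, bin ((Λ:ℝ) ^ g)⁻¹ (FL g (2 * n) Λ) (cnt T l x))) L ≤
      stepSum (fun l (_ : G) => ind i j l * ((C * k) * (u + β))) L := by
    apply stepSum_mono
    intro l y hs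
    by_cases hil : i ≤ l.length ∧ l.length < j
    · have hind : ind i j l = 1 := by unfold ind; rw [if_pos hil]
      rw [hind, one_mul, one_mul]
      have hl : l <:+ L := (List.suffix_cons y l).trans hs
      have hsuf : suf i L <:+ l := by
        have e1 := suf_suffix i L
        exact List.suffix_of_suffix_length_le e1 hl (by rw [length_suf (hij.trans hj)]; exact hil.1)
      have hmono : unc T l ≤ unc T (suf i L) := unc_le_of_suffix T _ _ hsuf
      have h1 := sum_bin_FL_le g n Λ Z' hΛ T l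
      have h2 := hMom T hT l hl
      rw [← hk, ← hN] at h2
      rw [← hN] at h1
      have h3 : (1 - ((Λ:ℝ) ^ g)⁻¹) ^ Z' * (1 + 2 * (l.length:ℝ)) ^ (2 * n) ≤ 1 := by
        refine le_trans ?_ htail
        have : (l.length : ℝ) ≤ k := by rw [hk]; exact_mod_cast hl.length_le
        have h0 := (gamma_bounds g Λ hΛ).1
        gcongr
      have h4 : (1 + 12 * K / k) ^ l.length ≤ Real.exp (12 * K) := by
        calc (1 + 12 * K / k) ^ l.length ≤ (Real.exp (12 * K / k)) ^ l.length := by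
              apply pow_le_pow_left₀ (by positivity)
              have := Real.add_one_le_exp (12 * (K:ℝ) / k)
              linarith
          _ = Real.exp (l.length * (12 * K / k)) := by rw [← Real.exp_nat_mul]
          _ ≤ Real.exp (12 * K) := by
              apply Real.exp_le_exp.mpr
              have : (l.length : ℝ) ≤ k := by rw [hk]; exact_mod_cast hl.length_le
              calc (l.length : ℝ) * (12 * K / k) ≤ k * (12 * K / k) := by gcongr
                _ = 12 * K := by field_simp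
      have h5 : ∑ x, bin ((Λ:ℝ) ^ g)⁻¹ (FL g (2 * n) Λ) (cnt T l x) ≤ N * (u + β) := by
        have h6 : Psi (2 * n) Z' T l + N * ((1 - ((Λ:ℝ) ^ g)⁻¹) ^ Z' *
            (1 + 2 * (l.length:ℝ)) ^ (2 * n)) ≤ N * (Real.exp (12 * K) + 2) := by
          have h7 : N * ((1 - ((Λ:ℝ) ^ g)⁻¹) ^ Z' * (1 + 2 * (l.length:ℝ)) ^ (2 * n)) ≤ N * 1 :=
            mul_le_mul_of_nonneg_left h3 hNpos.le
          have h8 : N * ((1 + 12 * K / k) ^ l.length + 1) ≤ N * (Real.exp (12 * K) + 1) :=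
            mul_le_mul_of_nonneg_left (by linarith) hNpos.le
          linarith
        calc ∑ x, bin ((Λ:ℝ) ^ g)⁻¹ (FL g (2 * n) Λ) (cnt T l x) ≤ unc T (suf i L) +
              (1 / 4) ^ n * (N * (Real.exp (12 * K) + 2)) := by
              have := mul_le_mul_of_nonneg_left h6 (show (0:ℝ) ≤ (1 / 4) ^ n by positivity)
              linarith
          _ = N * u + N * ((1 / 4) ^ n * (Real.exp (12 * K) + 2)) := by
              rw [hu]; field_simp
          _ ≤ N * u + N * β := by gcongr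
          _ = _ := by ring
      have h6 : (T.card : ℝ) / N ≤ C * k / N := by gcongr
      have h7 : 0 ≤ ∑ x, bin ((Λ:ℝ) ^ g)⁻¹ (FL g (2 * n) Λ) (cnt T l x) :=
        Finset.sum_nonneg (fun x _ => bin_FL_nonneg g n Λ _ hΛ)
      calc (T.card : ℝ) / N * ∑ x, bin ((Λ:ℝ) ^ g)⁻¹ (FL g (2 * n) Λ) (cnt T l x) ≤
          (C * k / N) * (N * (u + β)) := mul_le_mul h6 h5 h7 (by positivity)
        _ = _ := by field_simp
    · have hind : ind i j l = 0 := by unfold ind; rw [if_neg hil]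
      rw [hind, zero_mul, zero_mul]
  -- length of the window
  have hwin : stepSum (fun l (_ : G) => ind i j l) L ≤ (j:ℝ) - i := by
    have h := telescope (fun l : List G => (l.length : ℝ)) (fun _ _ => (-1:ℝ)) L (by
      intro l y _
      simp) i j hij hj
    rw [length_suf hj, length_suf (hij.trans hj)] at h
    have h2 := stepSum_mul (-1) (fun l (_ : G) => ind i j l) L
    have h3 : stepSum (fun l (_ : G) => ind i j l * (-1:ℝ)) L =
        stepSum (fun l (_ : G) => (-1) * ind i j l) L := by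
      apply stepSum_congr; intro l y _; ring
    rw [h3, h2] at h
    linarith
  have hrhs2 : stepSum (fun l (_ : G) => ind i j l * ((C * k) * (u + β))) L ≤
      ((j:ℝ) - i) * ((C * k) * (u + β)) := by
    have h1 : stepSum (fun l (_ : G) => ind i j l * ((C * k) * (u + β))) L =
        ((C * k) * (u + β)) * stepSum (fun l (_ : G) => ind i j l) L := by
      rw [← stepSum_mul]
      apply stepSum_congr; intro l y _; ring
    rw [h1, mul_comm]
    apply mul_le_mul_of_nonneg_right hwin (by positivity)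
  have hθ0 : 0 ≤ θ := by
    have h1 : 0 ≤ C * ((j:ℝ) - i) := by
      have : (i:ℝ) ≤ j := by exact_mod_cast hij
      apply mul_nonneg hC
      linarith
    have h2 : 0 ≤ θ * k := h1.trans hblock
    by_contra hcon
    push Not at hcon
    have : θ * k < 0 := mul_neg_of_neg_of_pos hcon (by linarith)
    linarith
  have hmain : unc T (suf i L) - unc T (suf j L) ≤ N * (θ * (u + β)) + N * (ε * K) := by
    have e1 : ((j:ℝ) - i) * ((C * k) * (u + β)) = (C * ((j:ℝ) - i)) * (k * (u + β)) := by ring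
    have e2 : (C * ((j:ℝ) - i)) * (k * (u + β)) ≤ (θ * k) * (k * (u + β)) := by gcongr
    have e3 : (θ * k) * (k * (u + β)) ≤ N * (θ * (u + β)) := by
      have h1 : k * k ≤ N := by nlinarith
      have h2 : 0 ≤ θ * (u + β) := by positivity
      calc (θ * k) * (k * (u + β)) = (k * k) * (θ * (u + β)) := by ring
        _ ≤ _ := by gcongr
    have e4 : ε * K * k ^ 2 ≤ N * (ε * K) := by
      calc ε * K * k ^ 2 ≤ ε * K * N := by gcongr
        _ = _ := by ring
    linarith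
  have hdiv : u - unc T (suf j L) / N ≤ θ * (u + β) + ε * K := by
    rw [hu, ← sub_div, div_le_iff₀ hNpos]
    rw [hu] at hmain
    linarith
  linarith

end

/-- `1 - θ ≥ exp (-θ - θ²)` for `0 ≤ θ ≤ 1/2`. -/
theorem one_sub_ge_exp (θ : ℝ) (h0 : 0 ≤ θ) (h1 : θ ≤ 1 / 2) :
    Real.exp (-θ - 2 * θ ^ 2) ≤ 1 - θ := by
  have h2 : (0:ℝ) < 1 - θ := by linarith
  rw [← Real.le_log_iff_exp_le h2]
  -- `log (1-θ) = - log (1/(1-θ)) ≥ -(1/(1-θ) - 1) = -θ/(1-θ) ≥ -θ - 2θ²`
  have h3 := Real.log_le_sub_one_of_pos (show (0:ℝ) < (1 - θ)⁻¹ by positivity)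
  rw [Real.log_inv] at h3
  have h4 : (1 - θ)⁻¹ - 1 ≤ θ + 2 * θ ^ 2 := by
    rw [sub_le_iff_le_add, inv_le_comm₀ h2 (by positivity)]
    rw [inv_le_comm₀ (by positivity) h2]
    rw [inv_eq_one_div, div_le_iff₀ h2]
    nlinarith [mul_nonneg h0 h0, mul_nonneg (mul_nonneg h0 h0) (show (0:ℝ) ≤ 1 - 2 * θ by linarith)]
  linarith

theorem min_sub_min_le' (x m k : ℕ) : min (x + m) k - min x k ≤ m := by omega

/-- With high probability every `T` with `|T| ≤ C k` leaves at least a proportion `e^{-C} - η` of the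
group uncovered. -/
theorem whp_sharp (C η : ℝ) (hC : 0 ≤ C) (hη : 0 < η) :
    WHP (fun G _ _ _ L => L.Nodup → ∀ T : Finset G, (T.card : ℝ) ≤ C * L.length →
      Real.exp (-C) - η ≤ unc T L / Fintype.card G) := by
  obtain ⟨K, hKdef⟩ : ∃ K : ℕ, K = ⌈C⌉₊ + 1 := ⟨_, rfl⟩
  have hK : 1 ≤ K := by omega
  have hKr : (1:ℝ) ≤ K := by exact_mod_cast hK
  have hCK : C ≤ K := by
    rw [hKdef]; push_cast
    have := Nat.le_ceil C
    linarith
  -- the number of blocks
  obtain ⟨m, hm⟩ := exists_nat_ge (4 * C + 2 * (C + 8 * C ^ 2) / η + 1)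
  have hpos1 : 0 ≤ 2 * (C + 8 * C ^ 2) / η := by positivity
  have hm1 : (1:ℝ) ≤ m := by linarith
  have hm1' : 1 ≤ m := by exact_mod_cast hm1
  have hm2 : 4 * C ≤ m := by linarith
  have hm3 : (C + 8 * C ^ 2) / m ≤ η / 2 := by
    rw [div_le_iff₀ (by linarith)]
    have h1 : 2 * (C + 8 * C ^ 2) / η ≤ m := by linarith
    rw [div_le_iff₀ hη] at h1
    linarith
  obtain ⟨θ, hθ⟩ : ∃ θ : ℝ, θ = C / m + C / m ^ 2 := ⟨_, rfl⟩
  have hθ0 : 0 ≤ θ := by rw [hθ]; positivity
  have hθle : θ ≤ 2 * C / m := by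
    rw [hθ]
    have h1 : C / (m:ℝ) ^ 2 ≤ C / m := by
      apply div_le_div_of_nonneg_left hC (by positivity)
      nlinarith
    have h2 : 2 * C / m = C / m + C / m := by ring
    linarith
  have hθ1 : θ ≤ 1 / 2 := by
    refine hθle.trans ?_
    rw [div_le_iff₀ (by linarith)]
    linarith
  have hmθ : m * θ = C + C / m := by
    rw [hθ]; field_simp
  have hmθ2 : 2 * (m * θ ^ 2) ≤ 8 * C ^ 2 / m := by
    have h1 : θ ^ 2 ≤ (2 * C / m) ^ 2 := pow_le_pow_left₀ hθ0 hθle 2
    have h2 : 2 * (m * (2 * C / m) ^ 2) = 8 * C ^ 2 / m := by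
      field_simp
      ring
    rw [← h2]
    gcongr
  have hpow : Real.exp (-C) - η / 2 ≤ (1 - θ) ^ m := by
    have h1 := one_sub_ge_exp θ hθ0 hθ1
    have h2 : (Real.exp (-θ - 2 * θ ^ 2)) ^ m ≤ (1 - θ) ^ m :=
      pow_le_pow_left₀ (Real.exp_pos _).le h1 m
    rw [← Real.exp_nat_mul] at h2
    have h3 : (m:ℝ) * (-θ - 2 * θ ^ 2) = -(m * θ) - 2 * (m * θ ^ 2) := by ring
    rw [h3, hmθ] at h2
    have h4 : -C - (C + 8 * C ^ 2) / m ≤ -(C + C / m) - 2 * (m * θ ^ 2) := by
      have : (C + 8 * C ^ 2) / (m:ℝ) = C / m + 8 * C ^ 2 / m := by ring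
      rw [this]
      linarith
    have h5 : Real.exp (-C - (C + 8 * C ^ 2) / m) ≤ (1 - θ) ^ m :=
      (Real.exp_le_exp.mpr h4).trans h2
    have h6 : Real.exp (-C) * (1 - (C + 8 * C ^ 2) / m) ≤ Real.exp (-C - (C + 8 * C ^ 2) / m) := by
      rw [sub_eq_add_neg (-C), Real.exp_add]
      apply mul_le_mul_of_nonneg_left _ (Real.exp_pos _).le
      have := Real.add_one_le_exp (-((C + 8 * C ^ 2) / (m:ℝ)))
      linarith
    have h7 : Real.exp (-C) ≤ 1 := Real.exp_le_one_iff.mpr (by linarith)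
    have h8 : 0 ≤ (C + 8 * C ^ 2) / (m:ℝ) := by positivity
    nlinarith [Real.exp_pos (-C)]
  -- `β`, `ε`, `n`
  obtain ⟨β, hβdef⟩ : ∃ β : ℝ, β = η / (8 * (C + 1)) := ⟨_, rfl⟩
  have hβpos : 0 < β := by rw [hβdef]; positivity
  have hβ2 : (m * θ) * β ≤ η / 4 := by
    rw [hmθ, hβdef]
    have h1 : C + C / m ≤ 2 * (C + 1) := by
      have : C / m ≤ C := div_le_self hC hm1
      linarith
    calc (C + C / m) * (η / (8 * (C + 1))) ≤ (2 * (C + 1)) * (η / (8 * (C + 1))) := by gcongr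
      _ = η / 4 := by field_simp; ring
  obtain ⟨ε, hεdef⟩ : ∃ ε : ℝ, ε = min 1 (η / (4 * (m * K))) := ⟨_, rfl⟩
  have hεpos : 0 < ε := by rw [hεdef]; positivity
  have hε1 : ε ≤ 1 := by rw [hεdef]; exact min_le_left _ _
  have hε2 : m * (ε * K) ≤ η / 4 := by
    have h1 : ε ≤ η / (4 * (m * K)) := by rw [hεdef]; exact min_le_right _ _
    calc m * (ε * K) ≤ m * (η / (4 * (m * K)) * K) := by gcongr
      _ = η / 4 := by field_simp
  obtain ⟨n, hn⟩ := exists_pow_lt_of_lt_one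
    (show (0:ℝ) < β / (Real.exp (12 * K) + 2) by positivity)
    (show (1 / 4 : ℝ) < 1 by norm_num)
  have hβ : (1 / 4 : ℝ) ^ n * (Real.exp (12 * K) + 2) ≤ β := by
    rw [lt_div_iff₀ (by positivity)] at hn
    exact hn.le
  have h1 := whp_transfer K 2 (2 * (2 * n)) 0 hK (by omega) ε hεpos hε1 (FL 2 (2 * n))
    (by
      filter_upwards [eventually_ge_atTop 1] with Λ hΛ z
      exact FL_bound 2 (2 * n) Λ z hΛ)
    (by
      filter_upwards [eventually_ge_atTop 1] with Λ hΛ r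
      exact bin_FL_nonneg 2 n Λ r hΛ)
  have h2 := whp_mom K hK (2 * n) 4 1 one_pos
  refine (h1.and h2).mono ?_
  filter_upwards [eventually_lam_pow_le 0 ((m:ℝ) ^ 2), eventually_le_lam (2 + 2 * (2 * n : ℕ))]
    with N hk0 hΛn G _ _ _ hG L hLlen hP hnd T hTC
  subst hG
  set N := Fintype.card G with hN
  obtain ⟨_, hTr⟩ := hP.1 hnd
  have hMom := hP.2 hnd
  have hkm : m ^ 2 ≤ L.length := by
    rw [hLlen]
    have : ((m:ℝ)) ^ 2 ≤ Nat.sqrt N := by simpa using hk0
    exact_mod_cast this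
  have hk1 : 1 ≤ L.length := le_trans (Nat.one_le_pow _ _ hm1') hkm
  have hΛ1 : 1 ≤ lam N := lam_pos N
  have hLN : L.length ^ 2 ≤ N := by rw [hLlen]; exact Nat.sqrt_le' N
  set Λ : ℕ := lam N with hΛdef
  have hΛr : (1:ℝ) ≤ Λ := by exact_mod_cast hΛ1
  obtain ⟨hγ0, hγ1⟩ := gamma_bounds 2 Λ hΛ1
  rw [← hLlen] at hTr
  have htail : (1 - ((Λ:ℝ) ^ 2)⁻¹) ^ (Λ ^ 4) * (1 + 2 * (L.length:ℝ)) ^ (2 * n) ≤ 1 := by
    have h3 : (1 - ((Λ:ℝ) ^ 2)⁻¹) ^ (Λ ^ 4) ≤ Real.exp (-(Λ:ℝ) ^ 2) := by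
      calc (1 - ((Λ:ℝ) ^ 2)⁻¹) ^ (Λ ^ 4) ≤
          (Real.exp (-((Λ:ℝ) ^ 2)⁻¹)) ^ (Λ ^ 4) := by
            apply pow_le_pow_left₀ hγ0
            have := Real.add_one_le_exp (-((Λ:ℝ) ^ 2)⁻¹)
            linarith
        _ = Real.exp ((Λ ^ 4 : ℕ) * (-((Λ:ℝ) ^ 2)⁻¹)) := by rw [← Real.exp_nat_mul]
        _ = Real.exp (-(Λ:ℝ) ^ 2) := by
            congr 1
            push_cast
            field_simp
    have h4 : (1 + 2 * (L.length:ℝ)) ^ (2 * n) ≤ Real.exp ((2 * n : ℕ) * Λ) := by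
      have h5 : 1 + 2 * (L.length:ℝ) ≤ Real.exp Λ := by
        have h6 := le_exp_lam N
        have h7 : (L.length : ℝ) ≤ N := by
          rw [hLlen]; exact_mod_cast Nat.sqrt_le_self N
        linarith
      calc (1 + 2 * (L.length:ℝ)) ^ (2 * n) ≤ (Real.exp Λ) ^ (2 * n) := by gcongr
        _ = _ := by rw [← Real.exp_nat_mul]
    calc _ ≤ Real.exp (-(Λ:ℝ) ^ 2) * Real.exp ((2 * n : ℕ) * Λ) := by gcongr
      _ = Real.exp (-(Λ:ℝ) ^ 2 + (2 * n : ℕ) * Λ) := by rw [← Real.exp_add]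
      _ ≤ Real.exp 0 := by
          apply Real.exp_le_exp.mpr
          have hQ0 : (0:ℝ) ≤ (2 * n : ℕ) := by positivity
          have : (Λ:ℝ) * (2 + 2 * (2 * n : ℕ)) ≤ Λ * Λ := by gcongr
          nlinarith
      _ = 1 := Real.exp_zero
  obtain ⟨k, hk⟩ : ∃ k, k = L.length := ⟨_, rfl⟩
  have hkm' : (m:ℝ) ^ 2 ≤ k := by rw [hk]; exact_mod_cast hkm
  have hk1' : (1:ℝ) ≤ k := by rw [hk]; exact_mod_cast hk1
  have hTK : T.card ≤ K * L.length := by
    have h3 : (T.card : ℝ) ≤ K * L.length := by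
      refine hTC.trans ?_
      gcongr
    exact_mod_cast h3
  obtain ⟨M, hM⟩ : ∃ M, M = k / m + 1 := ⟨_, rfl⟩
  have hMle : (M:ℝ) ≤ k / m + 1 := by
    rw [hM]; push_cast
    have : ((k / m : ℕ) : ℝ) ≤ (k:ℝ) / m := Nat.cast_div_le
    linarith
  have hMge : k ≤ m * M := by
    rw [hM]
    exact (Nat.lt_mul_div_succ k (by omega)).le
  have hCM : C * M ≤ θ * k := by
    have h3 : C * M ≤ C * (k / m + 1) := by gcongr
    have h4 : C * (k / m + 1) ≤ θ * k := by
      rw [hθ]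
      have h5 : C ≤ C / (m:ℝ) ^ 2 * k := by
        rw [div_mul_eq_mul_div, le_div_iff₀ (by positivity)]
        gcongr
      calc C * (k / m + 1) = C / m * k + C := by ring
        _ ≤ C / m * k + C / (m:ℝ) ^ 2 * k := by linarith
        _ = _ := by ring
    linarith
  -- induction over the blocks
  have hblocks : ∀ a : ℕ, (1 - θ) ^ a - a * (θ * β + ε * K) ≤
      unc T (suf (min (a * M) k) L) / N := by
    intro a
    induction a with
    | zero =>
      have h3 : min (0 * M) k = 0 := by simp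
      rw [h3, suf_zero, unc_nil, ← hN]
      have hNpos : (0:ℝ) < N := by
        rw [hN]; exact_mod_cast Fintype.card_pos
      rw [div_self hNpos.ne']
      simp
    | succ a ih =>
      have hle : min (a * M) k ≤ min ((a + 1) * M) k :=
        min_le_min_right _ (Nat.mul_le_mul_right _ (Nat.le_succ a))
      have hb1 := block_step_gen K n (Λ ^ 4) 2 Λ (2 * Λ ^ (2 * (2 * (2 * n)) + 3)) ε
        ((Λ:ℝ) ^ 0 * (K * L.length)) β C θ L hnd hK hΛ1 hk1 hLN hβ hTr hεpos.le hMom htail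
        (by simp) T hTK hC hTC (min (a * M) k) (min ((a + 1) * M) k) hle
        (by rw [hk]; exact min_le_right _ _)
        (by
          have h6 : min ((a + 1) * M) k - min (a * M) k ≤ M := by
            have h5 : (a + 1) * M = a * M + M := by ring
            rw [h5]
            exact min_sub_min_le' _ _ _
          have h7 : ((min ((a + 1) * M) k : ℕ) : ℝ) - ((min (a * M) k : ℕ) : ℝ) ≤ M := by
            rw [← Nat.cast_sub hle]
            exact_mod_cast h6
          rw [← hk]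
          refine le_trans ?_ hCM
          exact mul_le_mul_of_nonneg_left h7 hC)
      rw [← hN] at hb1
      rw [pow_succ]
      have h8 : 0 ≤ θ * β + ε * K := by positivity
      have h9 : (1 - θ) * ((1 - θ) ^ a - a * (θ * β + ε * K)) ≤
          (1 - θ) * (unc T (suf (min (a * M) k) L) / N) :=
        mul_le_mul_of_nonneg_left ih (by linarith)
      have h10 : (1 - θ) * (a * (θ * β + ε * K)) ≤ a * (θ * β + ε * K) := by
        have : 0 ≤ (a:ℝ) * (θ * β + ε * K) := by positivity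
        nlinarith
      push_cast
      linarith
  have hfin := hblocks m
  rw [min_eq_right hMge, hk, suf_length_self] at hfin
  have h3 : (m:ℝ) * (θ * β + ε * K) ≤ η / 2 := by
    have : (m:ℝ) * (θ * β + ε * K) = (m * θ) * β + m * (ε * K) := by ring
    rw [this]
    linarith
  linarith

end Pool.Agent.W252.Cover
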