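import Mathlib
import Pool.Agent.W252.CoverSharp

set_option autoImplicit false

open Finset Filter
open scoped Pointwise

namespace Pool.Agent.W252.Cover

open Pool.Agent.Helper274.Cover

/-- Averaging over all `t`-tuples: some `T` with at most `t` elements leaves at most
`N (1 - |A|/N)^t` elements uncovered. -/
theorem exists_cover {G : Type} [AddCommGroup G] [Fintype G] [DecidableEq G] (A : Finset G)
    (t : ℕ) : ∃ T : Finset G, T.card ≤ t ∧
      ((Fintype.card G : ℝ) - ((A + T).card : ℝ)) ≤
        Fintype.card G * (1 - (A.card : ℝ) / Fintype.card G) ^ t := by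
  classical
  set N := Fintype.card G with hN
  have hNpos : (0:ℝ) < N := by rw [hN]; exact_mod_cast Fintype.card_pos
  -- the number of pairs (f, x) with x uncovered
  have hcount : ∑ f : Fin t → G, (((univ : Finset G).filter (fun x => ∀ i, x - f i ∉ A)).card : ℝ) =
      N * ((N:ℝ) - A.card) ^ t := by
    have h1 : ∀ x : G, (((univ : Finset (Fin t → G)).filter
        (fun f => ∀ i, x - f i ∉ A)).card : ℝ) = ((N:ℝ) - A.card) ^ t := by
      intro x
      have h2 : (univ : Finset (Fin t → G)).filter (fun f => ∀ i, x - f i ∉ A) =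
          Fintype.piFinset (fun _ : Fin t => (univ : Finset G).filter (fun y => x - y ∉ A)) := by
        ext f
        simp [Fintype.mem_piFinset]
      have h3 : ((univ : Finset G).filter (fun y => x - y ∉ A)).card = N - A.card := by
        have h4 : ((univ : Finset G).filter (fun y => x - y ∈ A)).card = A.card := by
          apply Finset.card_bij (fun y _ => x - y)
          · intro y hy
            exact (mem_filter.mp hy).2
          · intro y _ z _ h
            have : x - y = x - z := h
            simpa using this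
          · intro a ha
            exact ⟨x - a, by simpa using ha, by simp⟩
        have h5 := Finset.card_filter_add_card_filter_not (s := (univ : Finset G))
          (fun y => x - y ∈ A)
        rw [h4, Finset.card_univ, ← hN] at h5
        omega
      have hAN : A.card ≤ N := Finset.card_le_univ A
      rw [h2, Fintype.card_piFinset_const, h3]
      push_cast [Nat.cast_sub hAN]
      rfl
    have h2 : ∀ f : Fin t → G, (((univ : Finset G).filter (fun x => ∀ i, x - f i ∉ A)).card : ℝ) =
        ∑ x : G, (if ∀ i, x - f i ∉ A then (1:ℝ) else 0) := by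
      intro f
      rw [Finset.card_filter]
      push_cast
      rfl
    simp_rw [h2]
    rw [Finset.sum_comm]
    have h3 : ∀ x : G, ∑ f : Fin t → G, (if ∀ i, x - f i ∉ A then (1:ℝ) else 0) =
        ((N:ℝ) - A.card) ^ t := by
      intro x
      rw [← h1 x, Finset.card_filter]
      push_cast
      rfl
    simp_rw [h3]
    rw [Finset.sum_const, Finset.card_univ, ← hN, nsmul_eq_mul]
  obtain ⟨f, -, hf⟩ : ∃ f ∈ (univ : Finset (Fin t → G)),
      (((univ : Finset G).filter (fun x => ∀ i, x - f i ∉ A)).card : ℝ) ≤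
      N * (1 - (A.card : ℝ) / N) ^ t := by
    apply Finset.exists_le_of_sum_le (Finset.univ_nonempty)
    rw [hcount, Finset.sum_const, Finset.card_univ, Fintype.card_fun, Fintype.card_fin, ← hN,
      nsmul_eq_mul]
    apply le_of_eq
    have : (1 - (A.card : ℝ) / N) = ((N:ℝ) - A.card) / N := by field_simp
    rw [this, div_pow]
    push_cast
    field_simp
  refine ⟨univ.image f, by simpa using Finset.card_image_le (s := (univ : Finset (Fin t))) (f := f),
    le_trans ?_ hf⟩
  have h1 : (univ : Finset G) ⊆ (A + univ.image f) ∪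
      (univ : Finset G).filter (fun x => ∀ i, x - f i ∉ A) := by
    intro x _
    rw [mem_union, mem_filter]
    by_cases h : ∀ i, x - f i ∉ A
    · right; exact ⟨mem_univ _, h⟩
    · left
      push Not at h
      obtain ⟨i, hi⟩ := h
      rw [Finset.mem_add]
      exact ⟨x - f i, hi, f i, mem_image_of_mem _ (mem_univ _), by abel⟩
  have h2 := (Finset.card_le_card h1).trans (Finset.card_union_le _ _)
  rw [Finset.card_univ, ← hN] at h2
  have h3 : (N:ℝ) ≤ ((A + univ.image f).card : ℝ) +
      (((univ : Finset G).filter (fun x => ∀ i, x - f i ∉ A)).card : ℝ) := by exact_mod_cast h2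
  linarith

/-- The uncovered proportion achievable with `⌊C k⌋` translates is at most `e^{-C} + η`. -/
theorem eventually_cover (C η : ℝ) (hC : 0 ≤ C) (hη : 0 < η) :
    ∀ᶠ N : ℕ in atTop, ∀ (G : Type) [AddCommGroup G] [Fintype G] [DecidableEq G],
      Fintype.card G = N → ∀ A : Finset G, A.card = Nat.sqrt N →
        ∃ T : Finset G, (T.card : ℝ) ≤ C * Nat.sqrt N ∧
          (1 - Real.exp (-C) - η) * N ≤ ((A + T).card : ℝ) := by
  obtain ⟨k0, hk0⟩ := exists_nat_ge ((2 * C + 1) + 2 * (2 * C + 1) / η + 1)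
  have hpos : 0 ≤ 2 * (2 * C + 1) / η := by positivity
  filter_upwards [eventually_ge_atTop (k0 ^ 2), eventually_ge_atTop 1] with N hN hN1
  intro G _ _ _ hG A hA
  classical
  obtain ⟨k, hk⟩ : ∃ k, k = Nat.sqrt N := ⟨_, rfl⟩
  have hkk : k0 ≤ k := by
    rw [hk, Nat.le_sqrt, ← pow_two]; exact hN
  have hk1 : (2 * C + 1) + 2 * (2 * C + 1) / η + 1 ≤ k := hk0.trans (by exact_mod_cast hkk)
  have hkpos : (1:ℝ) ≤ k := by linarith
  have hkN : (k:ℝ) ^ 2 ≤ N := by
    have : k ^ 2 ≤ N := by rw [hk]; exact Nat.sqrt_le' N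
    exact_mod_cast this
  have hkN2 : (N:ℝ) ≤ (k + 1) ^ 2 := by
    have : N < (k + 1) ^ 2 := by rw [hk]; exact Nat.lt_succ_sqrt' N
    exact_mod_cast this.le
  have hNpos : (0:ℝ) < N := by exact_mod_cast hN1
  obtain ⟨T, hT, hcov⟩ := exists_cover A ⌊C * k⌋₊
  refine ⟨T, ?_, ?_⟩
  · rw [← hk]
    exact (Nat.cast_le.mpr hT).trans (Nat.floor_le (by positivity))
  · rw [hG, hA, ← hk] at hcov
    -- bound the right-hand side
    have h1 : (1 - (k : ℝ) / N) ^ ⌊C * k⌋₊ ≤ Real.exp (-C) + η := by
      have h2 : 0 ≤ 1 - (k:ℝ) / N := by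
        rw [sub_nonneg, div_le_one hNpos]
        nlinarith
      have h3 : 1 - (k:ℝ) / N ≤ Real.exp (-(k / N)) := by
        have := Real.add_one_le_exp (-((k:ℝ) / N))
        linarith
      have h4 : (1 - (k : ℝ) / N) ^ ⌊C * k⌋₊ ≤ Real.exp (-(⌊C * k⌋₊ * (k / N))) := by
        calc (1 - (k : ℝ) / N) ^ ⌊C * k⌋₊ ≤ (Real.exp (-(k / N))) ^ ⌊C * k⌋₊ :=
              pow_le_pow_left₀ h2 h3 _
          _ = Real.exp (⌊C * k⌋₊ * (-(k / N))) := by rw [← Real.exp_nat_mul]
          _ = _ := by congr 1; ring
      have h5 : C - (2 * C + 1) / k ≤ ⌊C * k⌋₊ * (k / N) := by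
        have h6 : C * k - 1 ≤ ⌊C * k⌋₊ := (Nat.sub_one_lt_floor _).le
        have h7 : (C * k - 1) * (k / N) ≤ ⌊C * k⌋₊ * (k / N) := by gcongr
        refine le_trans ?_ h7
        have h8 : 1 - 2 / (k:ℝ) ≤ (k:ℝ) ^ 2 / N := by
          have h9 : (k:ℝ) ^ 2 / (k + 1) ^ 2 ≤ (k:ℝ) ^ 2 / N := by
            apply div_le_div_of_nonneg_left (by positivity) hNpos hkN2
          refine le_trans ?_ h9
          rw [le_div_iff₀ (by positivity)]
          have : (1 - 2 / (k:ℝ)) * (k + 1) ^ 2 = (k:ℝ) ^ 2 - 3 - 2 / k := by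
            field_simp
            ring
          rw [this]
          have : 0 ≤ 2 / (k:ℝ) := by positivity
          linarith
        have h10 : (k:ℝ) / N ≤ 1 / k := by
          rw [div_le_div_iff₀ hNpos (by linarith)]
          nlinarith
        have h11 : C * (1 - 2 / (k:ℝ)) ≤ C * ((k:ℝ) ^ 2 / N) := by gcongr
        have h12 : (C * k - 1) * ((k:ℝ) / N) = C * ((k:ℝ) ^ 2 / N) - k / N := by ring
        rw [h12]
        have h13 : C - (2 * C + 1) / (k:ℝ) = C * (1 - 2 / (k:ℝ)) - 1 / k := by ring
        rw [h13]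
        linarith
      have h6 : Real.exp (-(⌊C * k⌋₊ * (k / N))) ≤ Real.exp (-C + (2 * C + 1) / k) := by
        apply Real.exp_le_exp.mpr
        linarith
      have h7 : Real.exp (-C + (2 * C + 1) / k) ≤ Real.exp (-C) + η := by
        rw [Real.exp_add]
        have h8 : 0 ≤ (2 * C + 1) / (k:ℝ) := by positivity
        have h9 : (2 * C + 1) / (k:ℝ) ≤ 1 := by
          rw [div_le_one (by linarith)]
          linarith
        have h10 : (2 * C + 1) / (k:ℝ) ≤ η / 2 := by
          rw [div_le_iff₀ (by linarith)]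
          have h11 : 2 * (2 * C + 1) / η ≤ k := by linarith
          rw [div_le_iff₀ hη] at h11
          linarith
        have h11 : Real.exp ((2 * C + 1) / (k:ℝ)) ≤ 1 + 2 * ((2 * C + 1) / k) := by
          have := Real.abs_exp_sub_one_le (x := (2 * C + 1) / (k:ℝ)) (by rwa [abs_of_nonneg h8])
          rw [abs_of_nonneg h8] at this
          have := (abs_le.mp this).2
          linarith
        have h12 : Real.exp (-C) ≤ 1 := Real.exp_le_one_iff.mpr (by linarith)
        have h13 := Real.exp_pos (-C)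
        nlinarith
      exact h4.trans (h6.trans h7)
    have h2 : (N:ℝ) * (1 - (k:ℝ) / N) ^ ⌊C * k⌋₊ ≤ N * (Real.exp (-C) + η) := by gcongr
    nlinarith

end Pool.Agent.W252.Cover
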