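import Mathlib
import Pool.Agent.W252.CoverLower

set_option autoImplicit false

open Finset Filter
open scoped Pointwise

namespace Pool.Agent.W252.Cover

open Pool.Agent.Helper274.Cover

open Classical in
/-- the `k`-subsets (`k = ⌊√|G|⌋`) with `C k` translates covering a proportion more than
`1 - e^{-C} + η` -/
noncomputable def goodCov (G : Type) [AddCommGroup G] [Fintype G] (C η : ℝ) :
    Finset (Finset G) :=
  (univ : Finset (Finset G)).filter (fun A => A.card = Nat.sqrt (Fintype.card G) ∧
    ∃ T : Finset G, (T.card : ℝ) ≤ C * Nat.sqrt (Fintype.card G) ∧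
      (1 - Real.exp (-C) + η) * Fintype.card G ≤ ((A + T).card : ℝ))

theorem unc_eq {G : Type} [AddCommGroup G] [Fintype G] [DecidableEq G] (T : Finset G) (L : List G)
    (A : Finset G) (hA : ∀ x, x ∈ L ↔ x ∈ A) :
    unc T L + ((A + T).card : ℝ) = Fintype.card G := by
  classical
  have h : (univ : Finset G).filter (fun x => cnt T L x = 0) = (A + T)ᶜ := by
    ext x
    rw [mem_filter, Finset.mem_compl, Finset.mem_add]
    unfold cnt rep
    rw [Finset.card_eq_zero, Finset.filter_eq_empty_iff]
    constructor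
    · rintro ⟨-, h⟩ ⟨a, ha, t, ht, rfl⟩
      apply h ht
      rw [hA]
      simpa using ha
    · intro h
      refine ⟨mem_univ _, fun t ht hx => h ⟨x - t, (hA _).1 hx, t, ht, by abel⟩⟩
  unfold unc
  rw [h]
  have := Finset.card_compl_add_card (A + T)
  exact_mod_cast this

theorem goodCov_card_le (C η δ : ℝ) (hC : 0 ≤ C) (hη : 0 < η) (hδ : 0 < δ) :
    ∀ᶠ N : ℕ in atTop, ∀ (G : Type) [AddCommGroup G] [Fintype G], Fintype.card G = N →
      ((goodCov G C η).card : ℝ) ≤ δ * (N.choose (Nat.sqrt N) : ℝ) := by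
  filter_upwards [whp_sharp C (η / 2) hC (by linarith) (δ / 2) (by linarith), eventually_ge_atTop 1]
    with N hN hN1 G _ _ hG
  classical
  have h1 := hN G hG
  subst hG
  set N := Fintype.card G with hNdef
  set k := Nat.sqrt N with hk
  have h2 := factorial_mul_le k (goodCov G C η) (by
    intro A hA
    unfold goodCov at hA
    exact (mem_filter.mp hA).2.1)
  have h3 : (((univ : Finset (Fin k → G)).filter
      (fun a => Function.Injective a ∧ univ.image a ∈ goodCov G C η)).card : ℝ) ≤
      bad k (fun L : List G => L.Nodup → ∀ T : Finset G, (T.card : ℝ) ≤ C * L.length →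
        Real.exp (-C) - η / 2 ≤ unc T L / Fintype.card G) := by
    apply card_le_bad
    intro a ha hP
    obtain ⟨_, hinj, hcov⟩ := mem_filter.mp ha
    unfold goodCov at hcov
    obtain ⟨_, _, T, hT, hTcov⟩ := mem_filter.mp hcov
    have hx := hP (List.nodup_ofFn.mpr hinj) T (by simpa using hT)
    have h4 := unc_eq T (List.ofFn a) (univ.image a) (by
      intro x
      rw [List.mem_ofFn, mem_image]
      constructor
      · rintro ⟨i, hi⟩; exact ⟨i, mem_univ _, hi⟩
      · rintro ⟨i, -, hi⟩; exact ⟨i, hi⟩)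
    have hNpos : (0:ℝ) < N := by exact_mod_cast hN1
    rw [← hNdef] at hTcov h4 hx
    rw [le_div_iff₀ hNpos] at hx
    have e : (1 - Real.exp (-C) + η) * (N:ℝ) + (Real.exp (-C) - η / 2) * N = N + η / 2 * N := by ring
    have : 0 < η / 2 * (N:ℝ) := by positivity
    linarith
  have hkN : k ^ 2 ≤ N := Nat.sqrt_le' N
  have h4 := pow_le_two_descFactorial N k hkN hN1
  have h5 : (N.descFactorial k : ℝ) = k.factorial * (N.choose k : ℝ) := by
    rw [Nat.descFactorial_eq_factorial_mul_choose]; push_cast; ring
  have hfact : (0:ℝ) < k.factorial := by exact_mod_cast Nat.factorial_pos k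
  have h6 : (k.factorial : ℝ) * ((goodCov G C η).card : ℝ) ≤
      (k.factorial : ℝ) * (δ * (N.choose k : ℝ)) := by
    calc (k.factorial : ℝ) * ((goodCov G C η).card : ℝ) ≤
        (((univ : Finset (Fin k → G)).filter
          (fun a => Function.Injective a ∧ univ.image a ∈ goodCov G C η)).card : ℝ) := by
          exact_mod_cast h2
      _ ≤ _ := h3
      _ ≤ δ / 2 * (N:ℝ) ^ k := h1
      _ ≤ δ / 2 * (2 * (N.descFactorial k : ℝ)) := by gcongr
      _ = _ := by rw [h5]; ring
  exact le_of_mul_le_mul_left h6 hfact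

end Pool.Agent.W252.Cover
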