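import Mathlib

/-!
# Size of an integer polynomial (for Gel'fond's transcendence criterion)
-/

set_option autoImplicit false

namespace Pool.Agent.W252

/-- degree + logarithmic Mahler measure -/
noncomputable def sigma (P : Polynomial ℤ) : ℝ :=
  P.natDegree + Real.log (P.map (Int.castRingHom ℂ)).mahlerMeasure

end Pool.Agent.W252
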