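import Pool.Agent.W252.GelG
import Pool.Agent.W669.GelA1

/-!
# Gel'fond's theorem, unconditional form
-/

set_option autoImplicit false

namespace Pool.Agent.W252

theorem gelG (d l : ℕ) (hdl : d + l < d * l) : GelG d l :=
  gelG_of (fun θ => Pool.Agent.W669.GelA1.coprime_bound θ) d l hdl

theorem gelG32 : GelG 3 2 := gelG 3 2 (by norm_num)

end Pool.Agent.W252
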