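import Mathlib

set_option autoImplicit false

namespace Pool.Agent.W252

open DirectSum

/-- A finite subset of a finitely generated abelian group injects into a finite quotient. -/
theorem exists_finite_hom_fg {G : Type} [AddCommGroup G] [AddGroup.FG G] (T : Finset G) :
    ∃ (F : Type) (_ : AddCommGroup F) (_ : Finite F) (φ : G →+ F), Set.InjOn φ T := by
  classical
  obtain ⟨n, ι, fι, p, hp, e, ⟨f⟩⟩ := AddCommGroup.equiv_free_prod_directSum_zmod G
  obtain ⟨N, hN0, hN⟩ : ∃ N : ℕ, 0 < N ∧ ∀ t ∈ T, ∀ i : Fin n, 2 * ((f t).1 i).natAbs < N := by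
    refine ⟨2 * (∑ t ∈ T, ∑ i : Fin n, ((f t).1 i).natAbs) + 1, by omega, ?_⟩
    intro t ht i
    have h1 : ((f t).1 i).natAbs ≤ ∑ i : Fin n, ((f t).1 i).natAbs :=
      Finset.single_le_sum (f := fun i => ((f t).1 i).natAbs) (fun _ _ => Nat.zero_le _)
        (Finset.mem_univ i)
    have h2 : ∑ i : Fin n, ((f t).1 i).natAbs ≤ ∑ t ∈ T, ∑ i : Fin n, ((f t).1 i).natAbs :=
      Finset.single_le_sum (f := fun t => ∑ i : Fin n, ((f t).1 i).natAbs)
        (fun _ _ => Nat.zero_le _) ht
    omega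
  have : NeZero N := ⟨hN0.ne'⟩
  have hne : ∀ i, NeZero (p i ^ e i) := fun i => ⟨pow_ne_zero _ (hp i).ne_zero⟩
  have hfin : ∀ i, Finite (ZMod (p i ^ e i)) := fun i => inferInstance
  have hfin2 : Finite (⨁ i : ι, ZMod (p i ^ e i)) :=
    Finite.of_equiv _ DFinsupp.equivFunOnFintype.symm
  let g : (Fin n →₀ ℤ) →+ (Fin n → ZMod N) :=
    { toFun := fun v i => ((v i : ℤ) : ZMod N)
      map_zero' := by ext i; simp
      map_add' := by intro a b; ext i; simp }
  refine ⟨(Fin n → ZMod N) × (⨁ i : ι, ZMod (p i ^ e i)), inferInstance, inferInstance,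
    (g.prodMap (AddMonoidHom.id _)).comp f.toAddMonoidHom, ?_⟩
  intro x hx y hy hxy
  have hxy' : (g (f x).1, (f x).2) = (g (f y).1, (f y).2) := hxy
  rw [Prod.mk.injEq] at hxy'
  obtain ⟨h1, h2⟩ := hxy'
  apply f.injective
  apply Prod.ext _ h2
  ext i
  have h3 : (((f x).1 i : ℤ) : ZMod N) = (((f y).1 i : ℤ) : ZMod N) := congrFun h1 i
  rw [ZMod.intCast_eq_intCast_iff, Int.modEq_iff_dvd] at h3
  have hxN := hN x hx i
  have hyN := hN y hy i
  obtain ⟨c, hc⟩ := h3
  have h4 : ((f y).1 i - (f x).1 i).natAbs < N := by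
    have := Int.natAbs_sub_le ((f y).1 i) ((f x).1 i)
    omega
  have h5 : (f y).1 i - (f x).1 i = 0 := by
    apply Int.eq_zero_of_abs_lt_dvd (m := (N : ℤ)) ⟨c, hc⟩
    rw [← Int.natCast_natAbs]
    exact_mod_cast h4
  omega

/-- A finite subset of an abelian group injects, under a homomorphism defined on the subgroup
it generates, into a finite group. -/
theorem exists_finite_hom {G : Type} [AddCommGroup G] (A : Finset G) (T : Finset (AddSubgroup.closure (A : Set G))) :
    ∃ (F : Type) (_ : AddCommGroup F) (_ : Finite F) (φ : AddSubgroup.closure (A : Set G) →+ F),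
      Set.InjOn φ T := by
  have : AddGroup.FG (AddSubgroup.closure (A : Set G)) := by
    rw [AddGroup.fg_iff_addSubgroup_fg]
    exact ⟨A, rfl⟩
  exact exists_finite_hom_fg T

end Pool.Agent.W252
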