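import Mathlib
import Pool.Agent.Helper398.EEFinal
import Pool.Agent.W252.ResFin

set_option autoImplicit false

namespace Pool.Agent.W252

open Pool.Agent.Helper398

/-- `main_exact` without finiteness of the group. -/
theorem main_exact_inf : ∃ M : ℕ, ∀ (G : Type) [AddCommGroup G] [DecidableEq G]
    (A : Finset G), ZSF A → M ≤ A.card → A.card ^ 2 / 2 + 2 ≤ A.subsetSum.card := by
  classical
  obtain ⟨M, hM⟩ := main_exact
  refine ⟨M, ?_⟩
  intro G _ _ A hZ hA
  obtain ⟨A', hA'⟩ : ∃ A', A' = toSub (AddSubgroup.closure (A : Set G)) A := ⟨_, rfl⟩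
  have hZ' : ZSF A' := by rw [hA']; exact ZSF_toSub _ A hZ
  have hcard : A'.card = A.card := by rw [hA', card_toSub, inSub_closure]
  obtain ⟨F, _, _, φ, hφ⟩ := exists_finite_hom A A'.subsetSum
  have h0 : (0 : AddSubgroup.closure (A : Set G)) ∈ A'.subsetSum := by
    rw [Finset.mem_subsetSum_iff]
    exact ⟨∅, Finset.empty_subset _, Finset.sum_empty⟩
  have hmem : ∀ B ⊆ A', ∑ b ∈ B, b ∈ A'.subsetSum := by
    intro B hB
    rw [Finset.mem_subsetSum_iff]
    exact ⟨B, hB, rfl⟩
  have hsub : ∀ a ∈ A', a ∈ A'.subsetSum := by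
    intro a ha
    have := hmem {a} (by simpa using ha)
    simpa using this
  have hinj : Set.InjOn φ (A' : Set _) := fun x hx y hy h => hφ (hsub x hx) (hsub y hy) h
  have hpull : ∀ B ⊆ A'.image φ, ∃ C ⊆ A', B = C.image φ ∧ ∑ b ∈ B, b = φ (∑ c ∈ C, c) := by
    intro B hB
    obtain ⟨C, hC, rfl⟩ := Finset.subset_image_iff.1 hB
    have hC' : C ⊆ A' := by exact_mod_cast hC
    refine ⟨C, hC', rfl, ?_⟩
    rw [Finset.sum_image (fun x hx y hy h => hinj (hC' hx) (hC' hy) h), map_sum]
  have hZ'' : ZSF (A'.image φ) := by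
    intro B hB hne hs
    obtain ⟨C, hC, hBC, hsum⟩ := hpull B hB
    rw [hs] at hsum
    have h1 : ∑ c ∈ C, c = 0 := by
      apply hφ (hmem C hC) h0
      rw [← hsum, map_zero]
    apply hZ' C hC _ h1
    rw [hBC] at hne
    exact Finset.image_nonempty.1 hne
  have hcard'' : (A'.image φ).card = A.card := by
    rw [Finset.card_image_of_injOn hinj, hcard]
  have h1 := hM F (A'.image φ) hZ'' (by rw [hcard'']; exact hA)
  rw [hcard''] at h1
  have h2 : (A'.image φ).subsetSum ⊆ A'.subsetSum.image φ := by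
    intro x hx
    rw [Finset.mem_subsetSum_iff] at hx
    obtain ⟨B, hB, rfl⟩ := hx
    obtain ⟨C, hC, hBC, hsum⟩ := hpull B hB
    rw [hsum]
    exact Finset.mem_image_of_mem _ (hmem C hC)
  have h3 : A'.subsetSum.card ≤ A.subsetSum.card := by
    apply Finset.card_le_card_of_injOn (fun x : AddSubgroup.closure (A : Set G) => (x : G))
    · intro x hx
      rw [Finset.mem_coe, Finset.mem_subsetSum_iff] at hx
      obtain ⟨B, hB, rfl⟩ := hx
      rw [Finset.mem_coe, Finset.mem_subsetSum_iff]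
      refine ⟨B.map (Function.Embedding.subtype _), ?_, (sum_coe_sub _ B).symm⟩
      intro y hy
      rw [Finset.mem_map] at hy
      obtain ⟨z, hz, rfl⟩ := hy
      rw [hA'] at hB
      exact (mem_toSub _ _ _).1 (hB hz)
    · intro x _ y _ hxy
      exact Subtype.ext hxy
  calc A.card ^ 2 / 2 + 2 ≤ (A'.image φ).subsetSum.card := h1
    _ ≤ (A'.subsetSum.image φ).card := Finset.card_le_card h2
    _ ≤ A'.subsetSum.card := Finset.card_image_le
    _ ≤ A.subsetSum.card := h3

end Pool.Agent.W252
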