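import Pool.Agent.W252.GelBW
import Pool.Agent.W376.GEL.A2
import Pool.Agent.W85.GEL2.B2

/-!
# The theorem of Brownawell and Waldschmidt, unconditional form
-/

set_option autoImplicit false

namespace Pool.Agent.W252

/-- If `x_0, x_1` and `y_0, y_1` are linearly independent over `ℚ` and `e^{x_0 y_0}`, `e^{x_1 y_0}`
are algebraic, then not all the numbers `x_i`, `y_j`, `e^{x_i y_1}` are algebraic over `ℚ(θ)`. -/
theorem bw {θ : ℂ} (hθ : Transcendental ℚ θ) (x y : Fin 2 → ℂ)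
    (hlx : LinearIndependent ℚ x) (hly : LinearIndependent ℚ y)
    (hx : ∀ i, IsAlgebraic (IntermediateField.adjoin ℚ {θ}) (x i))
    (hy : ∀ j, IsAlgebraic (IntermediateField.adjoin ℚ {θ}) (y j))
    (hxy0 : ∀ i, IsAlgebraic ℚ (Complex.exp (x i * y 0)))
    (hxy1 : ∀ i, IsAlgebraic (IntermediateField.adjoin ℚ {θ}) (Complex.exp (x i * y 1))) :
    False :=
  bw_of (fun θ δ τ a h1 h2 h3 h4 h5 h6 h7 P h8 h9 h10 h11 =>
      Pool.Agent.W376.GelA.gelfond_criterion2 θ δ τ a h1 h2 h3 h4 h5 h6 h7 P h8 h9 h10 h11)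
    (fun θ hθ _ _ ξ hξ ζ hζ => Pool.Agent.W85.GEL2.exists_rep2 θ hθ ξ hξ ζ hζ)
    hθ x y hlx hly hx hy hxy0 hxy1

end Pool.Agent.W252
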