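import Mathlib

/-!
# Definitions for the Gel'fond type theorems on pairs `(y, β y)`
-/

set_option autoImplicit false

namespace Pool.Agent.W252

/-- The four numbers `y, β y, e^y, e^{β y}`. -/
def four (β y : ℂ) : Set ℂ := {y, β * y, Complex.exp y, Complex.exp (β * y)}

/-- Schanuel's inequality fails for the pair `(y, β y)`: no two of the four numbers
`y, β y, e^y, e^{β y}` are algebraically independent. -/
def Exc (β y : ℂ) : Prop := ∀ a ∈ four β y, ∀ b ∈ four β y, ¬ AlgebraicIndependent ℚ ![a, b]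

/-- Gel'fond's theorem for `d` numbers `x_i` and `l` numbers `y_j`: if the `x_i` and the `y_j` are
linearly independent over `ℚ`, then not all `x_i`, `y_j`, `e^{x_i y_j}` are algebraic over `ℚ(θ)`. -/
def GelG (d l : ℕ) : Prop := ∀ (θ : ℂ), Transcendental ℚ θ → ∀ (x : Fin d → ℂ) (y : Fin l → ℂ),
  LinearIndependent ℚ x → LinearIndependent ℚ y →
  (∀ i, IsAlgebraic (IntermediateField.adjoin ℚ {θ}) (x i)) →
  (∀ j, IsAlgebraic (IntermediateField.adjoin ℚ {θ}) (y j)) →
  (∀ i j, IsAlgebraic (IntermediateField.adjoin ℚ {θ}) (Complex.exp (x i * y j))) → False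

/-- The logarithmic derivative of `e^y`. -/
noncomputable def dlog (D : Derivation ℚ ℂ ℂ) (y : ℂ) : ℂ := D (Complex.exp y) / Complex.exp y

/-- `β'·dlog(y) - dlog(β y)`, where `β' = a - β` is the conjugate of the root `β` of
`T² = a T + b`. -/
noncomputable def udl (a : ℚ) (β : ℂ) (D : Derivation ℚ ℂ ℂ) (y : ℂ) : ℂ :=
  (a - β) * dlog D y - dlog D (β * y)

/-- The minor `D y · u_{D'}(y) - D' y · u_D(y)`. -/
noncomputable def minorK (a : ℚ) (β : ℂ) (D D' : Derivation ℚ ℂ ℂ) (y : ℂ) : ℂ :=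
  D y * udl a β D' y - D' y * udl a β D y

end Pool.Agent.W252
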