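import Pool.Agent.W252.GelAsym
import Pool.Agent.W252.GelDefs2

/-!
# Gel'fond's theorem for `d` numbers `x_i` and `l` numbers `y_j`, `d l > d + l`
-/

set_option autoImplicit false

namespace Pool.Agent.W252

open Polynomial Finset Filter

/-- The coprimality bound used in the criterion. -/
def Coprime (θ : ℂ) : Prop := ∃ C : ℝ, 0 ≤ C ∧ ∀ P Q : Polynomial ℤ,
      Irreducible P → Irreducible Q → ¬ Associated P Q → 0 < P.natDegree → 0 < Q.natDegree →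
      Real.exp (-(C * sigma P * sigma Q)) ≤ max ‖aeval θ P‖ ‖aeval θ Q‖

/-- Representation data for all the numbers `x_i`, `y_j`, `e^{x_i y_j}`. -/
theorem exists_RD3 {θ : ℂ} (hθ : Transcendental ℚ θ) {d l : ℕ} (x : Fin d → ℂ) (y : Fin l → ℂ)
    (hx : ∀ i, IsAlgebraic (IntermediateField.adjoin ℚ {θ}) (x i))
    (hy : ∀ j, IsAlgebraic (IntermediateField.adjoin ℚ {θ}) (y j))
    (hxy : ∀ i j, IsAlgebraic (IntermediateField.adjoin ℚ {θ}) (Complex.exp (x i * y j))) :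
    ∃ R : RD θ, (∀ i, R.Rep 1 1 (x i)) ∧ (∀ j, R.Rep 1 1 (y j)) ∧
      ∀ i j, R.Rep 1 1 (Complex.exp (x i * y j)) := by
  classical
  let J := Fin d ⊕ Fin l ⊕ (Fin d × Fin l)
  let f : J → ℂ := Sum.elim x (Sum.elim y (fun p => Complex.exp (x p.1 * y p.2)))
  let e := Fintype.equivFin J
  obtain ⟨R, hR⟩ := exists_RD hθ (fun k => f (e.symm k)) (by
    intro k
    rcases h : e.symm k with i | j | p
    · simpa [f, h] using hx i
    · simpa [f, h] using hy j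
    · simpa [f, h] using hxy p.1 p.2)
  refine ⟨R, fun i => ?_, fun j => ?_, fun i j => ?_⟩
  · have := hR (e (Sum.inl i))
    simpa [f] using this
  · have := hR (e (Sum.inr (Sum.inl j)))
    simpa [f] using this
  · have := hR (e (Sum.inr (Sum.inr (i, j))))
    simpa [f] using this

theorem gelG_of (hcop : ∀ θ : ℂ, Coprime θ) (d l : ℕ) (hdl : d + l < d * l) : GelG d l := by
  intro θ hθ x y hx hy hax hay haxy
  obtain ⟨R, hRx, hRy, hRxy⟩ := exists_RD3 hθ x y hax hay haxy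
  have hd : 2 ≤ d := by
    rcases Nat.lt_or_ge d 2 with h | h
    · exfalso
      interval_cases d <;> simp at hdl
    · exact h
  have hl : 2 ≤ l := by
    rcases Nat.lt_or_ge l 2 with h | h
    · exfalso
      interval_cases l <;> simp at hdl
    · exact h
  -- constants
  set X : ℝ := 1 + ∑ i, ‖x i‖ with hX
  set Y : ℝ := 1 + ∑ j, ‖y j‖ with hY
  have hX1 : 1 ≤ X := by
    have : 0 ≤ ∑ i, ‖x i‖ := Finset.sum_nonneg (fun _ _ => norm_nonneg _)
    linarith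
  have hY1 : 1 ≤ Y := by
    have : 0 ≤ ∑ j, ‖y j‖ := Finset.sum_nonneg (fun _ _ => norm_nonneg _)
    linarith
  set Θ : ℝ := 1 + ‖θ‖ with hΘ
  have hΘ1 : 1 ≤ Θ := by linarith [norm_nonneg θ]
  obtain ⟨C1, hC1⟩ := exists_nat_ge (12 * ((R.ν : ℝ) + 1) + 9 * (Y * X) + 1)
  have hν0 : (0 : ℝ) ≤ R.ν := Nat.cast_nonneg _
  have hC1' : (1 : ℝ) ≤ C1 := by nlinarith
  have hC1n : 1 ≤ C1 := by exact_mod_cast hC1'
  set e := d + l with he
  -- parameters
  let T0 : ℕ → ℕ := fun M => M ^ (3 * e) - 1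
  let L0 : ℕ → ℕ := fun M => 4 * (R.ν + 1) * M ^ (3 * e) - 1
  let L : ℕ → ℕ := fun M => M ^ (3 * d)
  let S : ℕ → ℕ := fun M => M ^ (3 * l)
  let S1 : ℕ → ℕ := fun M => C1 * M ^ (3 * l)
  let D : ℕ → ℕ := fun M => L0 M + T0 M + d * l * S1 M * L M
  let K : ℕ → ℝ := fun M => (R.ν + 1 : ℝ) ^ (d * l + 3) * (d * S1 M : ℕ) ^ L0 M *
      ((L0 M + l * L M : ℕ) : ℝ) ^ T0 M
  let B : ℕ → ℝ := fun M => (((L0 M + 1) * L M ^ l : ℕ) : ℝ) * (R.δ * D M : ℕ) *
    (K M * R.H ^ D M)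
  let r' : ℕ → ℝ := fun M => 10 * X * S1 M
  have hT01 : ∀ M, 1 ≤ M → T0 M + 1 = M ^ (3 * e) := by
    intro M hM
    have : 1 ≤ M ^ (3 * e) := Nat.one_le_pow _ _ hM
    show M ^ (3 * e) - 1 + 1 = M ^ (3 * e)
    omega
  have hL01 : ∀ M, 1 ≤ M → L0 M + 1 = 4 * (R.ν + 1) * M ^ (3 * e) := by
    intro M hM
    have h1 : 1 ≤ M ^ (3 * e) := Nat.one_le_pow _ _ hM
    have : 1 ≤ 4 * (R.ν + 1) * M ^ (3 * e) := Nat.one_le_iff_ne_zero.2 (by positivity)
    show 4 * (R.ν + 1) * M ^ (3 * e) - 1 + 1 = _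
    omega
  have key : ∀ M : ℕ, 1 ≤ M → ∃ P : ℤ[X], aeval θ P ≠ 0 ∧
      P.natDegree ≤ (R.ν + 1) * (2 * (R.δ * D M)) ∧
      (∀ i, |(P.coeff i : ℝ)| ≤ (B M ^ 2) ^ (R.ν + 1)) ∧
      ‖aeval θ P‖ * ‖R.v 0‖ * 3 ^ ((T0 M + 1) * S M ^ d) ≤ ‖aeval θ R.b‖ ^ D M *
        ((T0 M).factorial *
        ((((L0 M + 1) * L M ^ l : ℕ) : ℝ) * (B M * (R.δ * D M : ℕ) * Θ ^ (R.δ * D M)) *
          (r' M ^ L0 M * Real.exp (Y * L M * r' M)))) *
        (∑ i, ‖R.v i‖) * (B M ^ 2 * Θ ^ (2 * (R.δ * D M))) ^ R.ν := by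
    intro M hM
    have hS1 : 1 ≤ S M := Nat.one_le_pow _ _ hM
    have hSS : S M ≤ S1 M := Nat.le_mul_of_pos_left _ (by omega)
    have hL1 : 1 ≤ L M := Nat.one_le_pow _ _ hM
    have hM1 : (1 : ℝ) ≤ M := by exact_mod_cast hM
    refine core hθ R (by omega) (by omega) x y hx hy hRxy (T0 M) (L0 M) (L M) (S M) (S1 M)
      (Or.inr hRx) (Or.inr hRy) hS1 hSS hL1 ?_ X Y (by linarith) (by linarith) hX1 hY1 ?_ Θ hΘ1
      (by linarith) 3 (r' M) (by norm_num) ?_ (D M) rfl (K M) (B M) rfl rfl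
    · rw [hT01 M hM, hL01 M hM]
      show 4 * (M ^ (3 * e) * (M ^ (3 * l)) ^ d * (R.ν + 1)) ≤
        4 * (R.ν + 1) * M ^ (3 * e) * (M ^ (3 * d)) ^ l
      apply le_of_eq
      rw [← pow_mul, ← pow_mul]
      have : 3 * d * l = 3 * l * d := by ring
      rw [this]
      ring
    · rw [hT01 M hM, hL01 M hM]
      show 3 * (((4 * (R.ν + 1) * M ^ (3 * e)) * (M ^ (3 * d)) ^ l : ℕ) : ℝ) +
        9 * (Y * ((M ^ (3 * d) : ℕ) : ℝ)) * (X * ((C1 * M ^ (3 * l) : ℕ) : ℝ)) <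
        ((M ^ (3 * e) * (C1 * M ^ (3 * l)) ^ d : ℕ) : ℝ)
      push_cast
      have h1 : (C1 : ℝ) * (12 * ((R.ν : ℝ) + 1) + 9 * (Y * X) + 1) ≤ (C1 : ℝ) ^ d := by
        calc (C1 : ℝ) * (12 * ((R.ν : ℝ) + 1) + 9 * (Y * X) + 1) ≤ C1 * C1 := by
              apply mul_le_mul_of_nonneg_left hC1 (by positivity)
          _ = (C1 : ℝ) ^ 2 := by ring
          _ ≤ (C1 : ℝ) ^ d := pow_le_pow_right₀ hC1' hd
      have h2 : 12 * ((R.ν : ℝ) + 1) + 9 * (Y * X) * C1 < (C1 : ℝ) ^ d := by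
        refine lt_of_lt_of_le ?_ h1
        nlinarith
      set A : ℝ := (M : ℝ) ^ (3 * e) with hA
      set E : ℝ := (M : ℝ) ^ (3 * (d * l)) with hE
      have hA1 : 1 ≤ A := one_le_pow₀ hM1
      have hE1 : 1 ≤ E := one_le_pow₀ hM1
      have e1 : ((M : ℝ) ^ (3 * d)) ^ l = E := by rw [← pow_mul, hE]; ring_nf
      have e2 : ((C1 : ℝ) * (M : ℝ) ^ (3 * l)) ^ d = (C1 : ℝ) ^ d * E := by
        rw [mul_pow, ← pow_mul, hE]; ring_nf
      have e3 : (M : ℝ) ^ (3 * d) * (M : ℝ) ^ (3 * l) = A := by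
        rw [← pow_add, hA, he]; ring_nf
      rw [e1, e2]
      calc 3 * (4 * ((R.ν : ℝ) + 1) * A * E) +
            9 * (Y * (M : ℝ) ^ (3 * d)) * (X * (C1 * (M : ℝ) ^ (3 * l)))
          = (12 * ((R.ν : ℝ) + 1)) * (A * E) + (9 * (Y * X) * C1) *
              ((M : ℝ) ^ (3 * d) * (M : ℝ) ^ (3 * l)) := by ring
        _ ≤ (12 * ((R.ν : ℝ) + 1)) * (A * E) + (9 * (Y * X) * C1) * (A * E) := by
            rw [e3]
            have : A ≤ A * E := le_mul_of_one_le_right (by linarith) hE1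
            gcongr
        _ = (12 * ((R.ν : ℝ) + 1) + 9 * (Y * X) * C1) * (A * E) := by ring
        _ < (C1 : ℝ) ^ d * (A * E) := by
            apply mul_lt_mul_of_pos_right h2
            positivity
        _ = A * ((C1 : ℝ) ^ d * E) := by ring
    · show (X * (S1 M : ℝ) + 1 + X * (S M : ℝ)) * 3 + X * (S M : ℝ) ≤ 10 * X * (S1 M : ℝ)
      have h1 : (S M : ℝ) ≤ S1 M := by exact_mod_cast hSS
      have h2 : (1 : ℝ) ≤ S1 M := by exact_mod_cast hS1.trans hSS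
      have h3 : X * (S M : ℝ) ≤ X * S1 M := mul_le_mul_of_nonneg_left h1 (by linarith)
      have h4 : 1 ≤ X * (S1 M : ℝ) := by nlinarith
      nlinarith
  choose! P hP1 hP2 hP3 hP4 using key
  -- polynomial bounds
  have pT0 : Po (3 * e) (fun M => (T0 M : ℝ)) := by
    refine (Po.pow (3 * e)).mono (fun M _ => Nat.cast_nonneg _) (fun M _ => ?_)
    have : T0 M ≤ M ^ (3 * e) := Nat.sub_le _ _
    exact_mod_cast this
  have pL0 : Po (3 * e) (fun M => (L0 M : ℝ)) := by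
    refine ((Po.pow (3 * e)).const_mul (4 * ((R.ν : ℝ) + 1)) (by positivity)).mono
      (fun M _ => Nat.cast_nonneg _) (fun M _ => ?_)
    have : L0 M ≤ 4 * (R.ν + 1) * M ^ (3 * e) := Nat.sub_le _ _
    exact_mod_cast this
  have pL : Po (3 * d) (fun M => (L M : ℝ)) := by
    refine (Po.pow (3 * d)).mono (fun M _ => Nat.cast_nonneg _) (fun M _ => ?_)
    show ((M ^ (3 * d) : ℕ) : ℝ) ≤ _
    push_cast
    exact le_rfl
  have pS1 : Po (3 * l) (fun M => (S1 M : ℝ)) := by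
    refine ((Po.pow (3 * l)).const_mul (C1 : ℝ) (by positivity)).mono
      (fun M _ => Nat.cast_nonneg _) (fun M _ => ?_)
    show ((C1 * M ^ (3 * l) : ℕ) : ℝ) ≤ _
    push_cast
    exact le_rfl
  have pD : Po (3 * e) (fun M => (D M : ℝ)) := by
    have h1 := (pL0.add pT0).add (((pS1.mul pL).const_mul ((d * l : ℕ) : ℝ) (by positivity)).weaken
      (b := 3 * e) (by omega))
    refine h1.mono (fun M _ => Nat.cast_nonneg _) (fun M _ => ?_)
    show ((L0 M + T0 M + d * l * S1 M * L M : ℕ) : ℝ) ≤ _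
    push_cast
    apply le_of_eq
    ring
  have pδD : Po (3 * e) (fun M => ((R.δ * D M : ℕ) : ℝ)) := by
    refine (pD.const_mul (R.δ : ℝ) (Nat.cast_nonneg _)).mono (fun M _ => Nat.cast_nonneg _)
      (fun M _ => ?_)
    push_cast
    exact le_rfl
  have p2δD : Po (3 * e) (fun M => ((2 * (R.δ * D M) : ℕ) : ℝ)) := by
    refine (pδD.const_mul (2 : ℝ) (by norm_num)).mono (fun M _ => Nat.cast_nonneg _)
      (fun M _ => ?_)
    push_cast
    exact le_rfl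
  have pU : Po (3 * e + 3 * (d * l)) (fun M => (((L0 M + 1) * L M ^ l : ℕ) : ℝ)) := by
    refine (Po.pow (3 * e + 3 * (d * l)) |>.const_mul (4 * ((R.ν : ℝ) + 1)) (by positivity)).mono
      (fun M _ => Nat.cast_nonneg _) (fun M hM => ?_)
    rw [hL01 M hM]
    show ((4 * (R.ν + 1) * M ^ (3 * e) * (M ^ (3 * d)) ^ l : ℕ) : ℝ) ≤ _
    push_cast
    apply le_of_eq
    rw [← pow_mul, pow_add]
    ring
  have pLl : Po (3 * e) (fun M => ((L0 M + l * L M : ℕ) : ℝ)) := by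
    refine (pL0.add ((pL.const_mul (l : ℝ) (by positivity)).weaken (b := 3 * e) (by omega))).mono
      (fun M _ => Nat.cast_nonneg _) (fun M _ => ?_)
    push_cast
    exact le_rfl
  have pdS1 : Po (3 * l) (fun M => ((d * S1 M : ℕ) : ℝ)) := by
    refine (pS1.const_mul (d : ℝ) (by positivity)).mono (fun M _ => Nat.cast_nonneg _)
      (fun M _ => ?_)
    push_cast
    exact le_rfl
  have pr' : Po (3 * l) r' := by
    have := pS1.const_mul (10 * X) (by positivity)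
    exact this
  have pYLr : Po (3 * e) (fun M => Y * L M * r' M) := by
    have h1 := ((pL.mul pr').const_mul Y (by positivity)).weaken (b := 3 * e) (by omega)
    refine h1.mono (fun M _ => ?_) (fun M _ => le_of_eq (by ring))
    show 0 ≤ Y * L M * (10 * X * S1 M)
    positivity
  -- exponential bounds
  have sK : Sm (3 * e + 1) K :=
    ((Sm.ofPo (Po.const 0 ((R.ν + 1 : ℝ) ^ (d * l + 3)) (by positivity)) (by omega)).mul
      (Sm.powvar pdS1 pL0 le_rfl)).mul (Sm.powvar pLl pT0 le_rfl)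
  have hH := R.hH
  have sHD : Sm (3 * e + 1) (fun M => R.H ^ D M) :=
    Sm.powvar (Po.const 0 R.H (by linarith)) pD le_rfl
  have sB : Sm (3 * e + 1) B :=
    ((Sm.ofPo pU (by omega)).mul (Sm.ofPo pδD (by omega))).mul (sK.mul sHD)
  have sΘ : Sm (3 * e + 1) (fun M => Θ ^ (R.δ * D M)) :=
    Sm.powvar (Po.const 0 Θ (by linarith)) pδD le_rfl
  have sΘ2 : Sm (3 * e + 1) (fun M => Θ ^ (2 * (R.δ * D M))) :=
    Sm.powvar (Po.const 0 Θ (by linarith)) p2δD le_rfl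
  have sb : Sm (3 * e + 1) (fun M => ‖aeval θ R.b‖ ^ D M) :=
    Sm.powvar (Po.const 0 _ (norm_nonneg _)) pD le_rfl
  have sRHS : Sm (3 * e + 1) (fun M => ‖aeval θ R.b‖ ^ D M *
        ((T0 M).factorial *
        ((((L0 M + 1) * L M ^ l : ℕ) : ℝ) * (B M * (R.δ * D M : ℕ) * Θ ^ (R.δ * D M)) *
          (r' M ^ L0 M * Real.exp (Y * L M * r' M)))) *
        (∑ i, ‖R.v i‖) * (B M ^ 2 * Θ ^ (2 * (R.δ * D M))) ^ R.ν) := by
    refine ((sb.mul ((Sm.fact pT0 le_rfl).mul ?_)).mul (Sm.ofPo (Po.const 0 _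
      (Finset.sum_nonneg (fun _ _ => norm_nonneg _))) (by omega))).mul
      (((sB.powc 2).mul sΘ2).powc R.ν)
    refine ((Sm.ofPo pU (by omega)).mul ((sB.mul (Sm.ofPo pδD (by omega))).mul sΘ)).mul ?_
    exact (Sm.powvar pr' pL0 le_rfl).mul (Sm.exp pYLr (by omega))
  have sco : Sm (3 * e + 1) (fun M => (B M ^ 2) ^ (R.ν + 1)) := (sB.powc 2).powc (R.ν + 1)
  obtain ⟨C2, hC2, hR2⟩ := sRHS
  obtain ⟨C3, hC3, hR3⟩ := sco
  obtain ⟨C4, hC4, hR4⟩ := pδD
  have hv0 : 0 < ‖R.v 0‖ := norm_pos_iff.2 R.v0_ne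
  set C5 : ℝ := |Real.log ‖R.v 0‖| with hC5
  have hC50 : 0 ≤ C5 := abs_nonneg _
  set C : ℝ := 1 + C2 + C3 + 2 * (R.ν + 1) * C4 + C5 with hC
  have hC20 : 0 ≤ 2 * ((R.ν : ℝ) + 1) * C4 := by positivity
  refine crit_of θ (hcop θ) (3 * e + 1) (by omega) C (by linarith) P hP1 ?_ ?_ ?_
  · intro M hM
    have h1 : ((P M).natDegree : ℝ) ≤ (((R.ν + 1) * (2 * (R.δ * D M)) : ℕ) : ℝ) := by
      exact_mod_cast hP2 M hM
    have h2 : (((R.ν + 1) * (2 * (R.δ * D M)) : ℕ) : ℝ) = 2 * ((R.ν : ℝ) + 1) *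
        ((R.δ * D M : ℕ) : ℝ) := by push_cast; ring
    have hM1 : (1 : ℝ) ≤ M := by exact_mod_cast hM
    calc ((P M).natDegree : ℝ) ≤ 2 * ((R.ν : ℝ) + 1) * ((R.δ * D M : ℕ) : ℝ) := by
          rw [← h2]; exact h1
      _ ≤ 2 * ((R.ν : ℝ) + 1) * (C4 * (M : ℝ) ^ (3 * e)) :=
          mul_le_mul_of_nonneg_left (hR4 M hM).2 (by positivity)
      _ = (2 * ((R.ν : ℝ) + 1) * C4) * (M : ℝ) ^ (3 * e) := by ring
      _ ≤ C * (M : ℝ) ^ (3 * e + 1) := by
          apply mul_le_mul _ (pow_le_pow_right₀ hM1 (by omega)) (by positivity) (by linarith)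
          linarith
  · intro M hM i
    refine (hP3 M hM i).trans ((hR3 M hM).2.trans (Real.exp_le_exp.2 ?_))
    apply mul_le_mul_of_nonneg_right _ (by positivity)
    linarith
  · intro M hM
    have hM1 : (1 : ℝ) ≤ M := by exact_mod_cast hM
    have h1 := (hP4 M hM).trans (hR2 M hM).2
    set n := (T0 M + 1) * S M ^ d with hn
    have hn' : (M : ℝ) ^ (2 * (3 * e + 1) + 1) ≤ (n : ℝ) := by
      rw [hn, hT01 M hM]
      show _ ≤ ((M ^ (3 * e) * (M ^ (3 * l)) ^ d : ℕ) : ℝ)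
      push_cast
      rw [← pow_mul, ← pow_add]
      apply pow_le_pow_right₀ hM1
      nlinarith
    have h3n : Real.exp (n : ℝ) ≤ 3 ^ n := by
      have h5 : Real.exp 1 ≤ 3 := by
        have := Real.exp_one_lt_d9
        linarith
      calc Real.exp (n : ℝ) = Real.exp 1 ^ n := by rw [← Real.exp_nat_mul, mul_one]
        _ ≤ 3 ^ n := pow_le_pow_left₀ (Real.exp_nonneg _) h5 _
    have h6 : Real.exp (-C5) ≤ ‖R.v 0‖ := by
      calc Real.exp (-C5) ≤ Real.exp (Real.log ‖R.v 0‖) :=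
            Real.exp_le_exp.2 (neg_abs_le _)
        _ = ‖R.v 0‖ := Real.exp_log hv0
    have h7 : ‖aeval θ (P M)‖ * Real.exp (-C5 + n) ≤ Real.exp (C2 * (M : ℝ) ^ (3 * e + 1)) := by
      calc ‖aeval θ (P M)‖ * Real.exp (-C5 + n)
          = ‖aeval θ (P M)‖ * Real.exp (-C5) * Real.exp n := by rw [Real.exp_add]; ring
        _ ≤ ‖aeval θ (P M)‖ * ‖R.v 0‖ * 3 ^ n := by gcongr
        _ ≤ _ := h1
    calc ‖aeval θ (P M)‖
        = (‖aeval θ (P M)‖ * Real.exp (-C5 + n)) * Real.exp (-(-C5 + n)) := by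
          rw [mul_assoc, ← Real.exp_add]
          simp
      _ ≤ Real.exp (C2 * (M : ℝ) ^ (3 * e + 1)) * Real.exp (-(-C5 + n)) :=
          mul_le_mul_of_nonneg_right h7 (Real.exp_nonneg _)
      _ = Real.exp (C2 * (M : ℝ) ^ (3 * e + 1) + C5 - n) := by
          rw [← Real.exp_add]; ring_nf
      _ ≤ Real.exp (C * (M : ℝ) ^ (3 * e + 1) - (M : ℝ) ^ (2 * (3 * e + 1) + 1)) := by
          apply Real.exp_le_exp.2
          have h8 : C5 ≤ C5 * (M : ℝ) ^ (3 * e + 1) := le_mul_of_one_le_right hC50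
            (one_le_pow₀ hM1)
          have h9 : (C2 + C5) * (M : ℝ) ^ (3 * e + 1) ≤ C * (M : ℝ) ^ (3 * e + 1) := by
            apply mul_le_mul_of_nonneg_right _ (by positivity)
            linarith
          linarith

end Pool.Agent.W252
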