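import Pool.Agent.W252.GelSiegel

/-!
# The coefficients of the linear system are represented by small matrices
-/

set_option autoImplicit false

namespace Pool.Agent.W252

open Polynomial Finset

variable {θ : ℂ}

/-- The monomial `z^a e^{ωz}` as a function. -/
noncomputable def mono (a : ℕ) (ω : ℂ) : ℂ → ℂ := fun z => z ^ a * Complex.exp (ω * z)

theorem iteratedDeriv_mono (a : ℕ) (ω : ℂ) (t : ℕ) (z : ℂ) :
    iteratedDeriv t (mono a ω) z = ∑ τ ∈ range (t + 1),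
      ((t.choose τ * a.descFactorial τ : ℕ) : ℂ) * (z ^ (a - τ) * (ω ^ (t - τ) *
        Complex.exp (ω * z))) := by
  unfold mono
  rw [iteratedDeriv_fun_mul (by fun_prop) (by fun_prop)]
  apply Finset.sum_congr rfl
  intro τ _
  rw [iteratedDeriv_pow, iteratedDeriv_cexp_const_mul]
  push_cast
  ring

theorem rep_exp (R : RD θ) {d l : ℕ} (x : Fin d → ℂ) (y : Fin l → ℂ)
    (hxy : ∀ i j, R.Rep 1 1 (Complex.exp (x i * y j))) (S L : ℕ) (k : Fin d → ℕ)
    (hk : ∀ i, k i ≤ S) (lam : Fin l → ℕ) (hl : ∀ j, lam j ≤ L) :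
    R.Rep (d * l * S * L) ((R.ν + 1 : ℝ) ^ (d * l + 1))
      (Complex.exp ((∑ j, (lam j : ℂ) * y j) * (∑ i, (k i : ℂ) * x i))) := by
  have h1 : Complex.exp ((∑ j, (lam j : ℂ) * y j) * (∑ i, (k i : ℂ) * x i)) =
      ∏ p : Fin d × Fin l, Complex.exp (x p.1 * y p.2) ^ (k p.1 * lam p.2) := by
    rw [Finset.sum_mul_sum, Finset.sum_comm, ← Finset.sum_product', Complex.exp_sum]
    apply Finset.prod_congr rfl
    intro p _
    rw [← Complex.exp_nat_mul]
    congr 1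
    push_cast
    ring
  rw [h1]
  have h2 := RD.Rep.prod (R := R) (Finset.univ : Finset (Fin d × Fin l))
    (fun p => 1 * (k p.1 * lam p.2)) (fun p => (R.ν + 1 : ℝ) * 1 ^ (k p.1 * lam p.2))
    (fun p => Complex.exp (x p.1 * y p.2) ^ (k p.1 * lam p.2))
    (fun p _ => (hxy p.1 p.2).pow _)
  have h3 : ∑ p : Fin d × Fin l, 1 * (k p.1 * lam p.2) ≤ d * l * S * L := by
    calc ∑ p : Fin d × Fin l, 1 * (k p.1 * lam p.2) ≤ ∑ _p : Fin d × Fin l, S * L := by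
          apply Finset.sum_le_sum
          intro p _
          rw [one_mul]
          exact Nat.mul_le_mul (hk _) (hl _)
      _ = d * l * S * L := by simp; ring
  refine (h2.lift h3).mono (le_of_eq ?_)
  simp only [one_pow, mul_one, Finset.prod_const, Finset.card_univ, Fintype.card_prod,
    Fintype.card_fin]
  ring

theorem rep_lin (R : RD θ) {d : ℕ} (x : Fin d → ℂ) (hx : ∀ i, R.Rep 1 1 (x i)) (S : ℕ)
    (k : Fin d → ℕ) (hk : ∀ i, k i ≤ S) : R.Rep 1 (d * S : ℕ) (∑ i, (k i : ℂ) * x i) := by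
  have h := RD.Rep.sum (R := R) Finset.univ 1 (fun i => (k i : ℝ) * 1) (fun i => (k i : ℂ) * x i)
    (fun i _ => (hx i).nat_mul (k i))
  refine h.mono ?_
  calc ∑ i, (k i : ℝ) * 1 ≤ ∑ _i : Fin d, (S : ℝ) := by
        apply Finset.sum_le_sum
        intro i _
        rw [mul_one]
        exact_mod_cast hk i
    _ = ((d * S : ℕ) : ℝ) := by simp

/-- The main bound for the coefficients. -/
theorem rep_coef (R : RD θ) {d l : ℕ} (x : Fin d → ℂ) (y : Fin l → ℂ) (S L T0 L0 : ℕ)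
    (hx : L0 = 0 ∨ ∀ i, R.Rep 1 1 (x i)) (hy : T0 = 0 ∨ ∀ j, R.Rep 1 1 (y j))
    (hxy : ∀ i j, R.Rep 1 1 (Complex.exp (x i * y j)))
    (hd : 1 ≤ d) (hl1 : 1 ≤ l) (hS : 1 ≤ S) (hL : 1 ≤ L)
    (k : Fin d → ℕ) (hk : ∀ i, k i ≤ S) (lam : Fin l → ℕ) (hl : ∀ j, lam j ≤ L) (a t : ℕ)
    (ha : a ≤ L0) (ht : t ≤ T0) :
    R.Rep (L0 + T0 + d * l * S * L)
      ((R.ν + 1 : ℝ) ^ (d * l + 3) * (d * S : ℕ) ^ L0 * ((L0 + l * L : ℕ) : ℝ) ^ T0)
      (iteratedDeriv t (mono a (∑ j, (lam j : ℂ) * y j)) (∑ i, (k i : ℂ) * x i)) := by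
  rw [iteratedDeriv_mono]
  have hdS : 1 ≤ d * S := Nat.one_le_iff_ne_zero.2 (Nat.mul_ne_zero (by omega) (by omega))
  have hlL : 1 ≤ l * L := Nat.one_le_iff_ne_zero.2 (Nat.mul_ne_zero (by omega) (by omega))
  have hdS' : (1 : ℝ) ≤ ((d * S : ℕ) : ℝ) := by exact_mod_cast hdS
  have hlL' : (1 : ℝ) ≤ ((l * L : ℕ) : ℝ) := by exact_mod_cast hlL
  have hν : (1 : ℝ) ≤ (R.ν + 1 : ℝ) := by
    have : (0 : ℝ) ≤ R.ν := Nat.cast_nonneg _
    linarith
  set X := ∑ i, (k i : ℂ) * x i with hX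
  set Y := ∑ j, (lam j : ℂ) * y j with hY
  have hE := rep_exp R x y hxy S L k hk lam hl
  rw [← hX, ← hY] at hE
  -- the powers
  have hXp : ∀ τ, R.Rep (a - τ) ((R.ν + 1 : ℝ) * (d * S : ℕ) ^ L0) (X ^ (a - τ)) := by
    intro τ
    rcases hx with h0 | hx
    · have : a - τ = 0 := by omega
      rw [this, pow_zero, h0, pow_zero, mul_one]
      exact RD.Rep.one R
    · have h := (rep_lin R x hx S k hk).pow (a - τ)
      rw [one_mul] at h
      refine h.mono ?_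
      apply mul_le_mul_of_nonneg_left _ (by linarith)
      exact pow_le_pow_right₀ hdS' (by omega)
  have hYp : ∀ τ, R.Rep (t - τ) ((R.ν + 1 : ℝ) * (l * L : ℕ) ^ (t - τ)) (Y ^ (t - τ)) := by
    intro τ
    rcases hy with h0 | hy
    · have : t - τ = 0 := by omega
      rw [this, pow_zero, pow_zero, mul_one]
      exact RD.Rep.one R
    · have h := (rep_lin R y hy L lam hl).pow (t - τ)
      rw [one_mul] at h
      exact h
  have hterm : ∀ τ ∈ range (t + 1), R.Rep (L0 + T0 + d * l * S * L)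
      (((R.ν + 1 : ℝ) ^ (d * l + 3) * (d * S : ℕ) ^ L0) *
        ((L0 : ℝ) ^ τ * ((l * L : ℕ) : ℝ) ^ (t - τ) * (t.choose τ : ℝ)))
      (((t.choose τ * a.descFactorial τ : ℕ) : ℂ) * (X ^ (a - τ) * (Y ^ (t - τ) *
        Complex.exp (Y * X)))) := by
    intro τ _
    have h1 := ((hXp τ).mul ((hYp τ).mul hE)).nat_mul (t.choose τ * a.descFactorial τ)
    have h2 : a - τ + (t - τ + d * l * S * L) ≤ L0 + T0 + d * l * S * L := by omega
    refine (h1.lift h2).mono ?_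
    have h3 : (a.descFactorial τ : ℝ) ≤ (L0 : ℝ) ^ τ := by
      calc (a.descFactorial τ : ℝ) ≤ ((a ^ τ : ℕ) : ℝ) := by
            exact_mod_cast Nat.descFactorial_le_pow a τ
        _ ≤ (L0 : ℝ) ^ τ := by
            push_cast
            exact pow_le_pow_left₀ (Nat.cast_nonneg _) (by exact_mod_cast ha) _
    calc ((t.choose τ * a.descFactorial τ : ℕ) : ℝ) * ((R.ν + 1 : ℝ) * (d * S : ℕ) ^ L0 *
          ((R.ν + 1 : ℝ) * (l * L : ℕ) ^ (t - τ) * (R.ν + 1 : ℝ) ^ (d * l + 1)))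
        = ((R.ν + 1 : ℝ) ^ (d * l + 3) * (d * S : ℕ) ^ L0) *
          ((a.descFactorial τ : ℝ) * ((l * L : ℕ) : ℝ) ^ (t - τ) * (t.choose τ : ℝ)) := by
          push_cast; ring
      _ ≤ _ := by gcongr
  have hsum := RD.Rep.sum (R := R) (range (t + 1)) _ _ _ hterm
  refine hsum.mono ?_
  rw [← Finset.mul_sum, ← add_pow]
  apply mul_le_mul_of_nonneg_left _ (by positivity)
  calc ((L0 : ℝ) + ((l * L : ℕ) : ℝ)) ^ t ≤ ((L0 : ℝ) + ((l * L : ℕ) : ℝ)) ^ T0 := by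
        apply pow_le_pow_right₀ _ ht
        have : (0 : ℝ) ≤ L0 := Nat.cast_nonneg _
        linarith
    _ = _ := by push_cast; rfl

end Pool.Agent.W252
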