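import Pool.Agent.W252.GelLen

/-!
# Numbers represented by matrices over `ℤ[X]`, evaluated at `θ`
-/

set_option autoImplicit false

namespace Pool.Agent.W252

open Polynomial Matrix Finset

/-- The matrix `A` over `ℤ[X]`, evaluated at `θ`, multiplies the vector `v` by `c`. -/
def Acts {n : ℕ} (θ : ℂ) (v : Fin n → ℂ) (A : Matrix (Fin n) (Fin n) ℤ[X]) (c : ℂ) : Prop :=
  ∀ i, ∑ k, aeval θ (A i k) * v k = c * v i

section acts
variable {n : ℕ} {θ : ℂ} {v : Fin n → ℂ}

theorem Acts.one : Acts θ v 1 1 := by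
  intro i
  rw [Finset.sum_eq_single i]
  · simp
  · intro j _ hj
    rw [Matrix.one_apply_ne hj.symm]
    simp
  · simp

theorem Acts.zero : Acts θ v 0 0 := by
  intro i
  simp

theorem Acts.add {A B : Matrix (Fin n) (Fin n) ℤ[X]} {c c' : ℂ} (hA : Acts θ v A c)
    (hB : Acts θ v B c') : Acts θ v (A + B) (c + c') := by
  intro i
  have h1 := hA i
  have h2 := hB i
  rw [add_mul, ← h1, ← h2, ← Finset.sum_add_distrib]
  apply Finset.sum_congr rfl
  intro k _
  rw [Matrix.add_apply, map_add, add_mul]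

theorem Acts.smul {A : Matrix (Fin n) (Fin n) ℤ[X]} {c : ℂ} (p : ℤ[X]) (hA : Acts θ v A c) :
    Acts θ v (p • A) (aeval θ p * c) := by
  intro i
  have h1 := hA i
  rw [mul_assoc, ← h1, Finset.mul_sum]
  apply Finset.sum_congr rfl
  intro k _
  rw [Matrix.smul_apply, smul_eq_mul, map_mul, mul_assoc]

theorem Acts.mul {A B : Matrix (Fin n) (Fin n) ℤ[X]} {c c' : ℂ} (hA : Acts θ v A c)
    (hB : Acts θ v B c') : Acts θ v (A * B) (c * c') := by
  intro i
  have h1 := hA i
  calc ∑ k, aeval θ ((A * B) i k) * v k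
      = ∑ k, ∑ j, aeval θ (A i j) * (aeval θ (B j k) * v k) := by
        apply Finset.sum_congr rfl
        intro k _
        rw [Matrix.mul_apply, map_sum, Finset.sum_mul]
        apply Finset.sum_congr rfl
        intro j _
        rw [map_mul, mul_assoc]
    _ = ∑ j, aeval θ (A i j) * ∑ k, aeval θ (B j k) * v k := by
        rw [Finset.sum_comm]
        apply Finset.sum_congr rfl
        intro j _
        rw [Finset.mul_sum]
    _ = ∑ j, c' * (aeval θ (A i j) * v j) := by
        apply Finset.sum_congr rfl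
        intro j _
        rw [hB j]
        ring
    _ = c * c' * v i := by
        rw [← Finset.mul_sum, h1]
        ring

theorem Acts.sum {ι : Type*} (s : Finset ι) (A : ι → Matrix (Fin n) (Fin n) ℤ[X]) (c : ι → ℂ)
    (h : ∀ i ∈ s, Acts θ v (A i) (c i)) : Acts θ v (∑ i ∈ s, A i) (∑ i ∈ s, c i) := by
  classical
  induction s using Finset.induction_on with
  | empty => simpa using Acts.zero
  | insert a s ha ih =>
    rw [Finset.sum_insert ha, Finset.sum_insert ha]
    exact (h a (Finset.mem_insert_self _ _)).add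
      (ih (fun i hi => h i (Finset.mem_insert_of_mem hi)))

end acts

/-- Determinant of a matrix that multiplies a generic vector by a nonzero number. -/
theorem acts_det {ν : ℕ} {θ : ℂ} (hθ : Transcendental ℚ θ) {v : Fin (ν + 1) → ℂ}
    (hv : ∀ u : Fin (ν + 1) → ℤ[X], ∑ i, aeval θ (u i) * v i = 0 → u = 0)
    {A : Matrix (Fin (ν + 1)) (Fin (ν + 1)) ℤ[X]} {c : ℂ} (hA : Acts θ v A c) (hc : c ≠ 0)
    (Θ : ℝ) (h1 : 1 ≤ Θ) (hΘ : ‖θ‖ ≤ Θ) (δ : ℕ) (hδ : ∀ i j, (A i j).natDegree ≤ δ) :
    aeval θ A.det ≠ 0 ∧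
      ‖aeval θ A.det‖ * ‖v 0‖ ≤ ‖c‖ * (∑ i, ‖v i‖) * (mN A * Θ ^ δ) ^ ν := by
  have hinj : ∀ p : ℤ[X], aeval θ p = 0 → p = 0 := by
    intro p hp
    by_contra hne
    apply hθ
    refine ⟨p.map (Int.castRingHom ℚ), ?_, ?_⟩
    · intro h
      apply hne
      exact (Polynomial.map_eq_zero_iff (Int.cast_injective (α := ℚ))).1 h
    · have : aeval θ (p.map (algebraMap ℤ ℚ)) = aeval θ p := Polynomial.aeval_map_algebraMap ℚ θ p
      exact this.trans hp
  constructor
  · intro h0
    have hdet := hinj _ h0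
    obtain ⟨u, hu, huA⟩ := Matrix.exists_vecMul_eq_zero_iff.2 hdet
    apply hu
    apply hv
    have h2 : ∑ i, aeval θ (u i) * (∑ k, aeval θ (A i k) * v k) = 0 := by
      calc ∑ i, aeval θ (u i) * (∑ k, aeval θ (A i k) * v k)
          = ∑ k, aeval θ ((u ᵥ* A) k) * v k := by
            simp_rw [Finset.mul_sum]
            rw [Finset.sum_comm]
            apply Finset.sum_congr rfl
            intro k _
            rw [Matrix.vecMul, dotProduct, map_sum, Finset.sum_mul]
            apply Finset.sum_congr rfl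
            intro i _
            rw [map_mul, mul_assoc]
        _ = 0 := by rw [huA]; simp
    have h3 : ∑ i, aeval θ (u i) * (∑ k, aeval θ (A i k) * v k) =
        c * ∑ i, aeval θ (u i) * v i := by
      rw [Finset.mul_sum]
      apply Finset.sum_congr rfl
      intro i _
      rw [hA i]
      ring
    rw [h3] at h2
    exact (mul_eq_zero.1 h2).resolve_left hc
  · set B : Matrix (Fin (ν + 1)) (Fin (ν + 1)) ℂ := A.map (fun p => aeval θ p) with hB
    have hdet : aeval θ A.det = B.det := by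
      have := (aeval θ : ℤ[X] →ₐ[ℤ] ℂ).toRingHom.map_det A
      exact this
    have hBv : B *ᵥ v = c • v := by
      funext i
      rw [Matrix.mulVec, dotProduct]
      simpa [hB] using hA i
    have h4 : B.det * v 0 = (B.updateCol 0 (c • v)).det := by
      rw [← Matrix.cramer_apply, Matrix.cramer_eq_adjugate_mulVec, ← hBv, Matrix.mulVec_mulVec,
        Matrix.adjugate_mul, Matrix.smul_mulVec, Matrix.one_mulVec]
      simp
    rw [hdet, ← norm_mul, h4]
    refine (norm_det_le _).trans ?_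
    rw [Fin.prod_univ_succ]
    apply mul_le_mul
    · simp only [Matrix.updateCol_self, Pi.smul_apply, smul_eq_mul, norm_mul]
      rw [← Finset.mul_sum]
    · calc ∏ j : Fin ν, ∑ i, ‖B.updateCol 0 (c • v) i j.succ‖ ≤ ∏ j : Fin ν, (mN A * Θ ^ δ) := by
            apply Finset.prod_le_prod
            · intro j _; exact Finset.sum_nonneg (fun _ _ => norm_nonneg _)
            · intro j _
              unfold mN
              rw [Finset.sum_mul]
              apply Finset.sum_le_sum
              intro i _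
              rw [Matrix.updateCol_ne (Fin.succ_ne_zero j)]
              refine (norm_aeval_le θ Θ h1 hΘ _ δ (hδ i j.succ)).trans ?_
              apply mul_le_mul_of_nonneg_right _ (by positivity)
              exact Finset.single_le_sum (f := fun j => pl (A i j)) (fun _ _ => pl_nonneg _)
                (Finset.mem_univ j.succ)
        _ = (mN A * Θ ^ δ) ^ ν := by simp
    · exact Finset.prod_nonneg (fun _ _ => Finset.sum_nonneg (fun _ _ => norm_nonneg _))
    · positivity

/-- Data of a representation. -/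
structure RD (θ : ℂ) where
  /-- one less than the degree -/
  ν : ℕ
  /-- the vector -/
  v : Fin (ν + 1) → ℂ
  /-- the denominator -/
  b : ℤ[X]
  /-- degree bound -/
  δ : ℕ
  /-- height bound -/
  H : ℝ
  hδ : 1 ≤ δ
  hH : 1 ≤ H
  hb0 : aeval θ b ≠ 0
  hbδ : b.natDegree ≤ δ
  hbH : pl b ≤ H
  hv : ∀ u : Fin (ν + 1) → ℤ[X], ∑ i, aeval θ (u i) * v i = 0 → u = 0

variable {θ : ℂ}

/-- `b ^ D * η` is represented by a matrix of degree `≤ δ D` and length `≤ K H ^ D`. -/
def RD.Rep (R : RD θ) (D : ℕ) (K : ℝ) (η : ℂ) : Prop :=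
  ∃ A : Matrix (Fin (R.ν + 1)) (Fin (R.ν + 1)) ℤ[X], Acts θ R.v A (aeval θ R.b ^ D * η) ∧
    (∀ i j, (A i j).natDegree ≤ R.δ * D) ∧ mN A ≤ K * R.H ^ D

namespace RD
variable (R : RD θ)

theorem Rep.one : R.Rep 0 (R.ν + 1) 1 := by
  refine ⟨1, by simpa using Acts.one, ?_, ?_⟩
  · intro i j
    rw [Matrix.one_apply]
    split_ifs <;> simp
  · have := mN_one (n := Fin (R.ν + 1))
    simpa using this

theorem Rep.zero (D : ℕ) : R.Rep D 0 0 := by
  refine ⟨0, by simpa using Acts.zero, ?_, ?_⟩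
  · intro i j; simp
  · simp [mN_zero]

variable {R}

theorem Rep.mono {D : ℕ} {K K' : ℝ} {η : ℂ} (h : R.Rep D K η) (hK : K ≤ K') : R.Rep D K' η := by
  obtain ⟨A, h1, h2, h3⟩ := h
  refine ⟨A, h1, h2, h3.trans ?_⟩
  have := R.hH
  gcongr

theorem Rep.mul {D D' : ℕ} {K K' : ℝ} {η η' : ℂ} (h : R.Rep D K η) (h' : R.Rep D' K' η') :
    R.Rep (D + D') (K * K') (η * η') := by
  obtain ⟨A, h1, h2, h3⟩ := h
  obtain ⟨A', h1', h2', h3'⟩ := h'
  refine ⟨A * A', ?_, ?_, ?_⟩
  · have := h1.mul h1'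
    convert this using 1
    ring
  · intro i j
    rw [Matrix.mul_apply]
    apply Polynomial.natDegree_sum_le_of_forall_le
    intro k _
    refine Polynomial.natDegree_mul_le.trans ?_
    have := h2 i k
    have := h2' k j
    rw [Nat.mul_add]
    omega
  · refine (mN_mul _ _).trans ?_
    have h4 : 0 ≤ mN A' := mN_nonneg _
    have h5 : 0 ≤ K * R.H ^ D := (mN_nonneg A).trans h3
    calc mN A * mN A' ≤ (K * R.H ^ D) * (K' * R.H ^ D') := mul_le_mul h3 h3' h4 h5
      _ = K * K' * R.H ^ (D + D') := by rw [pow_add]; ring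

theorem Rep.add {D : ℕ} {K K' : ℝ} {η η' : ℂ} (h : R.Rep D K η) (h' : R.Rep D K' η') :
    R.Rep D (K + K') (η + η') := by
  obtain ⟨A, h1, h2, h3⟩ := h
  obtain ⟨A', h1', h2', h3'⟩ := h'
  refine ⟨A + A', ?_, ?_, ?_⟩
  · have := h1.add h1'
    convert this using 1
    ring
  · intro i j
    rw [Matrix.add_apply]
    exact (Polynomial.natDegree_add_le _ _).trans (max_le (h2 i j) (h2' i j))
  · refine (mN_add _ _).trans ?_
    rw [add_mul]
    linarith

theorem Rep.sum {ι : Type*} (s : Finset ι) (D : ℕ) (K : ι → ℝ) (η : ι → ℂ)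
    (h : ∀ i ∈ s, R.Rep D (K i) (η i)) : R.Rep D (∑ i ∈ s, K i) (∑ i ∈ s, η i) := by
  classical
  induction s using Finset.induction_on with
  | empty => simpa using Rep.zero R D
  | insert a s ha ih =>
    rw [Finset.sum_insert ha, Finset.sum_insert ha]
    exact (h a (Finset.mem_insert_self _ _)).add
      (ih (fun i hi => h i (Finset.mem_insert_of_mem hi)))

theorem Rep.lift1 {D : ℕ} {K : ℝ} {η : ℂ} (h : R.Rep D K η) : R.Rep (D + 1) K η := by
  obtain ⟨A, h1, h2, h3⟩ := h
  refine ⟨R.b • A, ?_, ?_, ?_⟩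
  · have := h1.smul R.b
    convert this using 1
    ring
  · intro i j
    rw [Matrix.smul_apply, smul_eq_mul]
    refine Polynomial.natDegree_mul_le.trans ?_
    have := h2 i j
    have := R.hbδ
    rw [Nat.mul_add]
    omega
  · refine (mN_smul _ _).trans ?_
    have h5 : 0 ≤ K * R.H ^ D := (mN_nonneg A).trans h3
    have hH := R.hH
    calc pl R.b * mN A ≤ R.H * (K * R.H ^ D) :=
          mul_le_mul R.hbH h3 (mN_nonneg _) (by linarith)
      _ = K * R.H ^ (D + 1) := by rw [pow_succ]; ring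

theorem Rep.lift {D D' : ℕ} {K : ℝ} {η : ℂ} (h : R.Rep D K η) (hD : D ≤ D') : R.Rep D' K η := by
  induction D', hD using Nat.le_induction with
  | base => exact h
  | succ n _ ih => exact ih.lift1

theorem Rep.int_mul {D : ℕ} {K : ℝ} {η : ℂ} (a : ℤ) (h : R.Rep D K η) :
    R.Rep D (|(a : ℝ)| * K) ((a : ℂ) * η) := by
  obtain ⟨A, h1, h2, h3⟩ := h
  refine ⟨(C a : ℤ[X]) • A, ?_, ?_, ?_⟩
  · have := h1.smul (C a)
    convert this using 1
    rw [Polynomial.aeval_C]
    simp
    ring
  · intro i j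
    rw [Matrix.smul_apply, smul_eq_mul]
    exact (Polynomial.natDegree_C_mul_le _ _).trans (h2 i j)
  · refine (mN_smul _ _).trans ?_
    calc pl (C a) * mN A ≤ |(a : ℝ)| * (K * R.H ^ D) :=
          mul_le_mul (pl_C a) h3 (mN_nonneg _) (abs_nonneg _)
      _ = |(a : ℝ)| * K * R.H ^ D := by ring

theorem Rep.nat_mul {D : ℕ} {K : ℝ} {η : ℂ} (a : ℕ) (h : R.Rep D K η) :
    R.Rep D (a * K) ((a : ℂ) * η) := by
  have := h.int_mul (a : ℤ)
  simpa using this

theorem Rep.pow {D : ℕ} {K : ℝ} {η : ℂ} (h : R.Rep D K η) (k : ℕ) :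
    R.Rep (D * k) ((R.ν + 1) * K ^ k) (η ^ k) := by
  induction k with
  | zero => simpa using Rep.one R
  | succ k ih =>
    have := ih.mul h
    convert this using 1 <;> ring

theorem Rep.prod {ι : Type*} (s : Finset ι) (D : ι → ℕ) (K : ι → ℝ) (η : ι → ℂ)
    (h : ∀ i ∈ s, R.Rep (D i) (K i) (η i)) :
    R.Rep (∑ i ∈ s, D i) ((R.ν + 1) * ∏ i ∈ s, K i) (∏ i ∈ s, η i) := by
  classical
  induction s using Finset.induction_on with
  | empty => simpa using Rep.one R
  | insert a s ha ih =>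
    rw [Finset.sum_insert ha, Finset.prod_insert ha, Finset.prod_insert ha]
    have := (h a (Finset.mem_insert_self _ _)).mul
      (ih (fun i hi => h i (Finset.mem_insert_of_mem hi)))
    convert this using 1
    ring

end RD

end Pool.Agent.W252
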