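import Pool.Agent.W252.GelCore
import Pool.Agent.W252.GelDefs
import Pool.Agent.W85.GelA2
import Pool.Agent.W85.GelB1

/-!
# Asymptotic estimates in Gel'fond's method
-/

set_option autoImplicit false

namespace Pool.Agent.W252

open Polynomial Finset Filter

/-- `0 ≤ h M ≤ exp (C M^p)` for all `M ≥ 1`, with some constant `C`. -/
def Sm (p : ℕ) (h : ℕ → ℝ) : Prop :=
  ∃ C : ℝ, 0 ≤ C ∧ ∀ M : ℕ, 1 ≤ M → 0 ≤ h M ∧ h M ≤ Real.exp (C * (M : ℝ) ^ p)

/-- `0 ≤ f M ≤ C M^a` for all `M ≥ 1`, with some constant `C`. -/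
def Po (a : ℕ) (f : ℕ → ℝ) : Prop :=
  ∃ C : ℝ, 0 ≤ C ∧ ∀ M : ℕ, 1 ≤ M → 0 ≤ f M ∧ f M ≤ C * (M : ℝ) ^ a

section
variable {p : ℕ}

theorem one_le_cast_pow {M : ℕ} (hM : 1 ≤ M) (p : ℕ) : (1 : ℝ) ≤ (M : ℝ) ^ p :=
  one_le_pow₀ (by exact_mod_cast hM)

theorem Po.const (a : ℕ) (c : ℝ) (hc : 0 ≤ c) : Po a (fun _ => c) :=
  ⟨c, hc, fun M hM => ⟨hc, by have := one_le_cast_pow hM a; nlinarith⟩⟩

theorem Po.pow (a : ℕ) : Po a (fun M => (M : ℝ) ^ a) :=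
  ⟨1, zero_le_one, fun M _ => ⟨by positivity, by simp⟩⟩

theorem Po.weaken {a b : ℕ} {f : ℕ → ℝ} (h : Po a f) (hab : a ≤ b) : Po b f := by
  obtain ⟨C, hC, h⟩ := h
  refine ⟨C, hC, fun M hM => ⟨(h M hM).1, (h M hM).2.trans ?_⟩⟩
  apply mul_le_mul_of_nonneg_left _ hC
  exact pow_le_pow_right₀ (by exact_mod_cast hM) hab

theorem Po.mono {a : ℕ} {f g : ℕ → ℝ} (h : Po a f) (h0 : ∀ M, 1 ≤ M → 0 ≤ g M)
    (hg : ∀ M, 1 ≤ M → g M ≤ f M) : Po a g := by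
  obtain ⟨C, hC, h⟩ := h
  exact ⟨C, hC, fun M hM => ⟨h0 M hM, (hg M hM).trans (h M hM).2⟩⟩

theorem Po.add {a : ℕ} {f g : ℕ → ℝ} (hf : Po a f) (hg : Po a g) : Po a (fun M => f M + g M) := by
  obtain ⟨C, hC, hf⟩ := hf
  obtain ⟨C', hC', hg⟩ := hg
  refine ⟨C + C', by linarith, fun M hM => ⟨by linarith [(hf M hM).1, (hg M hM).1], ?_⟩⟩
  rw [add_mul]
  linarith [(hf M hM).2, (hg M hM).2]

theorem Po.mul {a b : ℕ} {f g : ℕ → ℝ} (hf : Po a f) (hg : Po b g) :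
    Po (a + b) (fun M => f M * g M) := by
  obtain ⟨C, hC, hf⟩ := hf
  obtain ⟨C', hC', hg⟩ := hg
  refine ⟨C * C', by positivity, fun M hM => ⟨mul_nonneg (hf M hM).1 (hg M hM).1, ?_⟩⟩
  calc f M * g M ≤ (C * (M : ℝ) ^ a) * (C' * (M : ℝ) ^ b) :=
        mul_le_mul (hf M hM).2 (hg M hM).2 (hg M hM).1 (by positivity)
    _ = C * C' * (M : ℝ) ^ (a + b) := by rw [pow_add]; ring

theorem Po.const_mul {a : ℕ} {f : ℕ → ℝ} (c : ℝ) (hc : 0 ≤ c) (hf : Po a f) :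
    Po a (fun M => c * f M) := by
  have := (Po.const 0 c hc).mul hf
  simpa using this

theorem Sm.mono {f g : ℕ → ℝ} (h : Sm p f) (h0 : ∀ M, 1 ≤ M → 0 ≤ g M)
    (hg : ∀ M, 1 ≤ M → g M ≤ f M) : Sm p g := by
  obtain ⟨C, hC, h⟩ := h
  exact ⟨C, hC, fun M hM => ⟨h0 M hM, (hg M hM).trans (h M hM).2⟩⟩

theorem Sm.mul {f g : ℕ → ℝ} (hf : Sm p f) (hg : Sm p g) : Sm p (fun M => f M * g M) := by
  obtain ⟨C, hC, hf⟩ := hf
  obtain ⟨C', hC', hg⟩ := hg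
  refine ⟨C + C', by linarith, fun M hM => ⟨mul_nonneg (hf M hM).1 (hg M hM).1, ?_⟩⟩
  calc f M * g M ≤ Real.exp (C * (M : ℝ) ^ p) * Real.exp (C' * (M : ℝ) ^ p) :=
        mul_le_mul (hf M hM).2 (hg M hM).2 (hg M hM).1 (Real.exp_nonneg _)
    _ = Real.exp ((C + C') * (M : ℝ) ^ p) := by rw [← Real.exp_add]; ring_nf

theorem Sm.powc {f : ℕ → ℝ} (hf : Sm p f) (k : ℕ) : Sm p (fun M => f M ^ k) := by
  obtain ⟨C, hC, hf⟩ := hf
  refine ⟨k * C, by positivity, fun M hM => ⟨pow_nonneg (hf M hM).1 _, ?_⟩⟩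
  calc f M ^ k ≤ (Real.exp (C * (M : ℝ) ^ p)) ^ k :=
        pow_le_pow_left₀ (hf M hM).1 (hf M hM).2 _
    _ = Real.exp (k * C * (M : ℝ) ^ p) := by rw [← Real.exp_nat_mul]; ring_nf

theorem Sm.exp {f : ℕ → ℝ} {a : ℕ} (hf : Po a f) (ha : a ≤ p) : Sm p (fun M => Real.exp (f M)) := by
  obtain ⟨C, hC, hf⟩ := hf.weaken ha
  exact ⟨C, hC, fun M hM => ⟨Real.exp_nonneg _, Real.exp_le_exp.2 (hf M hM).2⟩⟩

/-- A polynomially bounded base to the power of an exponent `O(M^b)`, `b + 1 ≤ p`. -/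
theorem Sm.powvar {f : ℕ → ℝ} {g : ℕ → ℕ} {a b : ℕ} (hf : Po a f) (hg : Po b (fun M => (g M : ℝ)))
    (hb : b + 1 ≤ p) : Sm p (fun M => f M ^ g M) := by
  obtain ⟨C, hC, hf⟩ := hf
  obtain ⟨C', hC', hg⟩ := hg
  refine ⟨C' * (C + a), by positivity, fun M hM => ⟨pow_nonneg (hf M hM).1 _, ?_⟩⟩
  have hM1 : (1 : ℝ) ≤ M := by exact_mod_cast hM
  have h1 : f M ≤ Real.exp ((C + a) * M) := by
    calc f M ≤ C * (M : ℝ) ^ a := (hf M hM).2
      _ ≤ Real.exp C * (Real.exp M) ^ a := by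
          have h2 : C ≤ Real.exp C := by linarith [Real.add_one_le_exp C]
          have h3 : (M : ℝ) ≤ Real.exp M := by linarith [Real.add_one_le_exp (M : ℝ)]
          gcongr
      _ = Real.exp (C + a * M) := by rw [← Real.exp_nat_mul, ← Real.exp_add]
      _ ≤ Real.exp ((C + a) * M) := by
          apply Real.exp_le_exp.2
          nlinarith
  calc f M ^ g M ≤ (Real.exp ((C + a) * M)) ^ g M := pow_le_pow_left₀ (hf M hM).1 h1 _
    _ = Real.exp (g M * ((C + a) * M)) := by rw [← Real.exp_nat_mul]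
    _ ≤ Real.exp (C' * (C + a) * (M : ℝ) ^ p) := by
        apply Real.exp_le_exp.2
        calc (g M : ℝ) * ((C + a) * M) ≤ (C' * (M : ℝ) ^ b) * ((C + a) * M) := by
              apply mul_le_mul_of_nonneg_right (hg M hM).2
              positivity
          _ = C' * (C + a) * (M : ℝ) ^ (b + 1) := by rw [pow_succ]; ring
          _ ≤ C' * (C + a) * (M : ℝ) ^ p := by
              apply mul_le_mul_of_nonneg_left _ (by positivity)
              exact pow_le_pow_right₀ hM1 hb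

theorem Sm.ofPo {f : ℕ → ℝ} {a : ℕ} (hf : Po a f) (hp : 1 ≤ p) : Sm p f := by
  have h := Sm.powvar (p := p) (g := fun _ => 1) (b := 0) hf
    (by simpa using Po.const 0 1 zero_le_one) (by omega)
  simpa using h

theorem Sm.fact {g : ℕ → ℕ} {b : ℕ} (hg : Po b (fun M => (g M : ℝ))) (hb : b + 1 ≤ p) :
    Sm p (fun M => ((g M).factorial : ℝ)) := by
  refine (Sm.powvar hg hg hb).mono (fun M _ => by positivity) (fun M _ => ?_)
  exact_mod_cast Nat.factorial_le_pow (g M)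

end

/-- The criterion in the form in which it is used. -/
theorem crit_of (θ : ℂ)
    (hcop : ∃ C : ℝ, 0 ≤ C ∧ ∀ P Q : Polynomial ℤ,
      Irreducible P → Irreducible Q → ¬ Associated P Q → 0 < P.natDegree → 0 < Q.natDegree →
      Real.exp (-(C * sigma P * sigma Q)) ≤ max ‖aeval θ P‖ ‖aeval θ Q‖)
    (p : ℕ) (hp : 1 ≤ p) (C : ℝ) (hC : 1 ≤ C) (P : ℕ → ℤ[X])
    (hne : ∀ M, 1 ≤ M → aeval θ (P M) ≠ 0)
    (hdeg : ∀ M, 1 ≤ M → ((P M).natDegree : ℝ) ≤ C * (M : ℝ) ^ p)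
    (hco : ∀ M, 1 ≤ M → ∀ i, |((P M).coeff i : ℝ)| ≤ Real.exp (C * (M : ℝ) ^ p))
    (hval : ∀ M, 1 ≤ M → ‖aeval θ (P M)‖ ≤ Real.exp (C * (M : ℝ) ^ p - (M : ℝ) ^ (2 * p + 1))) :
    False := by
  have hC0 : (0 : ℝ) < C := by linarith
  refine Pool.Agent.W85.GelA2.gelfond_criterion_of θ hcop (fun n => C * ((n + 1 : ℕ) : ℝ) ^ p)
    (2 ^ p) ?_ ?_ ?_ ?_ (fun n => P (n + 1)) (fun n => hdeg _ (by omega))
    (fun n i => hco _ (by omega) i) (fun n => hne _ (by omega)) ?_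
  · intro n
    have := one_le_cast_pow (M := n + 1) (by omega) p
    nlinarith
  · intro a b hab
    apply mul_le_mul_of_nonneg_left _ hC0.le
    apply pow_le_pow_left₀ (by positivity)
    exact_mod_cast (by omega : a + 1 ≤ b + 1)
  · have h1 : Tendsto (fun n : ℕ => ((n + 1 : ℕ) : ℝ)) atTop atTop :=
      tendsto_natCast_atTop_atTop.comp (tendsto_add_atTop_nat 1)
    have h2 : Tendsto (fun n : ℕ => ((n + 1 : ℕ) : ℝ) ^ p) atTop atTop :=
      (tendsto_pow_atTop (by omega)).comp h1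
    exact Tendsto.const_mul_atTop hC0 h2
  · intro n
    calc C * ((n + 1 + 1 : ℕ) : ℝ) ^ p ≤ C * (2 * ((n + 1 : ℕ) : ℝ)) ^ p := by
          apply mul_le_mul_of_nonneg_left _ hC0.le
          apply pow_le_pow_left₀ (by positivity)
          push_cast
          have : (0 : ℝ) ≤ n := Nat.cast_nonneg _
          linarith
      _ = 2 ^ p * (C * ((n + 1 : ℕ) : ℝ) ^ p) := by rw [mul_pow]; ring
  · intro C₂
    obtain ⟨n0, hn0⟩ := exists_nat_ge (C + |C₂| * C ^ 2)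
    filter_upwards [eventually_ge_atTop n0] with n hn
    refine (hval (n + 1) (by omega)).trans (Real.exp_le_exp.2 ?_)
    set M : ℝ := ((n + 1 : ℕ) : ℝ) with hM
    have hM1 : (1 : ℝ) ≤ M := by rw [hM]; exact_mod_cast Nat.succ_le_succ (Nat.zero_le n)
    have hMn : C + |C₂| * C ^ 2 ≤ M := by
      refine hn0.trans ?_
      rw [hM]
      exact_mod_cast (by omega : n0 ≤ n + 1)
    have h3 : M ^ (2 * p + 1) = M * (M ^ p) ^ 2 := by rw [pow_succ, pow_mul']; ring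
    have h4 : 1 ≤ M ^ p := one_le_pow₀ hM1
    have h5 : M ^ p ≤ (M ^ p) ^ 2 := by nlinarith
    have h6 : C * M ^ p + |C₂| * C ^ 2 * (M ^ p) ^ 2 ≤ M ^ (2 * p + 1) := by
      rw [h3]
      calc C * M ^ p + |C₂| * C ^ 2 * (M ^ p) ^ 2
          ≤ C * (M ^ p) ^ 2 + |C₂| * C ^ 2 * (M ^ p) ^ 2 := by nlinarith
        _ = (C + |C₂| * C ^ 2) * (M ^ p) ^ 2 := by ring
        _ ≤ M * (M ^ p) ^ 2 := mul_le_mul_of_nonneg_right hMn (by positivity)
    have h7 : C₂ * (C * M ^ p) ^ 2 ≤ |C₂| * C ^ 2 * (M ^ p) ^ 2 := by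
      rw [mul_pow, ← mul_assoc]
      apply mul_le_mul_of_nonneg_right _ (by positivity)
      apply mul_le_mul_of_nonneg_right (le_abs_self _) (by positivity)
    have h8 : -C₂ * (C * M ^ p) ^ 2 = -(C₂ * (C * M ^ p) ^ 2) := by ring
    rw [h8]
    linarith

/-- Representation data for algebraic numbers over `ℚ(θ)`. -/
theorem exists_RD {θ : ℂ} (hθ : Transcendental ℚ θ) {m : ℕ} (ξ : Fin m → ℂ)
    (hξ : ∀ j, IsAlgebraic (IntermediateField.adjoin ℚ {θ}) (ξ j)) :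
    ∃ R : RD θ, ∀ j, R.Rep 1 1 (ξ j) := by
  obtain ⟨ν, v, b, M, hb, hv, hM⟩ := Pool.Agent.W85.GelB1.exists_rep θ hθ ξ hξ
  have hb0 : aeval θ b ≠ 0 := by
    intro h
    apply hθ
    refine ⟨b.map (Int.castRingHom ℚ), ?_, ?_⟩
    · intro h'
      exact hb ((Polynomial.map_eq_zero_iff (Int.cast_injective (α := ℚ))).1 h')
    · have : aeval θ (b.map (algebraMap ℤ ℚ)) = aeval θ b := Polynomial.aeval_map_algebraMap ℚ θ b
      exact this.trans h
  let δ : ℕ := 1 + b.natDegree + ∑ j, ∑ i, ∑ k, (M j i k).natDegree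
  let H : ℝ := 1 + pl b + ∑ j, mN (M j)
  have hs : 0 ≤ ∑ j, mN (M j) := Finset.sum_nonneg (fun _ _ => mN_nonneg _)
  refine ⟨⟨ν, v, b, δ, H, by omega, by linarith [pl_nonneg b], hb0, by omega,
    by linarith, hv⟩, ?_⟩
  intro j
  refine ⟨M j, ?_, ?_, ?_⟩
  · intro i
    rw [hM j i, pow_one]
  · intro i k
    have h1 : (M j i k).natDegree ≤ ∑ j, ∑ i, ∑ k, (M j i k).natDegree := by
      calc (M j i k).natDegree ≤ ∑ k, (M j i k).natDegree :=
            Finset.single_le_sum (f := fun k => (M j i k).natDegree) (fun _ _ => Nat.zero_le _)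
              (Finset.mem_univ k)
        _ ≤ ∑ i, ∑ k, (M j i k).natDegree :=
            Finset.single_le_sum (f := fun i => ∑ k, (M j i k).natDegree)
              (fun _ _ => Nat.zero_le _) (Finset.mem_univ i)
        _ ≤ _ := Finset.single_le_sum (f := fun j => ∑ i, ∑ k, (M j i k).natDegree)
              (fun _ _ => Nat.zero_le _) (Finset.mem_univ j)
    show (M j i k).natDegree ≤ δ * 1
    omega
  · have h1 : mN (M j) ≤ ∑ j, mN (M j) :=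
      Finset.single_le_sum (f := fun j => mN (M j)) (fun _ _ => mN_nonneg _) (Finset.mem_univ j)
    show mN (M j) ≤ 1 * H ^ 1
    rw [one_mul, pow_one]
    linarith [pl_nonneg b]

end Pool.Agent.W252
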