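import Mathlib

/-!
# The slowly growing function `w(N) = ⌊√⌊log₂ N⌋⌋ + 1` and scales
-/

set_option autoImplicit false

namespace Pool.Agent.W252

open Filter

/-- `w(N)` is about the square root of the logarithm of `N`. -/
def ww (N : ℕ) : ℕ := Nat.sqrt (Nat.log 2 N) + 1

theorem ww_pos (N : ℕ) : 1 ≤ ww N := Nat.le_add_left _ _

theorem ww_mono : Monotone ww := fun _ _ h =>
  Nat.add_le_add_right (Nat.sqrt_le_sqrt (Nat.log_mono_right h)) 1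

theorem log_le_ww {N : ℕ} (hN : 1 ≤ N) : Real.log N ≤ (ww N : ℝ) ^ 2 := by
  have h1 : N < 2 ^ (Nat.log 2 N + 1) := Nat.lt_pow_succ_log_self (by norm_num) N
  have h2 : Nat.log 2 N < ww N * ww N := Nat.lt_succ_sqrt _
  have h3 : N ≤ 2 ^ (ww N * ww N) := h1.le.trans (Nat.pow_le_pow_right (by norm_num) h2)
  have h4 : (N : ℝ) ≤ 2 ^ (ww N * ww N) := by exact_mod_cast h3
  have hN0 : (0 : ℝ) < N := by exact_mod_cast hN
  calc Real.log N ≤ Real.log (2 ^ (ww N * ww N)) := Real.log_le_log hN0 h4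
    _ = ((ww N * ww N : ℕ) : ℝ) * Real.log 2 := Real.log_pow _ _
    _ ≤ ((ww N * ww N : ℕ) : ℝ) * 1 := by
        apply mul_le_mul_of_nonneg_left _ (Nat.cast_nonneg _)
        have := Real.log_two_lt_d9
        linarith
    _ = (ww N : ℝ) ^ 2 := by push_cast; ring

theorem ww_le_log {N : ℕ} (hN : 2 ≤ N) : (ww N : ℝ) ^ 2 ≤ 6 * Real.log N := by
  have h1 : 1 ≤ Nat.log 2 N := Nat.log_pos (by norm_num) hN
  have h2 : 1 ≤ Nat.sqrt (Nat.log 2 N) := Nat.sqrt_pos.2 h1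
  have h3 : Nat.sqrt (Nat.log 2 N) * Nat.sqrt (Nat.log 2 N) ≤ Nat.log 2 N := Nat.sqrt_le _
  have h4 : ww N ^ 2 ≤ 4 * Nat.log 2 N := by
    unfold ww
    nlinarith
  have h5 : 2 ^ Nat.log 2 N ≤ N := Nat.pow_log_le_self 2 (by omega)
  have h6 : ((2 : ℝ)) ^ Nat.log 2 N ≤ N := by exact_mod_cast h5
  have h7 : (Nat.log 2 N : ℝ) * Real.log 2 ≤ Real.log N := by
    rw [← Real.log_pow]
    exact Real.log_le_log (by positivity) h6
  have h8 : (0.69 : ℝ) ≤ Real.log 2 := by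
    have := Real.log_two_gt_d9
    linarith
  have h9 : ((ww N : ℝ)) ^ 2 ≤ 4 * (Nat.log 2 N : ℝ) := by exact_mod_cast h4
  have h10 : (0 : ℝ) ≤ (Nat.log 2 N : ℝ) := Nat.cast_nonneg _
  nlinarith

theorem ww_le {N : ℕ} (hN : 1 ≤ N) : ww N ≤ N := by
  unfold ww
  have h1 : Nat.sqrt (Nat.log 2 N) ≤ Nat.log 2 N := Nat.sqrt_le_self _
  have h2 : Nat.log 2 N < N := Nat.log_lt_self 2 (by omega)
  omega

theorem ww_succ (N : ℕ) : ww (N + 1) ≤ 2 * ww N := by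
  have h1 : Nat.log 2 (N + 1) ≤ Nat.log 2 N + 1 := by
    rcases Nat.eq_zero_or_pos N with h | h
    · subst h; simp
    · calc Nat.log 2 (N + 1) ≤ Nat.log 2 (N * 2) := Nat.log_mono_right (by omega)
        _ = Nat.log 2 N + 1 := Nat.log_mul_base (by norm_num) (by omega)
  have h2 : Nat.sqrt (Nat.log 2 N + 1) ≤ Nat.sqrt (Nat.log 2 N) + 1 := Nat.sqrt_succ_le_succ_sqrt _
  have h3 : Nat.sqrt (Nat.log 2 (N + 1)) ≤ Nat.sqrt (Nat.log 2 N + 1) := Nat.sqrt_le_sqrt h1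
  unfold ww
  omega

theorem tendsto_ww : Tendsto ww atTop atTop := by
  refine tendsto_atTop_atTop_of_monotone ww_mono (fun b => ⟨2 ^ (b * b), ?_⟩)
  unfold ww
  rw [Nat.log_pow (by norm_num), Nat.sqrt_eq]
  omega

/-- `0 ≤ h N ≤ exp (C g(N))` for all `N ≥ 1`, with some constant `C`. -/
def Sg (g : ℕ → ℝ) (h : ℕ → ℝ) : Prop :=
  ∃ C : ℝ, 0 ≤ C ∧ ∀ N : ℕ, 1 ≤ N → 0 ≤ h N ∧ h N ≤ Real.exp (C * g N)

/-- `0 ≤ f N ≤ C g(N)` for all `N ≥ 1`, with some constant `C`. -/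
def Pg (g : ℕ → ℝ) (f : ℕ → ℝ) : Prop :=
  ∃ C : ℝ, 0 ≤ C ∧ ∀ N : ℕ, 1 ≤ N → 0 ≤ f N ∧ f N ≤ C * g N

section
variable {g g' : ℕ → ℝ}

theorem Pg.const (hg : ∀ N, 1 ≤ N → 1 ≤ g N) (c : ℝ) (hc : 0 ≤ c) : Pg g (fun _ => c) :=
  ⟨c, hc, fun N hN => ⟨hc, by have := hg N hN; nlinarith⟩⟩

theorem Pg.self (hg : ∀ N, 1 ≤ N → 0 ≤ g N) : Pg g g :=
  ⟨1, zero_le_one, fun N hN => ⟨hg N hN, by simp⟩⟩

theorem Pg.weaken {f : ℕ → ℝ} (h : Pg g f) (hgg : ∀ N, 1 ≤ N → g N ≤ g' N) : Pg g' f := by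
  obtain ⟨C, hC, h⟩ := h
  exact ⟨C, hC, fun N hN => ⟨(h N hN).1, (h N hN).2.trans
    (mul_le_mul_of_nonneg_left (hgg N hN) hC)⟩⟩

theorem Pg.mono {f f' : ℕ → ℝ} (h : Pg g f) (h0 : ∀ N, 1 ≤ N → 0 ≤ f' N)
    (hg : ∀ N, 1 ≤ N → f' N ≤ f N) : Pg g f' := by
  obtain ⟨C, hC, h⟩ := h
  exact ⟨C, hC, fun N hN => ⟨h0 N hN, (hg N hN).trans (h N hN).2⟩⟩

theorem Pg.add {f f' : ℕ → ℝ} (hf : Pg g f) (hf' : Pg g f') : Pg g (fun N => f N + f' N) := by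
  obtain ⟨C, hC, hf⟩ := hf
  obtain ⟨C', hC', hf'⟩ := hf'
  refine ⟨C + C', by linarith, fun N hN => ⟨by linarith [(hf N hN).1, (hf' N hN).1], ?_⟩⟩
  rw [add_mul]
  linarith [(hf N hN).2, (hf' N hN).2]

theorem Pg.mul {f f' : ℕ → ℝ} (hf : Pg g f) (hf' : Pg g' f')
    (hg : ∀ N, 1 ≤ N → 0 ≤ g N) : Pg (fun N => g N * g' N) (fun N => f N * f' N) := by
  obtain ⟨C, hC, hf⟩ := hf
  obtain ⟨C', hC', hf'⟩ := hf'
  refine ⟨C * C', by positivity, fun N hN => ⟨mul_nonneg (hf N hN).1 (hf' N hN).1, ?_⟩⟩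
  calc f N * f' N ≤ (C * g N) * (C' * g' N) :=
        mul_le_mul (hf N hN).2 (hf' N hN).2 (hf' N hN).1 (mul_nonneg hC (hg N hN))
    _ = C * C' * (g N * g' N) := by ring

theorem Pg.const_mul {f : ℕ → ℝ} (c : ℝ) (hc : 0 ≤ c) (hf : Pg g f) : Pg g (fun N => c * f N) := by
  obtain ⟨C, hC, hf⟩ := hf
  refine ⟨c * C, by positivity, fun N hN => ⟨mul_nonneg hc (hf N hN).1, ?_⟩⟩
  rw [mul_assoc]
  exact mul_le_mul_of_nonneg_left (hf N hN).2 hc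

theorem Sg.weaken {h : ℕ → ℝ} (hh : Sg g h) (hgg : ∀ N, 1 ≤ N → g N ≤ g' N) : Sg g' h := by
  obtain ⟨C, hC, hh⟩ := hh
  exact ⟨C, hC, fun N hN => ⟨(hh N hN).1, (hh N hN).2.trans
    (Real.exp_le_exp.2 (mul_le_mul_of_nonneg_left (hgg N hN) hC))⟩⟩

theorem Sg.mono {f f' : ℕ → ℝ} (h : Sg g f) (h0 : ∀ N, 1 ≤ N → 0 ≤ f' N)
    (hg : ∀ N, 1 ≤ N → f' N ≤ f N) : Sg g f' := by
  obtain ⟨C, hC, h⟩ := h
  exact ⟨C, hC, fun N hN => ⟨h0 N hN, (hg N hN).trans (h N hN).2⟩⟩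

theorem Sg.mul {f f' : ℕ → ℝ} (hf : Sg g f) (hf' : Sg g f') : Sg g (fun N => f N * f' N) := by
  obtain ⟨C, hC, hf⟩ := hf
  obtain ⟨C', hC', hf'⟩ := hf'
  refine ⟨C + C', by linarith, fun N hN => ⟨mul_nonneg (hf N hN).1 (hf' N hN).1, ?_⟩⟩
  calc f N * f' N ≤ Real.exp (C * g N) * Real.exp (C' * g N) :=
        mul_le_mul (hf N hN).2 (hf' N hN).2 (hf' N hN).1 (Real.exp_nonneg _)
    _ = Real.exp ((C + C') * g N) := by rw [← Real.exp_add]; ring_nf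

theorem Sg.powc {f : ℕ → ℝ} (hf : Sg g f) (k : ℕ) : Sg g (fun N => f N ^ k) := by
  obtain ⟨C, hC, hf⟩ := hf
  refine ⟨k * C, by positivity, fun N hN => ⟨pow_nonneg (hf N hN).1 _, ?_⟩⟩
  calc f N ^ k ≤ (Real.exp (C * g N)) ^ k := pow_le_pow_left₀ (hf N hN).1 (hf N hN).2 _
    _ = Real.exp (k * C * g N) := by rw [← Real.exp_nat_mul]; ring_nf

theorem Sg.exp {f : ℕ → ℝ} (hf : Pg g f) : Sg g (fun N => Real.exp (f N)) := by
  obtain ⟨C, hC, hf⟩ := hf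
  exact ⟨C, hC, fun N hN => ⟨Real.exp_nonneg _, Real.exp_le_exp.2 (hf N hN).2⟩⟩

/-- A base `exp O(u)` to the power of an exponent `O(v)`, `u v ≤ g`. -/
theorem Sg.powvar {u v : ℕ → ℝ} {f : ℕ → ℝ} {k : ℕ → ℕ} (hf : Sg u f)
    (hk : Pg v (fun N => (k N : ℝ))) (hu : ∀ N, 1 ≤ N → 0 ≤ u N)
    (huv : ∀ N, 1 ≤ N → u N * v N ≤ g N) : Sg g (fun N => f N ^ k N) := by
  obtain ⟨C, hC, hf⟩ := hf
  obtain ⟨C', hC', hk⟩ := hk
  refine ⟨C * C', by positivity, fun N hN => ⟨pow_nonneg (hf N hN).1 _, ?_⟩⟩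
  calc f N ^ k N ≤ (Real.exp (C * u N)) ^ k N := pow_le_pow_left₀ (hf N hN).1 (hf N hN).2 _
    _ = Real.exp (k N * (C * u N)) := by rw [← Real.exp_nat_mul]
    _ ≤ Real.exp (C * C' * g N) := by
        apply Real.exp_le_exp.2
        have h1 := hu N hN
        calc (k N : ℝ) * (C * u N) ≤ (C' * v N) * (C * u N) := by
              apply mul_le_mul_of_nonneg_right (hk N hN).2
              positivity
          _ = C * C' * (u N * v N) := by ring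
          _ ≤ C * C' * g N := mul_le_mul_of_nonneg_left (huv N hN) (by positivity)

/-- Polynomially bounded functions are `exp O(w²)`. -/
theorem Sg.ofPoly {f : ℕ → ℝ} {a : ℕ} (hf : Pg (fun N => (N : ℝ) ^ a) f) :
    Sg (fun N => (ww N : ℝ) ^ 2) f := by
  obtain ⟨C, hC, hf⟩ := hf
  refine ⟨C + a, by positivity, fun N hN => ⟨(hf N hN).1, ?_⟩⟩
  have hN0 : (0 : ℝ) < N := by exact_mod_cast hN
  have hw : (1 : ℝ) ≤ (ww N : ℝ) ^ 2 := one_le_pow₀ (by exact_mod_cast ww_pos N)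
  have h2 : C ≤ Real.exp C := by linarith [Real.add_one_le_exp C]
  calc f N ≤ C * (N : ℝ) ^ a := (hf N hN).2
    _ ≤ Real.exp C * (N : ℝ) ^ a := by gcongr
    _ = Real.exp (C + a * Real.log N) := by
        rw [Real.exp_add, Real.exp_nat_mul, Real.exp_log hN0]
    _ ≤ Real.exp ((C + a) * (ww N : ℝ) ^ 2) := by
        apply Real.exp_le_exp.2
        have h3 := log_le_ww hN
        have h4 : (a : ℝ) * Real.log N ≤ a * (ww N : ℝ) ^ 2 :=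
          mul_le_mul_of_nonneg_left h3 (Nat.cast_nonneg _)
        nlinarith

end

end Pool.Agent.W252
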