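import Pool.Agent.W252.GelCore2
import Pool.Agent.W252.GelW

/-!
# The theorem of Brownawell and Waldschmidt, `2 × 2` case
-/

set_option autoImplicit false

namespace Pool.Agent.W252

open Polynomial Finset Filter

/-- Gel'fond's criterion with separate bounds for degree and height. -/
def Crit2 : Prop := ∀ (θ : ℂ) (δ τ : ℕ → ℝ) (a : ℝ)
    (_ : ∀ n, 1 ≤ δ n) (_ : ∀ n, δ n ≤ τ n) (_ : Monotone δ) (_ : Monotone τ)
    (_ : Tendsto τ atTop atTop)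
    (_ : ∀ n, δ (n + 1) ≤ a * δ n) (_ : ∀ n, τ (n + 1) ≤ a * τ n)
    (P : ℕ → Polynomial ℤ) (_ : ∀ n, ((P n).natDegree : ℝ) ≤ δ n)
    (_ : ∀ n i, |((P n).coeff i : ℝ)| ≤ Real.exp (τ n))
    (_ : ∀ n, aeval θ (P n) ≠ 0)
    (_ : ∀ C : ℝ, ∀ᶠ n in atTop, ‖aeval θ (P n)‖ ≤ Real.exp (-C * (δ n * τ n))), False

/-- Existence of representations. -/
def ERep2 : Prop := ∀ (θ : ℂ) (_ : Transcendental ℚ θ) {m m' : ℕ} (ξ : Fin m → ℂ)
    (_ : ∀ j, IsAlgebraic (IntermediateField.adjoin ℚ {θ}) (ξ j)) (ζ : Fin m' → ℂ)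
    (_ : ∀ j, IsAlgebraic ℚ (ζ j)),
    ∃ (ν : ℕ) (v : Fin (ν + 1) → ℂ) (b : Polynomial ℤ) (b₀ : ℤ)
      (M : Fin m → Matrix (Fin (ν + 1)) (Fin (ν + 1)) (Polynomial ℤ))
      (N : Fin m' → Matrix (Fin (ν + 1)) (Fin (ν + 1)) ℤ),
      b ≠ 0 ∧ b₀ ≠ 0 ∧
      (∀ u : Fin (ν + 1) → Polynomial ℤ, ∑ i, aeval θ (u i) * v i = 0 → u = 0) ∧
      (∀ j i, ∑ k, aeval θ (M j i k) * v k = aeval θ b * ξ j * v i) ∧
      (∀ j i, ∑ k, (N j i k : ℂ) * v k = (b₀ : ℂ) * ζ j * v i)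

/-- Representation data for algebraic numbers over `ℚ(θ)` and over `ℚ`. -/
theorem exists_RD2 (hrep : ERep2) {θ : ℂ} (hθ : Transcendental ℚ θ) {m m' : ℕ} (ξ : Fin m → ℂ)
    (hξ : ∀ j, IsAlgebraic (IntermediateField.adjoin ℚ {θ}) (ξ j)) (ζ : Fin m' → ℂ)
    (hζ : ∀ j, IsAlgebraic ℚ (ζ j)) :
    ∃ R : RD2 θ, (∀ j, R.Rep 1 0 1 (ξ j)) ∧ ∀ j, R.Rep 0 1 1 (ζ j) := by
  classical
  obtain ⟨ν, v, b, b₀, M, N, hb, hb₀, hv, hM, hN⟩ := hrep θ hθ ξ hξ ζ hζ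
  have hb0 : aeval θ b ≠ 0 := by
    intro h
    apply hθ
    refine ⟨b.map (Int.castRingHom ℚ), ?_, ?_⟩
    · intro h'
      exact hb ((Polynomial.map_eq_zero_iff (Int.cast_injective (α := ℚ))).1 h')
    · have : aeval θ (b.map (algebraMap ℤ ℚ)) = aeval θ b := Polynomial.aeval_map_algebraMap ℚ θ b
      exact this.trans h
  let N' : Fin m' → Matrix (Fin (ν + 1)) (Fin (ν + 1)) ℤ[X] := fun j => (N j).map (fun a => C a)
  let δ : ℕ := 1 + b.natDegree + ∑ j, ∑ i, ∑ k, (M j i k).natDegree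
  let H : ℝ := 1 + pl b + |(b₀ : ℝ)| + ∑ j, mN (M j) + ∑ j, mN (N' j)
  have hs : 0 ≤ ∑ j, mN (M j) := Finset.sum_nonneg (fun _ _ => mN_nonneg _)
  have hs' : 0 ≤ ∑ j, mN (N' j) := Finset.sum_nonneg (fun _ _ => mN_nonneg _)
  have hb₀' : 0 ≤ |(b₀ : ℝ)| := abs_nonneg _
  have hpl := pl_nonneg b
  refine ⟨⟨ν, v, b, b₀, δ, H, by omega, by linarith, hb0, hb₀, by omega,
    by linarith, by linarith, hv⟩, ?_, ?_⟩
  · intro j
    refine ⟨M j, ?_, ?_, ?_⟩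
    · intro i
      rw [hM j i, pow_one, pow_zero, mul_one]
    · intro i k
      have h1 : (M j i k).natDegree ≤ ∑ j, ∑ i, ∑ k, (M j i k).natDegree := by
        calc (M j i k).natDegree ≤ ∑ k, (M j i k).natDegree :=
              Finset.single_le_sum (f := fun k => (M j i k).natDegree) (fun _ _ => Nat.zero_le _)
                (Finset.mem_univ k)
          _ ≤ ∑ i, ∑ k, (M j i k).natDegree :=
              Finset.single_le_sum (f := fun i => ∑ k, (M j i k).natDegree)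
                (fun _ _ => Nat.zero_le _) (Finset.mem_univ i)
          _ ≤ _ := Finset.single_le_sum (f := fun j => ∑ i, ∑ k, (M j i k).natDegree)
                (fun _ _ => Nat.zero_le _) (Finset.mem_univ j)
      show (M j i k).natDegree ≤ δ * 1
      omega
    · have h1 : mN (M j) ≤ ∑ j, mN (M j) :=
        Finset.single_le_sum (f := fun j => mN (M j)) (fun _ _ => mN_nonneg _) (Finset.mem_univ j)
      show mN (M j) ≤ 1 * H ^ (1 + 0)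
      rw [one_mul, add_zero, pow_one]
      linarith
  · intro j
    refine ⟨N' j, ?_, ?_, ?_⟩
    · intro i
      rw [pow_zero, one_mul, pow_one]
      show ∑ k, aeval θ (N' j i k) * v k = (b₀ : ℂ) * ζ j * v i
      rw [← hN j i]
      apply Finset.sum_congr rfl
      intro k _
      simp [N']
    · intro i k
      simp [N']
    · have h1 : mN (N' j) ≤ ∑ j, mN (N' j) :=
        Finset.single_le_sum (f := fun j => mN (N' j)) (fun _ _ => mN_nonneg _) (Finset.mem_univ j)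
      show mN (N' j) ≤ 1 * H ^ (0 + 1)
      rw [one_mul, zero_add, pow_one]
      linarith

/-- Representation data for the numbers of the theorem. -/
theorem exists_RD2' (hrep : ERep2) {θ : ℂ} (hθ : Transcendental ℚ θ) (x y : Fin 2 → ℂ)
    (hx : ∀ i, IsAlgebraic (IntermediateField.adjoin ℚ {θ}) (x i))
    (hy : ∀ j, IsAlgebraic (IntermediateField.adjoin ℚ {θ}) (y j))
    (hxy0 : ∀ i, IsAlgebraic ℚ (Complex.exp (x i * y 0)))
    (hxy1 : ∀ i, IsAlgebraic (IntermediateField.adjoin ℚ {θ}) (Complex.exp (x i * y 1))) :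
    ∃ R : RD2 θ, (∀ i, R.Rep 1 0 1 (x i)) ∧ (∀ j, R.Rep 1 0 1 (y j)) ∧
      ∀ i j, R.Rep ((![0, 1] : Fin 2 → ℕ) j) ((![1, 0] : Fin 2 → ℕ) j) 1
        (Complex.exp (x i * y j)) := by
  classical
  obtain ⟨R, hR1, hR2⟩ := exists_RD2 hrep hθ
    (![x 0, x 1, y 0, y 1, Complex.exp (x 0 * y 1), Complex.exp (x 1 * y 1)]) (by
      intro j
      fin_cases j
      · exact hx 0
      · exact hx 1
      · exact hy 0
      · exact hy 1
      · exact hxy1 0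
      · exact hxy1 1)
    (fun i : Fin 2 => Complex.exp (x i * y 0)) hxy0
  refine ⟨R, fun i => ?_, fun j => ?_, fun i j => ?_⟩
  · fin_cases i
    · exact hR1 0
    · exact hR1 1
  · fin_cases j
    · exact hR1 2
    · exact hR1 3
  · fin_cases j
    · exact hR2 i
    · fin_cases i
      · exact hR1 4
      · exact hR1 5

theorem bw_of (hcrit : Crit2) (hrep : ERep2) {θ : ℂ} (hθ : Transcendental ℚ θ) (x y : Fin 2 → ℂ)
    (hlx : LinearIndependent ℚ x) (hly : LinearIndependent ℚ y)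
    (hx : ∀ i, IsAlgebraic (IntermediateField.adjoin ℚ {θ}) (x i))
    (hy : ∀ j, IsAlgebraic (IntermediateField.adjoin ℚ {θ}) (y j))
    (hxy0 : ∀ i, IsAlgebraic ℚ (Complex.exp (x i * y 0)))
    (hxy1 : ∀ i, IsAlgebraic (IntermediateField.adjoin ℚ {θ}) (Complex.exp (x i * y 1))) :
    False := by
  obtain ⟨R, hRx, hRy, hRxy⟩ := exists_RD2' hrep hθ x y hx hy hxy0 hxy1
  set X : ℝ := 1 + ∑ i, ‖x i‖ with hX
  set Y : ℝ := 1 + ∑ j, ‖y j‖ with hY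
  have hX1 : 1 ≤ X := by
    have : 0 ≤ ∑ i, ‖x i‖ := Finset.sum_nonneg (fun _ _ => norm_nonneg _)
    linarith
  have hY1 : 1 ≤ Y := by
    have : 0 ≤ ∑ j, ‖y j‖ := Finset.sum_nonneg (fun _ _ => norm_nonneg _)
    linarith
  set Θ : ℝ := 1 + ‖θ‖ with hΘ
  have hΘ1 : 1 ≤ Θ := by linarith [norm_nonneg θ]
  obtain ⟨C1, hC1⟩ := exists_nat_ge (12 * ((R.ν : ℝ) + 1) + 9 * (Y * X) + 1)
  have hν0 : (0 : ℝ) ≤ R.ν := Nat.cast_nonneg _
  have hC1' : (1 : ℝ) ≤ C1 := by nlinarith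
  have hC1n : 1 ≤ C1 := by exact_mod_cast hC1'
  have hH := R.hH
  -- parameters
  let T0 : ℕ → ℕ := fun N => N ^ 4 * ww N - 1
  let L0 : ℕ → ℕ := fun N => 4 * (R.ν + 1) * (N ^ 4 * ww N) - 1
  let L : ℕ → Fin 2 → ℕ := fun N => ![N ^ 2 * ww N ^ 2, N ^ 2]
  let Lm : ℕ → ℕ := fun N => N ^ 2 * ww N ^ 2
  let S : ℕ → ℕ := fun N => N ^ 2 * ww N
  let S1 : ℕ → ℕ := fun N => C1 * (N ^ 2 * ww N)
  let D : ℕ → ℕ := fun N => L0 N + T0 N + 2 * S1 N * ∑ j, L N j * (![0, 1] : Fin 2 → ℕ) j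
  let E : ℕ → ℕ := fun N => 2 * S1 N * ∑ j, L N j * (![1, 0] : Fin 2 → ℕ) j
  let K : ℕ → ℝ := fun N => (R.ν + 1 : ℝ) ^ (2 * 2 + 3) * (2 * S1 N : ℕ) ^ L0 N *
      ((L0 N + ∑ j, L N j : ℕ) : ℝ) ^ T0 N
  let B : ℕ → ℝ := fun N => (((L0 N + 1) * ∏ j, L N j : ℕ) : ℝ) * (R.δ * D N : ℕ) *
    (K N * R.H ^ (D N + E N))
  let r' : ℕ → ℝ := fun N => 10 * X * S1 N * N
  have hwpos : ∀ N, 1 ≤ ww N := ww_pos
  have hT01 : ∀ N, 1 ≤ N → T0 N + 1 = N ^ 4 * ww N := by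
    intro N hN
    have : 1 ≤ N ^ 4 * ww N := Nat.one_le_iff_ne_zero.2
      (Nat.mul_ne_zero (by positivity) (by have := hwpos N; omega))
    show N ^ 4 * ww N - 1 + 1 = N ^ 4 * ww N
    omega
  have hL01 : ∀ N, 1 ≤ N → L0 N + 1 = 4 * (R.ν + 1) * (N ^ 4 * ww N) := by
    intro N hN
    have h2 : N ^ 4 * ww N ≠ 0 := Nat.mul_ne_zero (by positivity) (by have := hwpos N; omega)
    have : 1 ≤ 4 * (R.ν + 1) * (N ^ 4 * ww N) := Nat.one_le_iff_ne_zero.2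
      (Nat.mul_ne_zero (by positivity) h2)
    show 4 * (R.ν + 1) * (N ^ 4 * ww N) - 1 + 1 = _
    omega
  have hsum1 : ∀ N, ∑ j, L N j * (![0, 1] : Fin 2 → ℕ) j = N ^ 2 := by
    intro N; simp [L]
  have hsum2 : ∀ N, ∑ j, L N j * (![1, 0] : Fin 2 → ℕ) j = N ^ 2 * ww N ^ 2 := by
    intro N; simp [L]
  have hprod : ∀ N, ∏ j, L N j = N ^ 4 * ww N ^ 2 := by
    intro N; simp [L, Fin.prod_univ_two]; ring
  have hsumL : ∀ N, ∑ j, L N j = N ^ 2 * ww N ^ 2 + N ^ 2 := by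
    intro N; simp [L, Fin.sum_univ_two]
  have key : ∀ N : ℕ, 1 ≤ N → ∃ P : ℤ[X], aeval θ P ≠ 0 ∧
      P.natDegree ≤ (R.ν + 1) * (2 * (R.δ * D N)) ∧
      (∀ i, |(P.coeff i : ℝ)| ≤ (B N ^ 2) ^ (R.ν + 1)) ∧
      ‖aeval θ P‖ * ‖R.v 0‖ * (N : ℝ) ^ ((T0 N + 1) * S N ^ 2) ≤ ‖aeval θ R.b‖ ^ D N *
        |(R.b₀ : ℝ)| ^ E N *
        ((T0 N).factorial *
        ((((L0 N + 1) * ∏ j, L N j : ℕ) : ℝ) * (B N * (R.δ * D N : ℕ) * Θ ^ (R.δ * D N)) *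
          (r' N ^ L0 N * Real.exp (Y * Lm N * r' N)))) *
        (∑ i, ‖R.v i‖) * (B N ^ 2 * Θ ^ (2 * (R.δ * D N))) ^ R.ν := by
    intro N hN
    have hw := hwpos N
    have hN1 : (1 : ℝ) ≤ N := by exact_mod_cast hN
    have hw1 : (1 : ℝ) ≤ ww N := by exact_mod_cast hw
    have hS1 : 1 ≤ S N := Nat.one_le_iff_ne_zero.2 (Nat.mul_ne_zero (by positivity) (by omega))
    have hSS : S N ≤ S1 N := Nat.le_mul_of_pos_left _ (by omega)
    have hN2 : 1 ≤ N ^ 2 := Nat.one_le_pow _ _ hN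
    have hw2 : 1 ≤ ww N ^ 2 := Nat.one_le_pow _ _ hw
    have hL1 : ∀ j, 1 ≤ L N j := by
      intro j
      fin_cases j
      · show 1 ≤ N ^ 2 * ww N ^ 2
        exact Nat.one_le_iff_ne_zero.2 (Nat.mul_ne_zero (by omega) (by omega))
      · exact hN2
    have hD1 : 1 ≤ D N := by
      show 1 ≤ L0 N + T0 N + 2 * S1 N * ∑ j, L N j * (![0, 1] : Fin 2 → ℕ) j
      rw [hsum1]
      have : 1 ≤ 2 * S1 N * N ^ 2 := Nat.one_le_iff_ne_zero.2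
        (Nat.mul_ne_zero (by omega) (by omega))
      omega
    refine core2 hθ R (by norm_num) (by norm_num) x y hlx hly _ _ hRxy (T0 N) (L0 N) (Lm N) (S N)
      (S1 N) (L N) ?_ (Or.inr hRx) (Or.inr hRy) hS1 hSS hL1 ?_ X Y (by linarith) (by linarith)
      hX1 hY1 ?_ Θ hΘ1 (by linarith) (N : ℝ) (r' N) hN1 ?_ (D N) (E N) hD1 rfl rfl (K N) (B N)
      rfl rfl
    · intro j
      fin_cases j
      · exact le_rfl
      · show N ^ 2 ≤ N ^ 2 * ww N ^ 2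
        exact Nat.le_mul_of_pos_right _ (by omega)
    · rw [hT01 N hN, hL01 N hN, hprod]
      show 4 * (N ^ 4 * ww N * (N ^ 2 * ww N) ^ 2 * (R.ν + 1)) ≤
        4 * (R.ν + 1) * (N ^ 4 * ww N) * (N ^ 4 * ww N ^ 2)
      apply le_of_eq
      ring
    · rw [hT01 N hN, hL01 N hN, hprod]
      show 3 * ((4 * (R.ν + 1) * (N ^ 4 * ww N) * (N ^ 4 * ww N ^ 2) : ℕ) : ℝ) +
        9 * (Y * ((N ^ 2 * ww N ^ 2 : ℕ) : ℝ)) * (X * ((C1 * (N ^ 2 * ww N) : ℕ) : ℝ)) <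
        ((N ^ 4 * ww N * (C1 * (N ^ 2 * ww N)) ^ 2 : ℕ) : ℝ)
      push_cast
      set w : ℝ := (ww N : ℝ) with hw'
      have h2 : 12 * ((R.ν : ℝ) + 1) + 9 * (Y * X) * C1 < (C1 : ℝ) ^ 2 := by
        have h1 : (C1 : ℝ) * (12 * ((R.ν : ℝ) + 1) + 9 * (Y * X) + 1) ≤ C1 * C1 :=
          mul_le_mul_of_nonneg_left hC1 (by positivity)
        nlinarith
      have hNw : (N : ℝ) ^ 4 * w ^ 3 ≤ (N : ℝ) ^ 8 * w ^ 3 := by
        apply mul_le_mul_of_nonneg_right _ (by positivity)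
        exact pow_le_pow_right₀ hN1 (by norm_num)
      have hpos : (0 : ℝ) < (N : ℝ) ^ 8 * w ^ 3 := by positivity
      calc 3 * (4 * ((R.ν : ℝ) + 1) * ((N : ℝ) ^ 4 * w) * ((N : ℝ) ^ 4 * w ^ 2)) +
            9 * (Y * ((N : ℝ) ^ 2 * w ^ 2)) * (X * (C1 * ((N : ℝ) ^ 2 * w)))
          = (12 * ((R.ν : ℝ) + 1)) * ((N : ℝ) ^ 8 * w ^ 3) +
              (9 * (Y * X) * C1) * ((N : ℝ) ^ 4 * w ^ 3) := by ring
        _ ≤ (12 * ((R.ν : ℝ) + 1)) * ((N : ℝ) ^ 8 * w ^ 3) +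
              (9 * (Y * X) * C1) * ((N : ℝ) ^ 8 * w ^ 3) := by gcongr
        _ = (12 * ((R.ν : ℝ) + 1) + 9 * (Y * X) * C1) * ((N : ℝ) ^ 8 * w ^ 3) := by ring
        _ < (C1 : ℝ) ^ 2 * ((N : ℝ) ^ 8 * w ^ 3) := mul_lt_mul_of_pos_right h2 hpos
        _ = (N : ℝ) ^ 4 * w * (C1 * ((N : ℝ) ^ 2 * w)) ^ 2 := by ring
    · show (X * (S1 N : ℝ) + 1 + X * (S N : ℝ)) * N + X * (S N : ℝ) ≤ 10 * X * (S1 N : ℝ) * N
      have h1 : (S N : ℝ) ≤ S1 N := by exact_mod_cast hSS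
      have h2 : (1 : ℝ) ≤ S1 N := by exact_mod_cast hS1.trans hSS
      have h3 : X * (S N : ℝ) ≤ X * S1 N := mul_le_mul_of_nonneg_left h1 (by linarith)
      have h4 : 1 ≤ X * (S1 N : ℝ) := by nlinarith
      have h5 : (X * (S1 N : ℝ) + 1 + X * (S N : ℝ)) * N ≤ (3 * (X * (S1 N : ℝ))) * N := by
        apply mul_le_mul_of_nonneg_right _ (by positivity)
        linarith
      have h6 : X * (S N : ℝ) ≤ X * (S1 N : ℝ) * N := by
        calc X * (S N : ℝ) ≤ X * S1 N := h3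
          _ ≤ X * (S1 N : ℝ) * N := le_mul_of_one_le_right (by positivity) hN1
      nlinarith
  choose! P hP1 hP2 hP3 hP4 using key
  -- scales
  let gδ : ℕ → ℝ := fun N => (N : ℝ) ^ 4 * ww N
  let gτ : ℕ → ℝ := fun N => (N : ℝ) ^ 4 * (ww N : ℝ) ^ 3
  let gA : ℕ → ℝ := fun N => (N : ℝ) ^ 5 * (ww N : ℝ) ^ 3
  have hN1 : ∀ N : ℕ, 1 ≤ N → (1 : ℝ) ≤ N := fun N hN => by exact_mod_cast hN
  have hw1 : ∀ N : ℕ, (1 : ℝ) ≤ ww N := fun N => by exact_mod_cast hwpos N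
  have hwN : ∀ N : ℕ, 1 ≤ N → (ww N : ℝ) ≤ N := fun N hN => by exact_mod_cast ww_le hN
  have gδ1 : ∀ N, 1 ≤ N → 1 ≤ gδ N := fun N hN => by
    have h1 := one_le_pow₀ (hN1 N hN) (n := 4)
    have h2 := hw1 N
    show 1 ≤ (N : ℝ) ^ 4 * ww N
    nlinarith
  have hδτ : ∀ N, 1 ≤ N → gδ N ≤ gτ N := fun N hN => by
    have h2 := hw1 N
    show (N : ℝ) ^ 4 * ww N ≤ (N : ℝ) ^ 4 * (ww N : ℝ) ^ 3
    apply mul_le_mul_of_nonneg_left _ (by positivity)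
    exact le_self_pow₀ h2 (by norm_num)
  have hτA : ∀ N, 1 ≤ N → gτ N ≤ gA N := fun N hN => by
    show (N : ℝ) ^ 4 * (ww N : ℝ) ^ 3 ≤ (N : ℝ) ^ 5 * (ww N : ℝ) ^ 3
    apply mul_le_mul_of_nonneg_right _ (by positivity)
    exact pow_le_pow_right₀ (hN1 N hN) (by norm_num)
  -- polynomial bounds on the scale gδ
  have pT0 : Pg gδ (fun N => (T0 N : ℝ)) := by
    refine (Pg.self (fun N hN => (zero_le_one.trans (gδ1 N hN)))).mono
      (fun N _ => Nat.cast_nonneg _) (fun N _ => ?_)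
    have : T0 N ≤ N ^ 4 * ww N := Nat.sub_le _ _
    show (T0 N : ℝ) ≤ (N : ℝ) ^ 4 * ww N
    exact_mod_cast this
  have pL0 : Pg gδ (fun N => (L0 N : ℝ)) := by
    refine ((Pg.self (fun N hN => (zero_le_one.trans (gδ1 N hN)))).const_mul
      (4 * ((R.ν : ℝ) + 1)) (by positivity)).mono
      (fun N _ => Nat.cast_nonneg _) (fun N _ => ?_)
    have : L0 N ≤ 4 * (R.ν + 1) * (N ^ 4 * ww N) := Nat.sub_le _ _
    show (L0 N : ℝ) ≤ 4 * ((R.ν : ℝ) + 1) * ((N : ℝ) ^ 4 * ww N)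
    exact_mod_cast this
  have pD : Pg gδ (fun N => (D N : ℝ)) := by
    have h1 := (pL0.add pT0).add ((Pg.self (fun N hN => (zero_le_one.trans (gδ1 N hN)))).const_mul
      (2 * (C1 : ℝ)) (by positivity))
    refine h1.mono (fun N _ => Nat.cast_nonneg _) (fun N _ => ?_)
    show ((L0 N + T0 N + 2 * S1 N * ∑ j, L N j * (![0, 1] : Fin 2 → ℕ) j : ℕ) : ℝ) ≤ _
    rw [hsum1]
    show ((L0 N + T0 N + 2 * (C1 * (N ^ 2 * ww N)) * N ^ 2 : ℕ) : ℝ) ≤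
      L0 N + T0 N + 2 * (C1 : ℝ) * ((N : ℝ) ^ 4 * ww N)
    push_cast
    apply le_of_eq
    ring
  have pδD : Pg gδ (fun N => ((R.δ * D N : ℕ) : ℝ)) := by
    refine (pD.const_mul (R.δ : ℝ) (Nat.cast_nonneg _)).mono (fun N _ => Nat.cast_nonneg _)
      (fun N _ => ?_)
    push_cast
    exact le_rfl
  have p2δD : Pg gδ (fun N => ((2 * (R.δ * D N) : ℕ) : ℝ)) := by
    refine (pδD.const_mul (2 : ℝ) (by norm_num)).mono (fun N _ => Nat.cast_nonneg _)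
      (fun N _ => ?_)
    push_cast
    exact le_rfl
  have pE : Pg gτ (fun N => (E N : ℝ)) := by
    refine ((Pg.self (fun N hN => (zero_le_one.trans ((gδ1 N hN).trans (hδτ N hN))))).const_mul
      (2 * (C1 : ℝ)) (by positivity)).mono (fun N _ => Nat.cast_nonneg _) (fun N _ => ?_)
    show ((2 * S1 N * ∑ j, L N j * (![1, 0] : Fin 2 → ℕ) j : ℕ) : ℝ) ≤ _
    rw [hsum2]
    show ((2 * (C1 * (N ^ 2 * ww N)) * (N ^ 2 * ww N ^ 2) : ℕ) : ℝ) ≤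
      2 * (C1 : ℝ) * ((N : ℝ) ^ 4 * (ww N : ℝ) ^ 3)
    push_cast
    apply le_of_eq
    ring
  have pDE : Pg gτ (fun N => ((D N + E N : ℕ) : ℝ)) := by
    refine ((pD.weaken hδτ).add pE).mono (fun N _ => Nat.cast_nonneg _) (fun N _ => ?_)
    push_cast
    exact le_rfl
  -- polynomially bounded quantities
  have hpw : ∀ N : ℕ, 1 ≤ N → ∀ a b : ℕ, (N : ℝ) ^ a * (ww N : ℝ) ^ b ≤ (N : ℝ) ^ (a + b) := by
    intro N hN a b
    rw [pow_add]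
    apply mul_le_mul_of_nonneg_left _ (by positivity)
    exact pow_le_pow_left₀ (by positivity) (hwN N hN) b
  have qgδ : Pg (fun N => (N : ℝ) ^ 5) gδ := by
    refine (Pg.self (g := fun N : ℕ => (N : ℝ) ^ 5) (fun N _ => by positivity)).mono
      (fun N _ => by show 0 ≤ (N : ℝ) ^ 4 * ww N; positivity) (fun N hN => ?_)
    have := hpw N hN 4 1
    rw [pow_one] at this
    exact this
  have qtrans : ∀ f : ℕ → ℝ, Pg gδ f → Pg (fun N => (N : ℝ) ^ 5) f := by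
    intro f hf
    obtain ⟨C, hC, hf⟩ := hf
    refine ⟨C, hC, fun N hN => ⟨(hf N hN).1, (hf N hN).2.trans ?_⟩⟩
    apply mul_le_mul_of_nonneg_left _ hC
    have := hpw N hN 4 1
    rw [pow_one] at this
    exact this
  have qU : Pg (fun N => (N : ℝ) ^ 11) (fun N => (((L0 N + 1) * ∏ j, L N j : ℕ) : ℝ)) := by
    refine ((Pg.self (g := fun N : ℕ => (N : ℝ) ^ 11) (fun N _ => by positivity)).const_mul
      (4 * ((R.ν : ℝ) + 1)) (by positivity)).mono (fun N _ => Nat.cast_nonneg _) (fun N hN => ?_)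
    rw [hL01 N hN, hprod]
    push_cast
    have := hpw N hN 8 3
    calc 4 * ((R.ν : ℝ) + 1) * ((N : ℝ) ^ 4 * ww N) * ((N : ℝ) ^ 4 * (ww N : ℝ) ^ 2)
        = 4 * ((R.ν : ℝ) + 1) * ((N : ℝ) ^ 8 * (ww N : ℝ) ^ 3) := by ring
      _ ≤ 4 * ((R.ν : ℝ) + 1) * (N : ℝ) ^ 11 := mul_le_mul_of_nonneg_left this (by positivity)
  have qS1 : Pg (fun N => (N : ℝ) ^ 3) (fun N => (S1 N : ℝ)) := by
    refine ((Pg.self (g := fun N : ℕ => (N : ℝ) ^ 3) (fun N _ => by positivity)).const_mul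
      (C1 : ℝ) (by positivity)).mono (fun N _ => Nat.cast_nonneg _) (fun N hN => ?_)
    show ((C1 * (N ^ 2 * ww N) : ℕ) : ℝ) ≤ _
    push_cast
    have := hpw N hN 2 1
    rw [pow_one] at this
    exact mul_le_mul_of_nonneg_left this (by positivity)
  have q2S1 : Pg (fun N => (N : ℝ) ^ 3) (fun N => ((2 * S1 N : ℕ) : ℝ)) := by
    refine (qS1.const_mul (2 : ℝ) (by norm_num)).mono (fun N _ => Nat.cast_nonneg _)
      (fun N _ => ?_)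
    push_cast
    exact le_rfl
  have qr' : Pg (fun N => (N : ℝ) ^ 4) r' := by
    obtain ⟨C, hC, h⟩ := qS1.const_mul (10 * X) (by positivity)
    refine ⟨C, hC, fun N hN => ?_⟩
    obtain ⟨h1, h2⟩ := h N hN
    constructor
    · exact mul_nonneg h1 (by positivity)
    · calc r' N = 10 * X * S1 N * N := rfl
        _ ≤ (C * (N : ℝ) ^ 3) * N := mul_le_mul_of_nonneg_right h2 (by positivity)
        _ = C * (N : ℝ) ^ 4 := by ring
  have qLl : Pg (fun N => (N : ℝ) ^ 5) (fun N => ((L0 N + ∑ j, L N j : ℕ) : ℝ)) := by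
    have h1 := (qtrans _ pL0).add ((Pg.self (g := fun N : ℕ => (N : ℝ) ^ 5)
      (fun N _ => by positivity)).const_mul (2 : ℝ) (by norm_num))
    refine h1.mono (fun N _ => Nat.cast_nonneg _) (fun N hN => ?_)
    rw [hsumL]
    push_cast
    have h2 := hpw N hN 2 2
    have h3 : (N : ℝ) ^ (2 + 2) ≤ (N : ℝ) ^ 5 := pow_le_pow_right₀ (hN1 N hN) (by norm_num)
    have h4 : (N : ℝ) ^ 2 ≤ (N : ℝ) ^ 5 := pow_le_pow_right₀ (hN1 N hN) (by norm_num)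
    linarith
  -- scale arithmetic
  have huv : ∀ N, 1 ≤ N → (ww N : ℝ) ^ 2 * gδ N ≤ gτ N := fun N _ => by
    show (ww N : ℝ) ^ 2 * ((N : ℝ) ^ 4 * ww N) ≤ (N : ℝ) ^ 4 * (ww N : ℝ) ^ 3
    apply le_of_eq; ring
  have hww0 : ∀ N : ℕ, 1 ≤ N → (0 : ℝ) ≤ (ww N : ℝ) ^ 2 := fun N _ => by positivity
  have hwτ : ∀ N, 1 ≤ N → (ww N : ℝ) ^ 2 ≤ gτ N := fun N hN => by
    have h1 := huv N hN
    have h2 := gδ1 N hN
    have h3 : (0 : ℝ) ≤ (ww N : ℝ) ^ 2 := by positivity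
    nlinarith
  have sconst : ∀ c : ℝ, 0 ≤ c → Sg (fun _ => 1) (fun _ : ℕ => c) := fun c hc =>
    ⟨c, hc, fun N _ => ⟨hc, by
      have := Real.add_one_le_exp c
      rw [mul_one]; linarith⟩⟩
  have sconstτ : ∀ c : ℝ, 0 ≤ c → Sg gτ (fun _ : ℕ => c) := fun c hc =>
    (sconst c hc).weaken (fun N hN => (gδ1 N hN).trans (hδτ N hN))
  have sconstpow : ∀ (c : ℝ) (k : ℕ → ℕ), 0 ≤ c → Pg gτ (fun N => (k N : ℝ)) →
      Sg gτ (fun N => c ^ k N) := fun c k hc hk =>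
    Sg.powvar (sconst c hc) hk (fun _ _ => zero_le_one) (fun N _ => by rw [one_mul])
  -- the factors
  have sK : Sg gτ K :=
    ((sconstτ _ (by positivity)).mul
      (Sg.powvar (Sg.ofPoly q2S1) pL0 hww0 huv)).mul
        (Sg.powvar (Sg.ofPoly qLl) pT0 hww0 huv)
  have sHD : Sg gτ (fun N => R.H ^ (D N + E N)) := sconstpow _ _ (by linarith) pDE
  have sU : Sg gτ (fun N => (((L0 N + 1) * ∏ j, L N j : ℕ) : ℝ)) :=
    (Sg.ofPoly qU).weaken hwτ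
  have sδD : Sg gτ (fun N => ((R.δ * D N : ℕ) : ℝ)) := (Sg.ofPoly (qtrans _ pδD)).weaken hwτ
  have sB : Sg gτ B := (sU.mul sδD).mul (sK.mul sHD)
  have sΘ : Sg gτ (fun N => Θ ^ (R.δ * D N)) := sconstpow _ _ (by linarith) (pδD.weaken hδτ)
  have sΘ2 : Sg gτ (fun N => Θ ^ (2 * (R.δ * D N))) :=
    sconstpow _ _ (by linarith) (p2δD.weaken hδτ)
  have sb : Sg gτ (fun N => ‖aeval θ R.b‖ ^ D N) :=
    sconstpow _ _ (norm_nonneg _) (pD.weaken hδτ)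
  have sb0 : Sg gτ (fun N => |(R.b₀ : ℝ)| ^ E N) := sconstpow _ _ (abs_nonneg _) pE
  have sfac : Sg gτ (fun N => ((T0 N).factorial : ℝ)) := by
    refine (Sg.powvar (Sg.ofPoly (qtrans _ pT0)) pT0 hww0 huv).mono (fun N _ => by positivity)
      (fun N _ => ?_)
    exact_mod_cast Nat.factorial_le_pow (T0 N)
  have sr : Sg gτ (fun N => r' N ^ L0 N) := Sg.powvar (Sg.ofPoly qr') pL0 hww0 huv
  have sexp : Sg gA (fun N => Real.exp (Y * Lm N * r' N)) := by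
    apply Sg.exp
    refine ((Pg.self (g := gA) (fun N _ => by
      show 0 ≤ (N : ℝ) ^ 5 * (ww N : ℝ) ^ 3; positivity)).const_mul
      (Y * (10 * X * C1)) (by positivity)).mono (fun N _ => ?_) (fun N _ => ?_)
    · show 0 ≤ Y * Lm N * (10 * X * S1 N * N)
      positivity
    · show Y * ((N ^ 2 * ww N ^ 2 : ℕ) : ℝ) * (10 * X * ((C1 * (N ^ 2 * ww N) : ℕ) : ℝ) * N) ≤
        Y * (10 * X * C1) * ((N : ℝ) ^ 5 * (ww N : ℝ) ^ 3)
      push_cast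
      apply le_of_eq
      ring
  have sRHS : Sg gA (fun N => ‖aeval θ R.b‖ ^ D N * |(R.b₀ : ℝ)| ^ E N *
        ((T0 N).factorial *
        ((((L0 N + 1) * ∏ j, L N j : ℕ) : ℝ) * (B N * (R.δ * D N : ℕ) * Θ ^ (R.δ * D N)) *
          (r' N ^ L0 N * Real.exp (Y * Lm N * r' N)))) *
        (∑ i, ‖R.v i‖) * (B N ^ 2 * Θ ^ (2 * (R.δ * D N))) ^ R.ν) := by
    have w := fun {f : ℕ → ℝ} (h : Sg gτ f) => h.weaken hτA
    refine (((w (sb.mul sb0)).mul ((w sfac).mul ?_)).mul (w (sconstτ _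
      (Finset.sum_nonneg (fun _ _ => norm_nonneg _))))).mul (w (((sB.powc 2).mul sΘ2).powc R.ν))
    refine ((w sU).mul (w ((sB.mul sδD).mul sΘ))).mul ?_
    exact (w sr).mul sexp
  have sco : Sg gτ (fun N => (B N ^ 2) ^ (R.ν + 1)) := (sB.powc 2).powc (R.ν + 1)
  obtain ⟨C2, hC2, hR2⟩ := sRHS
  obtain ⟨C3, hC3, hR3⟩ := sco
  obtain ⟨C4, hC4, hR4⟩ := pδD
  have hv0 : 0 < ‖R.v 0‖ := norm_pos_iff.2 R.v0_ne
  set C5 : ℝ := |Real.log ‖R.v 0‖| with hC5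
  have hC50 : 0 ≤ C5 := abs_nonneg _
  set C : ℝ := 1 + C3 + 2 * (R.ν + 1) * C4 with hC
  have hC20 : 0 ≤ 2 * ((R.ν : ℝ) + 1) * C4 := by positivity
  have hC1p : 1 ≤ C := by linarith
  have hval : ∀ N : ℕ, 2 ≤ N → ‖aeval θ (P N)‖ ≤
      Real.exp (C2 * gA N + C5 - (N : ℝ) ^ 8 * (ww N : ℝ) ^ 5 / 6) := by
    intro N hN2
    have hN : 1 ≤ N := by omega
    have hN0 : (0 : ℝ) < N := by exact_mod_cast hN
    have h1 := (hP4 N hN).trans (hR2 N hN).2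
    set n := (T0 N + 1) * S N ^ 2 with hn
    have hn' : (n : ℝ) = (N : ℝ) ^ 8 * (ww N : ℝ) ^ 3 := by
      rw [hn, hT01 N hN]
      show ((N ^ 4 * ww N * (N ^ 2 * ww N) ^ 2 : ℕ) : ℝ) = _
      push_cast
      ring
    have h3n : Real.exp ((N : ℝ) ^ 8 * (ww N : ℝ) ^ 5 / 6) ≤ (N : ℝ) ^ n := by
      have h30 : (N : ℝ) ^ n = Real.exp (n * Real.log N) := by
        rw [Real.exp_nat_mul, Real.exp_log hN0]
      rw [h30]
      apply Real.exp_le_exp.2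
      rw [hn']
      have h4 := ww_le_log hN2
      have h5 : (0 : ℝ) ≤ (N : ℝ) ^ 8 * (ww N : ℝ) ^ 3 := by positivity
      nlinarith
    have h6 : Real.exp (-C5) ≤ ‖R.v 0‖ := by
      calc Real.exp (-C5) ≤ Real.exp (Real.log ‖R.v 0‖) :=
            Real.exp_le_exp.2 (neg_abs_le _)
        _ = ‖R.v 0‖ := Real.exp_log hv0
    have h7 : ‖aeval θ (P N)‖ * Real.exp (-C5 + (N : ℝ) ^ 8 * (ww N : ℝ) ^ 5 / 6) ≤
        Real.exp (C2 * gA N) := by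
      calc ‖aeval θ (P N)‖ * Real.exp (-C5 + (N : ℝ) ^ 8 * (ww N : ℝ) ^ 5 / 6)
          = ‖aeval θ (P N)‖ * Real.exp (-C5) * Real.exp ((N : ℝ) ^ 8 * (ww N : ℝ) ^ 5 / 6) := by
            rw [Real.exp_add]; ring
        _ ≤ ‖aeval θ (P N)‖ * ‖R.v 0‖ * (N : ℝ) ^ n := by gcongr
        _ ≤ _ := h1
    calc ‖aeval θ (P N)‖
        = (‖aeval θ (P N)‖ * Real.exp (-C5 + (N : ℝ) ^ 8 * (ww N : ℝ) ^ 5 / 6)) *
            Real.exp (-(-C5 + (N : ℝ) ^ 8 * (ww N : ℝ) ^ 5 / 6)) := by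
          rw [mul_assoc, ← Real.exp_add]
          simp
      _ ≤ Real.exp (C2 * gA N) * Real.exp (-(-C5 + (N : ℝ) ^ 8 * (ww N : ℝ) ^ 5 / 6)) :=
          mul_le_mul_of_nonneg_right h7 (Real.exp_nonneg _)
      _ = Real.exp (C2 * gA N + C5 - (N : ℝ) ^ 8 * (ww N : ℝ) ^ 5 / 6) := by
          rw [← Real.exp_add]; ring_nf
  -- the criterion
  have hmono1 : ∀ a b : ℕ, a ≤ b → ((a + 2 : ℕ) : ℝ) ^ 4 ≤ ((b + 2 : ℕ) : ℝ) ^ 4 := by
    intro a b hab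
    apply pow_le_pow_left₀ (by positivity)
    exact_mod_cast (by omega : a + 2 ≤ b + 2)
  have hmono2 : ∀ a b : ℕ, a ≤ b → (ww (a + 2) : ℝ) ≤ ww (b + 2) := by
    intro a b hab
    exact_mod_cast ww_mono (by omega : a + 2 ≤ b + 2)
  have hsucc1 : ∀ n : ℕ, ((n + 1 + 2 : ℕ) : ℝ) ≤ 2 * ((n + 2 : ℕ) : ℝ) := by
    intro n
    push_cast
    have : (0 : ℝ) ≤ n := Nat.cast_nonneg _
    linarith
  have hsucc2 : ∀ n : ℕ, (ww (n + 1 + 2) : ℝ) ≤ 2 * ww (n + 2) := by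
    intro n
    have := ww_succ (n + 2)
    exact_mod_cast this
  refine hcrit θ (fun n => C * gδ (n + 2)) (fun n => C * gτ (n + 2)) 128 ?_ ?_ ?_ ?_ ?_ ?_ ?_
    (fun n => P (n + 2)) ?_ ?_ (fun n => hP1 _ (by omega)) ?_
  · intro n
    have := gδ1 (n + 2) (by omega)
    nlinarith
  · intro n
    exact mul_le_mul_of_nonneg_left (hδτ _ (by omega)) (by linarith)
  · intro a b hab
    show C * (((a + 2 : ℕ) : ℝ) ^ 4 * ww (a + 2)) ≤ C * (((b + 2 : ℕ) : ℝ) ^ 4 * ww (b + 2))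
    have h1 := hmono1 a b hab
    have h2 := hmono2 a b hab
    gcongr
  · intro a b hab
    show C * (((a + 2 : ℕ) : ℝ) ^ 4 * (ww (a + 2) : ℝ) ^ 3) ≤
      C * (((b + 2 : ℕ) : ℝ) ^ 4 * (ww (b + 2) : ℝ) ^ 3)
    have h1 := hmono1 a b hab
    have h2 := hmono2 a b hab
    gcongr
  · have h1 : Tendsto (fun n : ℕ => ((n + 2 : ℕ) : ℝ)) atTop atTop :=
      tendsto_natCast_atTop_atTop.comp (tendsto_add_atTop_nat 2)
    refine tendsto_atTop_mono (fun n => ?_) h1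
    have h2 : (1 : ℝ) ≤ ((n + 2 : ℕ) : ℝ) := by exact_mod_cast (by omega : 1 ≤ n + 2)
    have h3 := hw1 (n + 2)
    calc ((n + 2 : ℕ) : ℝ) ≤ ((n + 2 : ℕ) : ℝ) ^ 4 := le_self_pow₀ h2 (by norm_num)
      _ ≤ ((n + 2 : ℕ) : ℝ) ^ 4 * (ww (n + 2) : ℝ) ^ 3 :=
          le_mul_of_one_le_right (by positivity) (one_le_pow₀ h3)
      _ ≤ C * (((n + 2 : ℕ) : ℝ) ^ 4 * (ww (n + 2) : ℝ) ^ 3) :=
          le_mul_of_one_le_left (by positivity) hC1p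
  · intro n
    show C * (((n + 1 + 2 : ℕ) : ℝ) ^ 4 * ww (n + 1 + 2)) ≤
      128 * (C * (((n + 2 : ℕ) : ℝ) ^ 4 * ww (n + 2)))
    have h1 := hsucc1 n
    have h2 := hsucc2 n
    calc C * (((n + 1 + 2 : ℕ) : ℝ) ^ 4 * ww (n + 1 + 2))
        ≤ C * ((2 * ((n + 2 : ℕ) : ℝ)) ^ 4 * (2 * ww (n + 2))) := by gcongr
      _ = 32 * (C * (((n + 2 : ℕ) : ℝ) ^ 4 * ww (n + 2))) := by ring
      _ ≤ 128 * (C * (((n + 2 : ℕ) : ℝ) ^ 4 * ww (n + 2))) := by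
          apply mul_le_mul_of_nonneg_right (by norm_num) (by positivity)
  · intro n
    show C * (((n + 1 + 2 : ℕ) : ℝ) ^ 4 * (ww (n + 1 + 2) : ℝ) ^ 3) ≤
      128 * (C * (((n + 2 : ℕ) : ℝ) ^ 4 * (ww (n + 2) : ℝ) ^ 3))
    have h1 := hsucc1 n
    have h2 := hsucc2 n
    calc C * (((n + 1 + 2 : ℕ) : ℝ) ^ 4 * (ww (n + 1 + 2) : ℝ) ^ 3)
        ≤ C * ((2 * ((n + 2 : ℕ) : ℝ)) ^ 4 * (2 * ww (n + 2)) ^ 3) := by gcongr
      _ = 128 * (C * (((n + 2 : ℕ) : ℝ) ^ 4 * (ww (n + 2) : ℝ) ^ 3)) := by ring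
  · intro n
    have hN : 1 ≤ n + 2 := by omega
    have h1 : ((P (n + 2)).natDegree : ℝ) ≤ (((R.ν + 1) * (2 * (R.δ * D (n + 2))) : ℕ) : ℝ) := by
      exact_mod_cast hP2 (n + 2) hN
    have h2 : (((R.ν + 1) * (2 * (R.δ * D (n + 2))) : ℕ) : ℝ) = 2 * ((R.ν : ℝ) + 1) *
        ((R.δ * D (n + 2) : ℕ) : ℝ) := by push_cast; ring
    have h3 := gδ1 (n + 2) hN
    calc ((P (n + 2)).natDegree : ℝ) ≤ 2 * ((R.ν : ℝ) + 1) * ((R.δ * D (n + 2) : ℕ) : ℝ) := by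
          rw [← h2]; exact h1
      _ ≤ 2 * ((R.ν : ℝ) + 1) * (C4 * gδ (n + 2)) :=
          mul_le_mul_of_nonneg_left (hR4 (n + 2) hN).2 (by positivity)
      _ = (2 * ((R.ν : ℝ) + 1) * C4) * gδ (n + 2) := by ring
      _ ≤ C * gδ (n + 2) := by
          apply mul_le_mul_of_nonneg_right _ (by linarith)
          linarith
  · intro n i
    have hN : 1 ≤ n + 2 := by omega
    refine (hP3 (n + 2) hN i).trans ((hR3 (n + 2) hN).2.trans (Real.exp_le_exp.2 ?_))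
    have h3 := gδ1 (n + 2) hN
    have h4 := hδτ (n + 2) hN
    apply mul_le_mul_of_nonneg_right _ (by linarith)
    linarith
  · intro C₆
    obtain ⟨n0, hn0⟩ := exists_nat_ge (C2 + C5)
    obtain ⟨n1, hn1⟩ := exists_nat_ge (6 * (|C₆| * C ^ 2 + 1))
    have hev : ∀ᶠ n : ℕ in atTop, n1 ≤ ww (n + 2) :=
      (tendsto_ww.comp (tendsto_add_atTop_nat 2)).eventually_ge_atTop n1
    filter_upwards [eventually_ge_atTop n0, hev] with n hn hnw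
    refine (hval (n + 2) (by omega)).trans (Real.exp_le_exp.2 ?_)
    set M : ℝ := ((n + 2 : ℕ) : ℝ) with hM
    set w : ℝ := (ww (n + 2) : ℝ) with hw
    have hM1 : (1 : ℝ) ≤ M := hN1 (n + 2) (by omega)
    have hw1' : (1 : ℝ) ≤ w := hw1 (n + 2)
    have h5 : C2 + C5 ≤ M := by
      refine hn0.trans ?_
      rw [hM]
      exact_mod_cast (by omega : n0 ≤ n + 2)
    have h6 : 6 * (|C₆| * C ^ 2 + 1) ≤ w := by
      refine hn1.trans ?_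
      rw [hw]
      exact_mod_cast hnw
    show C2 * (M ^ 5 * w ^ 3) + C5 - M ^ 8 * w ^ 5 / 6 ≤
      -C₆ * ((C * (M ^ 4 * w)) * (C * (M ^ 4 * w ^ 3)))
    have hM8 : 0 ≤ M ^ 8 * w ^ 4 := by positivity
    have h7 : (|C₆| * C ^ 2 + 1) * (M ^ 8 * w ^ 4) ≤ M ^ 8 * w ^ 5 / 6 := by
      have : M ^ 8 * w ^ 5 / 6 = (w / 6) * (M ^ 8 * w ^ 4) := by ring
      rw [this]
      apply mul_le_mul_of_nonneg_right _ hM8
      linarith
    have h8 : C2 * (M ^ 5 * w ^ 3) + C5 ≤ M ^ 8 * w ^ 4 := by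
      have h9 : 1 ≤ M ^ 5 * w ^ 3 := by
        have e1 := one_le_pow₀ hM1 (n := 5)
        have e2 := one_le_pow₀ hw1' (n := 3)
        nlinarith
      calc C2 * (M ^ 5 * w ^ 3) + C5 ≤ C2 * (M ^ 5 * w ^ 3) + C5 * (M ^ 5 * w ^ 3) := by
            have : C5 ≤ C5 * (M ^ 5 * w ^ 3) := le_mul_of_one_le_right hC50 h9
            linarith
        _ = (C2 + C5) * (M ^ 5 * w ^ 3) := by ring
        _ ≤ M * (M ^ 5 * w ^ 3) := mul_le_mul_of_nonneg_right h5 (by positivity)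
        _ = M ^ 6 * w ^ 3 := by ring
        _ ≤ M ^ 8 * w ^ 4 := by
            have e1 : M ^ 6 ≤ M ^ 8 := pow_le_pow_right₀ hM1 (by norm_num)
            have e2 : w ^ 3 ≤ w ^ 4 := pow_le_pow_right₀ hw1' (by norm_num)
            gcongr
    have h10 : C₆ * ((C * (M ^ 4 * w)) * (C * (M ^ 4 * w ^ 3))) ≤
        |C₆| * C ^ 2 * (M ^ 8 * w ^ 4) := by
      have : C₆ * ((C * (M ^ 4 * w)) * (C * (M ^ 4 * w ^ 3))) = C₆ * C ^ 2 * (M ^ 8 * w ^ 4) := by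
        ring
      rw [this]
      apply mul_le_mul_of_nonneg_right _ hM8
      apply mul_le_mul_of_nonneg_right (le_abs_self _) (by positivity)
    linarith

end Pool.Agent.W252
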