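import Pool.Agent.W252.GelSiegel2
import Pool.Agent.W252.GelCoef

/-!
# The coefficients of the linear system: two kinds of denominators
-/

set_option autoImplicit false

namespace Pool.Agent.W252

open Polynomial Finset

variable {θ : ℂ}

theorem rep_exp2 (R : RD2 θ) {d l : ℕ} (x : Fin d → ℂ) (y : Fin l → ℂ) (d1 e1 : Fin l → ℕ)
    (hxy : ∀ i j, R.Rep (d1 j) (e1 j) 1 (Complex.exp (x i * y j))) (S : ℕ) (L : Fin l → ℕ)
    (k : Fin d → ℕ) (hk : ∀ i, k i ≤ S) (lam : Fin l → ℕ) (hl : ∀ j, lam j ≤ L j) :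
    R.Rep (d * S * ∑ j, L j * d1 j) (d * S * ∑ j, L j * e1 j) ((R.ν + 1 : ℝ) ^ (d * l + 1))
      (Complex.exp ((∑ j, (lam j : ℂ) * y j) * (∑ i, (k i : ℂ) * x i))) := by
  have h1 : Complex.exp ((∑ j, (lam j : ℂ) * y j) * (∑ i, (k i : ℂ) * x i)) =
      ∏ p : Fin d × Fin l, Complex.exp (x p.1 * y p.2) ^ (k p.1 * lam p.2) := by
    rw [Finset.sum_mul_sum, Finset.sum_comm, ← Finset.sum_product', Complex.exp_sum]
    apply Finset.prod_congr rfl
    intro p _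
    rw [← Complex.exp_nat_mul]
    congr 1
    push_cast
    ring
  rw [h1]
  have h2 := RD2.Rep.prod (R := R) (Finset.univ : Finset (Fin d × Fin l))
    (fun p => d1 p.2 * (k p.1 * lam p.2)) (fun p => e1 p.2 * (k p.1 * lam p.2))
    (fun p => (R.ν + 1 : ℝ) * 1 ^ (k p.1 * lam p.2))
    (fun p => Complex.exp (x p.1 * y p.2) ^ (k p.1 * lam p.2))
    (fun p _ => (hxy p.1 p.2).pow _)
  have h3 : ∀ w : Fin l → ℕ, ∑ p : Fin d × Fin l, w p.2 * (k p.1 * lam p.2) ≤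
      d * S * ∑ j, L j * w j := by
    intro w
    calc ∑ p : Fin d × Fin l, w p.2 * (k p.1 * lam p.2) ≤
          ∑ p : Fin d × Fin l, S * (L p.2 * w p.2) := by
          apply Finset.sum_le_sum
          intro p _
          calc w p.2 * (k p.1 * lam p.2) ≤ w p.2 * (S * L p.2) :=
                Nat.mul_le_mul_left _ (Nat.mul_le_mul (hk _) (hl _))
            _ = S * (L p.2 * w p.2) := by ring
      _ = d * S * ∑ j, L j * w j := by
          rw [Fintype.sum_prod_type]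
          simp only [Finset.sum_const, Finset.card_univ, Fintype.card_fin, smul_eq_mul]
          rw [← Finset.mul_sum]
          ring
  refine (h2.lift (h3 d1) (h3 e1)).mono (le_of_eq ?_)
  simp only [one_pow, mul_one, Finset.prod_const, Finset.card_univ, Fintype.card_prod,
    Fintype.card_fin]
  ring

theorem rep_lin2 (R : RD2 θ) {d : ℕ} (x : Fin d → ℂ) (hx : ∀ i, R.Rep 1 0 1 (x i)) (S : Fin d → ℕ)
    (k : Fin d → ℕ) (hk : ∀ i, k i ≤ S i) :
    R.Rep 1 0 (∑ i, S i : ℕ) (∑ i, (k i : ℂ) * x i) := by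
  have h := RD2.Rep.sum (R := R) Finset.univ 1 0 (fun i => (k i : ℝ) * 1) (fun i => (k i : ℂ) * x i)
    (fun i _ => (hx i).nat_mul (k i))
  refine h.mono ?_
  push_cast
  apply Finset.sum_le_sum
  intro i _
  rw [mul_one]
  exact_mod_cast hk i

/-- The main bound for the coefficients. -/
theorem rep_coef2 (R : RD2 θ) {d l : ℕ} (x : Fin d → ℂ) (y : Fin l → ℂ) (d1 e1 : Fin l → ℕ)
    (S T0 L0 : ℕ) (L : Fin l → ℕ)
    (hx : L0 = 0 ∨ ∀ i, R.Rep 1 0 1 (x i)) (hy : T0 = 0 ∨ ∀ j, R.Rep 1 0 1 (y j))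
    (hxy : ∀ i j, R.Rep (d1 j) (e1 j) 1 (Complex.exp (x i * y j)))
    (hd : 1 ≤ d) (hl1 : 1 ≤ l) (hS : 1 ≤ S) (hL : ∀ j, 1 ≤ L j)
    (k : Fin d → ℕ) (hk : ∀ i, k i ≤ S) (lam : Fin l → ℕ) (hl : ∀ j, lam j ≤ L j) (a t : ℕ)
    (ha : a ≤ L0) (ht : t ≤ T0) :
    R.Rep (L0 + T0 + d * S * ∑ j, L j * d1 j) (d * S * ∑ j, L j * e1 j)
      ((R.ν + 1 : ℝ) ^ (d * l + 3) * (d * S : ℕ) ^ L0 * ((L0 + ∑ j, L j : ℕ) : ℝ) ^ T0)
      (iteratedDeriv t (mono a (∑ j, (lam j : ℂ) * y j)) (∑ i, (k i : ℂ) * x i)) := by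
  rw [iteratedDeriv_mono]
  have hdS : 1 ≤ d * S := Nat.one_le_iff_ne_zero.2 (Nat.mul_ne_zero (by omega) (by omega))
  have hlL : 1 ≤ ∑ j, L j := by
    have := hL ⟨0, by omega⟩
    exact this.trans (Finset.single_le_sum (f := L) (fun _ _ => Nat.zero_le _) (Finset.mem_univ _))
  have hdS' : (1 : ℝ) ≤ ((d * S : ℕ) : ℝ) := by exact_mod_cast hdS
  have hlL' : (1 : ℝ) ≤ ((∑ j, L j : ℕ) : ℝ) := by exact_mod_cast hlL
  have hν : (1 : ℝ) ≤ (R.ν + 1 : ℝ) := by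
    have : (0 : ℝ) ≤ R.ν := Nat.cast_nonneg _
    linarith
  set X := ∑ i, (k i : ℂ) * x i with hX
  set Y := ∑ j, (lam j : ℂ) * y j with hY
  set De := d * S * ∑ j, L j * d1 j with hDe
  set Ee := d * S * ∑ j, L j * e1 j with hEe
  have hE := rep_exp2 R x y d1 e1 hxy S L k hk lam hl
  rw [← hX, ← hY, ← hDe, ← hEe] at hE
  -- the powers
  have hXp : ∀ τ, R.Rep (a - τ) 0 ((R.ν + 1 : ℝ) * (d * S : ℕ) ^ L0) (X ^ (a - τ)) := by
    intro τ
    rcases hx with h0 | hx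
    · have : a - τ = 0 := by omega
      rw [this, pow_zero, h0, pow_zero, mul_one]
      exact RD2.Rep.one R
    · have h := (rep_lin2 R x hx (fun _ => S) k hk).pow (a - τ)
      rw [one_mul, zero_mul] at h
      refine h.mono ?_
      apply mul_le_mul_of_nonneg_left _ (by linarith)
      have : ((∑ _i : Fin d, S : ℕ) : ℝ) = ((d * S : ℕ) : ℝ) := by simp
      rw [this]
      exact pow_le_pow_right₀ hdS' (by omega)
  have hYp : ∀ τ, R.Rep (t - τ) 0 ((R.ν + 1 : ℝ) * (∑ j, L j : ℕ) ^ (t - τ)) (Y ^ (t - τ)) := by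
    intro τ
    rcases hy with h0 | hy
    · have : t - τ = 0 := by omega
      rw [this, pow_zero, pow_zero, mul_one]
      exact RD2.Rep.one R
    · have h := (rep_lin2 R y hy L lam hl).pow (t - τ)
      rw [one_mul, zero_mul] at h
      exact h
  have hterm : ∀ τ ∈ range (t + 1), R.Rep (L0 + T0 + De) Ee
      (((R.ν + 1 : ℝ) ^ (d * l + 3) * (d * S : ℕ) ^ L0) *
        ((L0 : ℝ) ^ τ * ((∑ j, L j : ℕ) : ℝ) ^ (t - τ) * (t.choose τ : ℝ)))
      (((t.choose τ * a.descFactorial τ : ℕ) : ℂ) * (X ^ (a - τ) * (Y ^ (t - τ) *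
        Complex.exp (Y * X)))) := by
    intro τ _
    have h1 := ((hXp τ).mul ((hYp τ).mul hE)).nat_mul (t.choose τ * a.descFactorial τ)
    have h2 : a - τ + (t - τ + De) ≤ L0 + T0 + De := by omega
    refine (h1.lift h2 (by omega)).mono ?_
    have h3 : (a.descFactorial τ : ℝ) ≤ (L0 : ℝ) ^ τ := by
      calc (a.descFactorial τ : ℝ) ≤ ((a ^ τ : ℕ) : ℝ) := by
            exact_mod_cast Nat.descFactorial_le_pow a τ
        _ ≤ (L0 : ℝ) ^ τ := by
            push_cast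
            exact pow_le_pow_left₀ (Nat.cast_nonneg _) (by exact_mod_cast ha) _
    calc ((t.choose τ * a.descFactorial τ : ℕ) : ℝ) * ((R.ν + 1 : ℝ) * (d * S : ℕ) ^ L0 *
          ((R.ν + 1 : ℝ) * (∑ j, L j : ℕ) ^ (t - τ) * (R.ν + 1 : ℝ) ^ (d * l + 1)))
        = ((R.ν + 1 : ℝ) ^ (d * l + 3) * (d * S : ℕ) ^ L0) *
          ((a.descFactorial τ : ℝ) * ((∑ j, L j : ℕ) : ℝ) ^ (t - τ) * (t.choose τ : ℝ)) := by
          rw [Nat.cast_mul]; ring
      _ ≤ _ := by gcongr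
  have hsum := RD2.Rep.sum (R := R) (range (t + 1)) _ _ _ _ hterm
  refine hsum.mono ?_
  rw [← Finset.mul_sum, ← add_pow]
  apply mul_le_mul_of_nonneg_left _ (by positivity)
  calc ((L0 : ℝ) + ((∑ j, L j : ℕ) : ℝ)) ^ t ≤ ((L0 : ℝ) + ((∑ j, L j : ℕ) : ℝ)) ^ T0 := by
        apply pow_le_pow_right₀ _ ht
        have : (0 : ℝ) ≤ L0 := Nat.cast_nonneg _
        linarith
    _ = _ := by push_cast; rfl

end Pool.Agent.W252
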