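import Pool.Agent.W252.GelCoef
import Pool.Agent.W669.GelC

/-!
# The main construction in Gel'fond's method
-/

set_option autoImplicit false

namespace Pool.Agent.W252

open Polynomial Finset

variable {θ : ℂ}

theorem F_eq {ι : Type*} [Fintype ι] (c : ι → ℂ) (a : ι → ℕ) (w : ι → ℂ) :
    (fun z => ∑ i, c i * z ^ a i * Complex.exp (w i * z)) =
      fun z => ∑ i, c i * mono (a i) (w i) z := by
  funext z
  apply Finset.sum_congr rfl
  intro i _
  rw [mono, mul_assoc]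

theorem contDiff_mono (a : ℕ) (ω : ℂ) (n : WithTop ℕ∞) : ContDiff ℂ n (mono a ω) := by
  unfold mono
  fun_prop

theorem iteratedDeriv_F {ι : Type*} [Fintype ι] (c : ι → ℂ) (a : ι → ℕ) (w : ι → ℂ) (t : ℕ)
    (z : ℂ) : iteratedDeriv t (fun z => ∑ i, c i * z ^ a i * Complex.exp (w i * z)) z =
      ∑ i, c i * iteratedDeriv t (mono (a i) (w i)) z := by
  rw [F_eq, iteratedDeriv_fun_sum]
  · apply Finset.sum_congr rfl
    intro i _
    exact iteratedDeriv_const_mul_field (c i) (mono (a i) (w i))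
  · intro i _
    exact (contDiff_const.mul (contDiff_mono _ _ _)).contDiffAt

/-- The lattice points `k · x`. -/
theorem pts_injective {d : ℕ} (x : Fin d → ℂ) (hx : LinearIndependent ℚ x) (S : ℕ) :
    Function.Injective (fun k : Fin d → Fin S => ∑ i, (((k i : Fin S) : ℕ) : ℂ) * x i) := by
  intro k k' h
  simp only at h
  have h1 : ∑ i, (((k i : ℕ) : ℚ) - ((k' i : ℕ) : ℚ)) • x i = 0 := by
    have h2 : ∀ i, (((k i : ℕ) : ℚ) - ((k' i : ℕ) : ℚ)) • x i =
        ((k i : ℕ) : ℂ) * x i - ((k' i : ℕ) : ℂ) * x i := by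
      intro i
      rw [Algebra.smul_def, ← sub_mul]
      simp
    rw [Finset.sum_congr rfl (fun i _ => h2 i), Finset.sum_sub_distrib, h, sub_self]
  have h2 := (Fintype.linearIndependent_iff.1 hx) _ h1
  funext i
  have h3 := h2 i
  rw [sub_eq_zero] at h3
  exact Fin.ext (by exact_mod_cast h3)

theorem norm_pt_le {d : ℕ} (x : Fin d → ℂ) (X : ℝ) (hX : ∑ i, ‖x i‖ ≤ X) (S : ℕ) (k : Fin d → ℕ)
    (hk : ∀ i, k i ≤ S) : ‖∑ i, (k i : ℂ) * x i‖ ≤ X * S := by
  refine (norm_sum_le _ _).trans ?_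
  calc ∑ i, ‖(k i : ℂ) * x i‖ ≤ ∑ i, (S : ℝ) * ‖x i‖ := by
        apply Finset.sum_le_sum
        intro i _
        rw [norm_mul, Complex.norm_natCast]
        apply mul_le_mul_of_nonneg_right _ (norm_nonneg _)
        exact_mod_cast hk i
    _ = (∑ i, ‖x i‖) * S := by rw [← Finset.mul_sum, mul_comm]
    _ ≤ X * S := mul_le_mul_of_nonneg_right hX (Nat.cast_nonneg _)

/-- The main construction. -/
theorem core (hθ : Transcendental ℚ θ) (R : RD θ) {d l : ℕ} (hd : 1 ≤ d) (hl : 1 ≤ l)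
    (x : Fin d → ℂ) (y : Fin l → ℂ) (hx : LinearIndependent ℚ x) (hy : LinearIndependent ℚ y)
    (hxy : ∀ i j, R.Rep 1 1 (Complex.exp (x i * y j))) (T0 L0 L S S1 : ℕ)
    (hxr : L0 = 0 ∨ ∀ i, R.Rep 1 1 (x i)) (hyr : T0 = 0 ∨ ∀ j, R.Rep 1 1 (y j))
    (hS : 1 ≤ S) (hSS1 : S ≤ S1) (hL : 1 ≤ L)
    (hcount : 4 * ((T0 + 1) * S ^ d * (R.ν + 1)) ≤ (L0 + 1) * L ^ l)
    (X Y : ℝ) (hX : ∑ i, ‖x i‖ ≤ X) (hY : ∑ j, ‖y j‖ ≤ Y) (hX1 : 1 ≤ X) (hY1 : 1 ≤ Y)
    (hzero : 3 * (((L0 + 1) * L ^ l : ℕ) : ℝ) + 9 * (Y * L) * (X * S1) <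
      (((T0 + 1) * S1 ^ d : ℕ) : ℝ))
    (Θ : ℝ) (h1 : 1 ≤ Θ) (hΘ : ‖θ‖ ≤ Θ) (q r' : ℝ) (hq : 1 ≤ q)
    (hr' : (X * S1 + 1 + X * S) * q + X * S ≤ r') (D : ℕ) (hD : D = L0 + T0 + d * l * S1 * L)
    (K B : ℝ) (hK : K = (R.ν + 1 : ℝ) ^ (d * l + 3) * (d * S1 : ℕ) ^ L0 *
      ((L0 + l * L : ℕ) : ℝ) ^ T0)
    (hB : B = (((L0 + 1) * L ^ l : ℕ) : ℝ) * (R.δ * D : ℕ) * (K * R.H ^ D)) :
    ∃ P : ℤ[X], aeval θ P ≠ 0 ∧ P.natDegree ≤ (R.ν + 1) * (2 * (R.δ * D)) ∧
      (∀ i, |(P.coeff i : ℝ)| ≤ (B ^ 2) ^ (R.ν + 1)) ∧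
      ‖aeval θ P‖ * ‖R.v 0‖ * q ^ ((T0 + 1) * S ^ d) ≤ ‖aeval θ R.b‖ ^ D * (T0.factorial *
        ((((L0 + 1) * L ^ l : ℕ) : ℝ) * (B * (R.δ * D : ℕ) * Θ ^ (R.δ * D)) *
          (r' ^ L0 * Real.exp (Y * L * r')))) *
        (∑ i, ‖R.v i‖) * (B ^ 2 * Θ ^ (2 * (R.δ * D))) ^ R.ν := by
  classical
  have hinjθ : ∀ p : ℤ[X], aeval θ p = 0 → p = 0 := by
    intro p hp
    by_contra hne
    apply hθ
    refine ⟨p.map (Int.castRingHom ℚ), ?_, ?_⟩
    · intro h
      apply hne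
      exact (Polynomial.map_eq_zero_iff (Int.cast_injective (α := ℚ))).1 h
    · have : aeval θ (p.map (algebraMap ℤ ℚ)) = aeval θ p := Polynomial.aeval_map_algebraMap ℚ θ p
      exact this.trans hp
  have hS1 : 1 ≤ S1 := hS.trans hSS1
  have hD1 : 1 ≤ D := by
    have : 1 ≤ d * l * S1 * L := Nat.one_le_iff_ne_zero.2 (by positivity)
    omega
  have hν : (1 : ℝ) ≤ (R.ν + 1 : ℝ) := by
    have : (0 : ℝ) ≤ R.ν := Nat.cast_nonneg _
    linarith
  have hK1 : 1 ≤ K := by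
    rw [hK]
    have h2 : (1 : ℝ) ≤ ((d * S1 : ℕ) : ℝ) := by
      exact_mod_cast Nat.one_le_iff_ne_zero.2 (Nat.mul_ne_zero (by omega) (by omega))
    have h3 : (1 : ℝ) ≤ ((L0 + l * L : ℕ) : ℝ) := by
      have : 1 ≤ l * L := Nat.one_le_iff_ne_zero.2 (Nat.mul_ne_zero (by omega) (by omega))
      exact_mod_cast (by omega : 1 ≤ L0 + l * L)
    have h4 := one_le_pow₀ hν (n := d * l + 3)
    have h5 := one_le_pow₀ h2 (n := L0)
    have h6 := one_le_pow₀ h3 (n := T0)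
    calc (1 : ℝ) = 1 * 1 * 1 := by norm_num
      _ ≤ _ := by gcongr
  have hH := R.hH
  have hB0 : 0 ≤ B := by rw [hB]; positivity
  -- index sets
  let Λ := Fin (L0 + 1) × (Fin l → Fin L)
  let Cn := Fin (T0 + 1) × (Fin d → Fin S)
  let ω : Λ → ℂ := fun lam => ∑ j, (((lam.2 j : Fin L) : ℕ) : ℂ) * y j
  let aa : Λ → ℕ := fun lam => lam.1
  have hcardΛ : Fintype.card Λ = (L0 + 1) * L ^ l := by
    simp only [Λ, Fintype.card_prod, Fintype.card_fin, Fintype.card_fun]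
  have hcardC : Fintype.card Cn = (T0 + 1) * S ^ d := by
    simp only [Cn, Fintype.card_prod, Fintype.card_fin, Fintype.card_fun]
  have : Nonempty Cn := ⟨(0, fun _ => ⟨0, by omega⟩)⟩
  have hrep : ∀ (k : Fin d → ℕ) (_ : ∀ i, k i ≤ S1) (t : ℕ) (_ : t ≤ T0) (lam : Λ),
      R.Rep D K (iteratedDeriv t (mono (aa lam) (ω lam)) (∑ i, (k i : ℂ) * x i)) := by
    intro k hk t ht lam
    have := rep_coef R x y S1 L T0 L0 hxr hyr hxy hd hl hS1 hL k hk
      (fun j => ((lam.2 j : Fin L) : ℕ)) (fun j => (lam.2 j).2.le) (aa lam) t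
      (Nat.lt_succ_iff.1 lam.1.2) ht
    rw [hD, hK]
    exact this
  -- Siegel
  obtain ⟨p, hp0, hpdeg, hpB, hpeq⟩ := siegel R (Λ := Λ) (Cn := Cn)
    (fun κ lam => iteratedDeriv (κ.1 : ℕ) (mono (aa lam) (ω lam))
      (∑ i, (((κ.2 i : Fin S) : ℕ) : ℂ) * x i)) D hD1 K hK1
    (fun κ lam => hrep (fun i => ((κ.2 i : Fin S) : ℕ)) (fun i => (κ.2 i).2.le.trans hSS1) κ.1
      (Nat.lt_succ_iff.1 κ.1.2) lam) (by
      rw [hcardΛ, hcardC]
      calc 2 * ((T0 + 1) * S ^ d * (R.ν + 1) * (2 * (R.δ * D)))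
          = (4 * ((T0 + 1) * S ^ d * (R.ν + 1))) * (R.δ * D) := by ring
        _ ≤ ((L0 + 1) * L ^ l) * (R.δ * D) := Nat.mul_le_mul_right _ hcount)
  have hpB' : ∀ lam i, |((p lam).coeff i : ℝ)| ≤ B := by
    intro lam i
    rw [hB, ← hcardΛ]
    exact hpB lam i
  let c : Λ → ℂ := fun lam => aeval θ (p lam)
  have hc0 : c ≠ 0 := by
    intro h
    apply hp0
    funext lam
    exact hinjθ _ (congrFun h lam)
  let F : ℂ → ℂ := fun z => ∑ lam, c lam * z ^ aa lam * Complex.exp (ω lam * z)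
  have hFd : Differentiable ℂ F := by
    intro z
    apply DifferentiableAt.fun_sum
    intro lam _
    fun_prop
  -- zero estimate
  let W : Finset ℂ := Finset.univ.image
    (fun k : Fin l → Fin L => ∑ j, (((k j : Fin L) : ℕ) : ℂ) * y j)
  have hWcard : W.card ≤ L ^ l := by
    refine Finset.card_image_le.trans ?_
    simp
  let Z : Finset ℂ := Finset.univ.image
    (fun k : Fin d → Fin S1 => ∑ i, (((k i : Fin S1) : ℕ) : ℂ) * x i)
  have hZcard : Z.card = S1 ^ d := by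
    rw [Finset.card_image_of_injective _ (pts_injective x hx S1)]
    simp
  have hex : ∃ (k : Fin d → ℕ) (t : ℕ), (∀ i, k i ≤ S1) ∧ t ≤ T0 ∧
      iteratedDeriv t F (∑ i, (k i : ℂ) * x i) ≠ 0 := by
    by_contra hcon
    push Not at hcon
    have h2 := Pool.Agent.W669.GelC.zero_estimate c aa ω (L0 + 1) W (Y * L) (X * S1) (T0 + 1) Z
      (by
        rintro ⟨a1, k1⟩ ⟨a2, k2⟩ h
        simp only [Prod.mk.injEq] at h
        obtain ⟨h3, h4⟩ := h
        have h5 := pts_injective y hy L h4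
        exact Prod.ext (Fin.ext h3) h5) hc0
      (fun lam => lam.1.2) (fun lam => Finset.mem_image.2 ⟨lam.2, Finset.mem_univ _, rfl⟩)
      (by
        intro w hw
        obtain ⟨k, _, rfl⟩ := Finset.mem_image.1 hw
        exact norm_pt_le y Y hY L (fun j => ((k j : Fin L) : ℕ)) (fun j => (k j).2.le))
      (by positivity) (by positivity)
      (by
        intro z hz
        obtain ⟨k, _, rfl⟩ := Finset.mem_image.1 hz
        exact norm_pt_le x X hX S1 (fun j => ((k j : Fin S1) : ℕ)) (fun j => (k j).2.le))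
      (by
        intro z hz t ht
        obtain ⟨k, _, rfl⟩ := Finset.mem_image.1 hz
        exact hcon (fun i => ((k i : Fin S1) : ℕ)) t (fun i => (k i).2.le) (Nat.lt_succ_iff.1 ht))
    rw [hZcard] at h2
    have h3 : (((L0 + 1) * W.card : ℕ) : ℝ) ≤ (((L0 + 1) * L ^ l : ℕ) : ℝ) := by
      exact_mod_cast Nat.mul_le_mul_left _ hWcard
    linarith
  obtain ⟨k, t, hk, ht, hne⟩ := hex
  set z1 : ℂ := ∑ i, (k i : ℂ) * x i with hz1
  have hη : iteratedDeriv t F z1 = ∑ lam, aeval θ (p lam) *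
      iteratedDeriv t (mono (aa lam) (ω lam)) z1 := iteratedDeriv_F c aa ω t z1
  rw [hη] at hne
  obtain ⟨P, hP0, hPdeg, hPcoef, hPval⟩ := normStep hθ R
    (fun lam => iteratedDeriv t (mono (aa lam) (ω lam)) z1) D K hK1
    (fun lam => hrep k hk t ht lam) p hpdeg B (by rw [hB, hcardΛ]) hpB' hne Θ h1 hΘ
  refine ⟨P, hP0, hPdeg, hPcoef, ?_⟩
  rw [← hη] at hPval
  -- analytic estimate
  set n := (T0 + 1) * S ^ d with hn
  set M : ℝ := (((L0 + 1) * L ^ l : ℕ) : ℝ) * (B * (R.δ * D : ℕ) * Θ ^ (R.δ * D)) *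
    (r' ^ L0 * Real.exp (Y * L * r')) with hM
  have hXS : 0 ≤ X * S := by positivity
  have hXS1 : 0 ≤ X * S1 := by positivity
  have hr'1 : 1 ≤ r' := by nlinarith
  have hM0 : 0 ≤ M := by
    rw [hM]; positivity
  let Z0 : Finset ℂ := Finset.univ.image
    (fun k : Fin d → Fin S => ∑ i, (((k i : Fin S) : ℕ) : ℂ) * x i)
  have hZ0card : Z0.card = S ^ d := by
    rw [Finset.card_image_of_injective _ (pts_injective x hx S)]
    simp
  have hFM : ∀ z : ℂ, ‖z‖ = r' → ‖F z‖ ≤ M := by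
    intro z hz
    refine (norm_sum_le _ _).trans ?_
    calc ∑ lam, ‖c lam * z ^ aa lam * Complex.exp (ω lam * z)‖
        ≤ ∑ _lam : Λ, (B * (R.δ * D : ℕ) * Θ ^ (R.δ * D)) *
          (r' ^ L0 * Real.exp (Y * L * r')) := by
          apply Finset.sum_le_sum
          intro lam _
          rw [mul_assoc, norm_mul, norm_mul]
          have h5 : ‖c lam‖ ≤ B * (R.δ * D : ℕ) * Θ ^ (R.δ * D) := by
            refine (norm_aeval_le θ Θ h1 hΘ (p lam) (R.δ * D) (hpdeg lam).le).trans ?_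
            apply mul_le_mul_of_nonneg_right _ (by positivity)
            rw [mul_comm B]
            exact pl_le_of_coeff _ _ (hpdeg lam) B (hpB' lam)
          have h6 : ‖z ^ aa lam‖ ≤ r' ^ L0 := by
            rw [norm_pow, hz]
            exact pow_le_pow_right₀ hr'1 (Nat.lt_succ_iff.1 lam.1.2)
          have h7 : ‖Complex.exp (ω lam * z)‖ ≤ Real.exp (Y * L * r') := by
            refine (Complex.norm_exp_le_exp_norm _).trans (Real.exp_le_exp.2 ?_)
            rw [norm_mul, hz]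
            apply mul_le_mul_of_nonneg_right _ (by linarith)
            exact norm_pt_le y Y hY L (fun j => ((lam.2 j : Fin L) : ℕ)) (fun j => (lam.2 j).2.le)
          gcongr
      _ = M := by
          rw [Finset.sum_const, nsmul_eq_mul, Finset.card_univ, hcardΛ, hM]
          ring
  have hFsmall : ∀ w : ℂ, ‖w‖ ≤ X * S1 + 1 → ‖F w‖ * q ^ n ≤ M := by
    intro w hw
    have hδpos : 0 < X * S1 + 1 + X * S := by positivity
    have h6 := Pool.Agent.H297R2.schwarz F hFd (T0 + 1) Z0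
      (by
        intro z hz j hj
        obtain ⟨k', _, rfl⟩ := Finset.mem_image.1 hz
        have := hpeq (⟨j, hj⟩, k')
        rw [show iteratedDeriv j F (∑ i, (((k' i : Fin S) : ℕ) : ℂ) * x i) = _ from
          iteratedDeriv_F c aa ω j _]
        exact this)
      (X * S) r' M (X * S1 + 1 + X * S) (by nlinarith) (by linarith)
      (by
        intro z hz
        obtain ⟨k', _, rfl⟩ := Finset.mem_image.1 hz
        exact norm_pt_le x X hX S (fun j => ((k' j : Fin S) : ℕ)) (fun j => (k' j).2.le))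
      w (by nlinarith)
      (by
        intro z hz
        obtain ⟨k', _, rfl⟩ := Finset.mem_image.1 hz
        have := norm_pt_le x X hX S (fun j => ((k' j : Fin S) : ℕ)) (fun j => (k' j).2.le)
        exact (norm_sub_le _ _).trans (by linarith))
      hFM
    rw [hZ0card, ← hn] at h6
    have h8 : (X * S1 + 1 + X * S) ^ n * q ^ n ≤ (r' - X * S) ^ n := by
      rw [← mul_pow]
      apply pow_le_pow_left₀ (by positivity)
      linarith
    have h9 : ‖F w‖ * ((X * S1 + 1 + X * S) ^ n * q ^ n) ≤ M * (X * S1 + 1 + X * S) ^ n :=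
      (mul_le_mul_of_nonneg_left h8 (norm_nonneg _)).trans h6
    have h10 : 0 < (X * S1 + 1 + X * S) ^ n := pow_pos hδpos n
    have h11 : (‖F w‖ * q ^ n) * (X * S1 + 1 + X * S) ^ n ≤ M * (X * S1 + 1 + X * S) ^ n := by
      calc _ = ‖F w‖ * ((X * S1 + 1 + X * S) ^ n * q ^ n) := by ring
        _ ≤ _ := h9
    exact le_of_mul_le_mul_right h11 h10
  have hqn : 0 < q ^ n := by positivity
  have hηsmall : ‖iteratedDeriv t F z1‖ * q ^ n ≤ T0.factorial * M := by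
    have h12 := Complex.norm_iteratedDeriv_le_of_forall_mem_sphere_norm_le (c := z1) (R := 1)
      (C := M / q ^ n) (f := F) t one_pos hFd.diffContOnCl (by
        intro z hz
        rw [le_div_iff₀ hqn]
        apply hFsmall
        have h13 : ‖z - z1‖ = 1 := by simpa using hz
        have h14 : ‖z1‖ ≤ X * S1 := norm_pt_le x X hX S1 k hk
        calc ‖z‖ = ‖z1 + (z - z1)‖ := by ring_nf
          _ ≤ ‖z1‖ + ‖z - z1‖ := norm_add_le _ _
          _ ≤ X * S1 + 1 := by linarith)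
    rw [one_pow, div_one] at h12
    have h15 : (t.factorial : ℝ) ≤ T0.factorial := by exact_mod_cast Nat.factorial_le ht
    calc ‖iteratedDeriv t F z1‖ * q ^ n ≤ (t.factorial * (M / q ^ n)) * q ^ n :=
          mul_le_mul_of_nonneg_right h12 hqn.le
      _ = t.factorial * M := by field_simp
      _ ≤ T0.factorial * M := mul_le_mul_of_nonneg_right h15 hM0
  calc ‖aeval θ P‖ * ‖R.v 0‖ * q ^ n
      ≤ (‖aeval θ R.b‖ ^ D * ‖iteratedDeriv t F z1‖ * (∑ i, ‖R.v i‖) *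
        (B ^ 2 * Θ ^ (2 * (R.δ * D))) ^ R.ν) * q ^ n := mul_le_mul_of_nonneg_right hPval hqn.le
    _ = ‖aeval θ R.b‖ ^ D * (‖iteratedDeriv t F z1‖ * q ^ n) * (∑ i, ‖R.v i‖) *
        (B ^ 2 * Θ ^ (2 * (R.δ * D))) ^ R.ν := by ring
    _ ≤ _ := by
        have h16 : 0 ≤ ∑ i, ‖R.v i‖ := Finset.sum_nonneg (fun _ _ => norm_nonneg _)
        gcongr

end Pool.Agent.W252
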