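import Mathlib

/-!
# Lengths of integer polynomials and of matrices over `ℤ[X]`
-/

set_option autoImplicit false

namespace Pool.Agent.W252

open Polynomial Matrix Finset

/-- Determinant bound for a submultiplicative seminorm. -/
theorem det_bound {R : Type*} [CommRing R] (nu : R → ℝ) (h0 : ∀ a, 0 ≤ nu a) (hz : nu 0 = 0)
    (hadd : ∀ a b, nu (a + b) ≤ nu a + nu b) (hmul : ∀ a b, nu (a * b) ≤ nu a * nu b)
    (hneg : ∀ a, nu (-a) = nu a) (hone : nu 1 ≤ 1) {n : Type*} [Fintype n] [DecidableEq n]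
    (A : Matrix n n R) : nu A.det ≤ ∏ j, ∑ i, nu (A i j) := by
  classical
  have hsum : ∀ {ι : Type _} (s : Finset ι) (f : ι → R), nu (∑ i ∈ s, f i) ≤ ∑ i ∈ s, nu (f i) := by
    intro ι s f
    induction s using Finset.induction_on with
    | empty => simp [hz]
    | insert a s ha ih =>
      rw [Finset.sum_insert ha, Finset.sum_insert ha]
      exact (hadd _ _).trans (by linarith)
  have hprod : ∀ (s : Finset n) (f : n → R), nu (∏ i ∈ s, f i) ≤ ∏ i ∈ s, nu (f i) := by
    intro s f
    induction s using Finset.induction_on with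
    | empty => simpa using hone
    | insert a s ha ih =>
      rw [Finset.prod_insert ha, Finset.prod_insert ha]
      exact (hmul _ _).trans (mul_le_mul_of_nonneg_left ih (h0 _))
  rw [Matrix.det_apply]
  calc nu (∑ σ : Equiv.Perm n, Equiv.Perm.sign σ • ∏ i, A (σ i) i)
      ≤ ∑ σ : Equiv.Perm n, nu (Equiv.Perm.sign σ • ∏ i, A (σ i) i) := hsum _ _
    _ ≤ ∑ σ : Equiv.Perm n, ∏ i, nu (A (σ i) i) := by
        apply Finset.sum_le_sum
        intro σ _
        rcases Int.units_eq_one_or (Equiv.Perm.sign σ) with h | h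
        · rw [h, one_smul]; exact hprod _ _
        · rw [h]
          rw [Units.neg_smul, one_smul, hneg]
          exact hprod _ _
    _ ≤ ∑ f : n → n, ∏ i, nu (A (f i) i) := by
        have hinj : Function.Injective (fun σ : Equiv.Perm n => (σ : n → n)) :=
          Equiv.coe_fn_injective
        have he : ∑ σ : Equiv.Perm n, ∏ i, nu (A (σ i) i) =
            ∑ f ∈ (Finset.univ : Finset (Equiv.Perm n)).map ⟨_, hinj⟩, ∏ i, nu (A (f i) i) := by
          rw [Finset.sum_map]
          rfl
        rw [he]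
        apply Finset.sum_le_sum_of_subset_of_nonneg (Finset.subset_univ _)
        intro f _ _
        exact Finset.prod_nonneg (fun i _ => h0 _)
    _ = ∏ j, ∑ i, nu (A i j) := by
        rw [Finset.prod_univ_sum]
        simp only [Fintype.piFinset_univ]

/-- The length (sum of the absolute values of the coefficients). -/
noncomputable def pl (P : ℤ[X]) : ℝ := ∑ i ∈ P.support, |(P.coeff i : ℝ)|

theorem pl_nonneg (P : ℤ[X]) : 0 ≤ pl P := Finset.sum_nonneg (fun _ _ => abs_nonneg _)

theorem pl_zero : pl 0 = 0 := by simp [pl]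

theorem pl_eq_sum (P : ℤ[X]) (s : Finset ℕ) (hs : P.support ⊆ s) :
    pl P = ∑ i ∈ s, |(P.coeff i : ℝ)| := by
  unfold pl
  apply Finset.sum_subset hs
  intro i _ hi
  rw [Polynomial.notMem_support_iff.1 hi]
  simp

theorem pl_add (P Q : ℤ[X]) : pl (P + Q) ≤ pl P + pl Q := by
  classical
  have h1 := pl_eq_sum P (P.support ∪ Q.support) Finset.subset_union_left
  have h2 := pl_eq_sum Q (P.support ∪ Q.support) Finset.subset_union_right
  have h3 := pl_eq_sum (P + Q) (P.support ∪ Q.support) Polynomial.support_add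
  rw [h1, h2, h3, ← Finset.sum_add_distrib]
  apply Finset.sum_le_sum
  intro i _
  rw [Polynomial.coeff_add]
  push_cast
  exact abs_add_le _ _

theorem pl_neg (P : ℤ[X]) : pl (-P) = pl P := by
  unfold pl
  rw [Polynomial.support_neg]
  apply Finset.sum_congr rfl
  intro i _
  rw [Polynomial.coeff_neg]
  push_cast
  exact abs_neg _

theorem pl_sum {ι : Type*} (s : Finset ι) (f : ι → ℤ[X]) :
    pl (∑ i ∈ s, f i) ≤ ∑ i ∈ s, pl (f i) := by
  classical
  induction s using Finset.induction_on with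
  | empty => simp [pl_zero]
  | insert a s ha ih =>
    rw [Finset.sum_insert ha, Finset.sum_insert ha]
    exact (pl_add _ _).trans (by linarith)

theorem pl_monomial (i : ℕ) (a : ℤ) : pl (monomial i a) ≤ |(a : ℝ)| := by
  rw [pl_eq_sum (monomial i a) {i} (Polynomial.support_monomial_subset i a)]
  simp

theorem pl_C (a : ℤ) : pl (C a) ≤ |(a : ℝ)| := by
  have := pl_monomial 0 a
  simpa using this

theorem pl_one : pl 1 ≤ 1 := by
  have := pl_C 1
  simpa using this

theorem pl_mul (P Q : ℤ[X]) : pl (P * Q) ≤ pl P * pl Q := by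
  rw [Polynomial.mul_eq_sum_sum]
  calc pl (∑ i ∈ P.support, Q.sum fun j a => (monomial (i + j)) (P.coeff i * a))
      ≤ ∑ i ∈ P.support, pl (Q.sum fun j a => (monomial (i + j)) (P.coeff i * a)) := pl_sum _ _
    _ ≤ ∑ i ∈ P.support, |(P.coeff i : ℝ)| * pl Q := by
        apply Finset.sum_le_sum
        intro i _
        rw [Polynomial.sum_def]
        calc pl (∑ j ∈ Q.support, (monomial (i + j)) (P.coeff i * Q.coeff j))
            ≤ ∑ j ∈ Q.support, pl ((monomial (i + j)) (P.coeff i * Q.coeff j)) := pl_sum _ _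
          _ ≤ ∑ j ∈ Q.support, |(P.coeff i : ℝ)| * |(Q.coeff j : ℝ)| := by
              apply Finset.sum_le_sum
              intro j _
              refine (pl_monomial _ _).trans (le_of_eq ?_)
              push_cast
              exact abs_mul _ _
          _ = _ := by rw [← Finset.mul_sum]; rfl
    _ = pl P * pl Q := by rw [← Finset.sum_mul]; rfl

theorem abs_coeff_le_pl (P : ℤ[X]) (i : ℕ) : |(P.coeff i : ℝ)| ≤ pl P := by
  by_cases hi : i ∈ P.support
  · exact Finset.single_le_sum (f := fun i => |(P.coeff i : ℝ)|) (fun _ _ => abs_nonneg _) hi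
  · rw [Polynomial.notMem_support_iff.1 hi]
    simpa using pl_nonneg P

theorem pl_le_of_coeff (P : ℤ[X]) (m : ℕ) (hm : P.natDegree < m) (B : ℝ)
    (hB : ∀ i, |(P.coeff i : ℝ)| ≤ B) : pl P ≤ m * B := by
  rw [pl_eq_sum P (Finset.range m) (fun i hi => by
    rw [Finset.mem_range]
    exact lt_of_le_of_lt (Polynomial.le_natDegree_of_mem_supp i hi) hm)]
  calc ∑ i ∈ Finset.range m, |(P.coeff i : ℝ)| ≤ ∑ i ∈ Finset.range m, B :=
        Finset.sum_le_sum (fun i _ => hB i)
    _ = m * B := by simp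

theorem norm_aeval_le (θ : ℂ) (Θ : ℝ) (h1 : 1 ≤ Θ) (hΘ : ‖θ‖ ≤ Θ) (P : ℤ[X]) (m : ℕ)
    (hm : P.natDegree ≤ m) : ‖aeval θ P‖ ≤ pl P * Θ ^ m := by
  rw [Polynomial.aeval_eq_sum_range]
  rw [pl_eq_sum P (Finset.range (P.natDegree + 1)) (fun i hi => by
    rw [Finset.mem_range]
    exact Nat.lt_succ_of_le (Polynomial.le_natDegree_of_mem_supp i hi)), Finset.sum_mul]
  refine (norm_sum_le _ _).trans (Finset.sum_le_sum ?_)
  intro i hi
  rw [Finset.mem_range] at hi
  rw [zsmul_eq_mul, norm_mul, norm_pow]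
  have h2 : ‖((P.coeff i : ℤ) : ℂ)‖ = |(P.coeff i : ℝ)| := by
    rw [Complex.norm_intCast]
  rw [h2]
  apply mul_le_mul_of_nonneg_left _ (abs_nonneg _)
  calc ‖θ‖ ^ i ≤ Θ ^ i := pow_le_pow_left₀ (norm_nonneg _) hΘ i
    _ ≤ Θ ^ m := pow_le_pow_right₀ h1 (by omega)

/-- The length of a matrix over `ℤ[X]`. -/
noncomputable def mN {n : Type*} [Fintype n] (A : Matrix n n ℤ[X]) : ℝ := ∑ i, ∑ j, pl (A i j)

theorem mN_nonneg {n : Type*} [Fintype n] (A : Matrix n n ℤ[X]) : 0 ≤ mN A :=
  Finset.sum_nonneg (fun _ _ => Finset.sum_nonneg (fun _ _ => pl_nonneg _))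

theorem mN_add {n : Type*} [Fintype n] (A B : Matrix n n ℤ[X]) : mN (A + B) ≤ mN A + mN B := by
  unfold mN
  rw [← Finset.sum_add_distrib]
  apply Finset.sum_le_sum
  intro i _
  rw [← Finset.sum_add_distrib]
  apply Finset.sum_le_sum
  intro j _
  exact pl_add _ _

theorem mN_zero {n : Type*} [Fintype n] : mN (0 : Matrix n n ℤ[X]) = 0 := by
  simp [mN, pl_zero]

theorem mN_sum {n : Type*} [Fintype n] {ι : Type*} (s : Finset ι) (f : ι → Matrix n n ℤ[X]) :
    mN (∑ i ∈ s, f i) ≤ ∑ i ∈ s, mN (f i) := by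
  classical
  induction s using Finset.induction_on with
  | empty => simp [mN_zero]
  | insert a s ha ih =>
    rw [Finset.sum_insert ha, Finset.sum_insert ha]
    exact (mN_add _ _).trans (by linarith)

theorem mN_mul {n : Type*} [Fintype n] (A B : Matrix n n ℤ[X]) : mN (A * B) ≤ mN A * mN B := by
  classical
  unfold mN
  calc ∑ i, ∑ j, pl ((A * B) i j) ≤ ∑ i, ∑ j, ∑ k, pl (A i k) * pl (B k j) := by
        apply Finset.sum_le_sum; intro i _
        apply Finset.sum_le_sum; intro j _
        rw [Matrix.mul_apply]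
        exact (pl_sum _ _).trans (Finset.sum_le_sum (fun k _ => pl_mul _ _))
    _ = ∑ i, ∑ k, pl (A i k) * ∑ j, pl (B k j) := by
        apply Finset.sum_congr rfl; intro i _
        rw [Finset.sum_comm]
        apply Finset.sum_congr rfl; intro k _
        rw [Finset.mul_sum]
    _ ≤ ∑ i, ∑ k, pl (A i k) * ∑ k', ∑ j, pl (B k' j) := by
        apply Finset.sum_le_sum; intro i _
        apply Finset.sum_le_sum; intro k _
        apply mul_le_mul_of_nonneg_left _ (pl_nonneg _)
        exact Finset.single_le_sum (f := fun k' => ∑ j, pl (B k' j))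
          (fun _ _ => Finset.sum_nonneg (fun _ _ => pl_nonneg _)) (Finset.mem_univ k)
    _ = (∑ i, ∑ j, pl (A i j)) * ∑ i, ∑ j, pl (B i j) := by
        rw [Finset.sum_mul]
        apply Finset.sum_congr rfl; intro i _
        rw [Finset.sum_mul]

theorem mN_smul {n : Type*} [Fintype n] (p : ℤ[X]) (A : Matrix n n ℤ[X]) :
    mN (p • A) ≤ pl p * mN A := by
  unfold mN
  rw [Finset.mul_sum]
  apply Finset.sum_le_sum; intro i _
  rw [Finset.mul_sum]
  apply Finset.sum_le_sum; intro j _
  rw [Matrix.smul_apply, smul_eq_mul]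
  exact pl_mul _ _

theorem mN_one {n : Type*} [Fintype n] [DecidableEq n] :
    mN (1 : Matrix n n ℤ[X]) ≤ Fintype.card n := by
  unfold mN
  calc ∑ i, ∑ j, pl ((1 : Matrix n n ℤ[X]) i j) ≤ ∑ i : n, 1 := by
        apply Finset.sum_le_sum; intro i _
        calc ∑ j, pl ((1 : Matrix n n ℤ[X]) i j) = ∑ j, (if i = j then pl (1 : ℤ[X]) else 0) := by
              apply Finset.sum_congr rfl; intro j _
              rw [Matrix.one_apply]
              split_ifs
              · rfl
              · exact pl_zero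
          _ ≤ 1 := by simpa using pl_one
    _ = Fintype.card n := by simp

theorem pl_det_le {n : Type*} [Fintype n] [DecidableEq n] (A : Matrix n n ℤ[X]) :
    pl A.det ≤ mN A ^ Fintype.card n := by
  calc pl A.det ≤ ∏ j, ∑ i, pl (A i j) :=
        det_bound pl pl_nonneg pl_zero pl_add pl_mul pl_neg pl_one A
    _ ≤ ∏ _j : n, mN A := by
        apply Finset.prod_le_prod
        · intro j _; exact Finset.sum_nonneg (fun _ _ => pl_nonneg _)
        · intro j _
          unfold mN
          apply Finset.sum_le_sum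
          intro i _
          exact Finset.single_le_sum (f := fun j => pl (A i j)) (fun _ _ => pl_nonneg _)
            (Finset.mem_univ j)
    _ = mN A ^ Fintype.card n := by rw [Finset.prod_const, Finset.card_univ]

theorem natDegree_det_le' {n : Type*} [Fintype n] [DecidableEq n] (A : Matrix n n ℤ[X]) (δ : ℕ)
    (h : ∀ i j, (A i j).natDegree ≤ δ) : A.det.natDegree ≤ Fintype.card n * δ := by
  rw [Matrix.det_apply]
  apply Polynomial.natDegree_sum_le_of_forall_le
  intro σ _
  have h1 : (∏ i, A (σ i) i).natDegree ≤ Fintype.card n * δ := by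
    refine (Polynomial.natDegree_prod_le _ _).trans ?_
    calc ∑ i, (A (σ i) i).natDegree ≤ ∑ _i : n, δ := Finset.sum_le_sum (fun i _ => h _ _)
      _ = Fintype.card n * δ := by simp
  rcases Int.units_eq_one_or (Equiv.Perm.sign σ) with hs | hs
  · rw [hs, one_smul]; exact h1
  · rw [hs, Units.neg_smul, one_smul, Polynomial.natDegree_neg]; exact h1

theorem norm_det_le {n : Type*} [Fintype n] [DecidableEq n] (A : Matrix n n ℂ) :
    ‖A.det‖ ≤ ∏ j, ∑ i, ‖A i j‖ :=
  det_bound (fun z : ℂ => ‖z‖) norm_nonneg norm_zero norm_add_le (fun a b => (norm_mul a b).le)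
    norm_neg (by simp) A

end Pool.Agent.W252
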