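import Pool.Agent.W252.GelRep

/-!
# Numbers represented by matrices over `ℤ[X]`, with two kinds of denominators
-/

set_option autoImplicit false

namespace Pool.Agent.W252

open Polynomial Matrix Finset

/-- Data of a representation with a denominator in `ℤ[X]` and one in `ℤ`. -/
structure RD2 (θ : ℂ) where
  /-- one less than the degree -/
  ν : ℕ
  /-- the vector -/
  v : Fin (ν + 1) → ℂ
  /-- the denominator -/
  b : ℤ[X]
  /-- the constant denominator -/
  b₀ : ℤ
  /-- degree bound -/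
  δ : ℕ
  /-- height bound -/
  H : ℝ
  hδ : 1 ≤ δ
  hH : 1 ≤ H
  hb0 : aeval θ b ≠ 0
  hb₀ : b₀ ≠ 0
  hbδ : b.natDegree ≤ δ
  hbH : pl b ≤ H
  hb₀H : |(b₀ : ℝ)| ≤ H
  hv : ∀ u : Fin (ν + 1) → ℤ[X], ∑ i, aeval θ (u i) * v i = 0 → u = 0

variable {θ : ℂ}

/-- `b ^ D * b₀ ^ E * η` is represented by a matrix of degree `≤ δ D` and length `≤ K H ^ (D + E)`. -/
def RD2.Rep (R : RD2 θ) (D E : ℕ) (K : ℝ) (η : ℂ) : Prop :=
  ∃ A : Matrix (Fin (R.ν + 1)) (Fin (R.ν + 1)) ℤ[X],
    Acts θ R.v A (aeval θ R.b ^ D * (R.b₀ : ℂ) ^ E * η) ∧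
    (∀ i j, (A i j).natDegree ≤ R.δ * D) ∧ mN A ≤ K * R.H ^ (D + E)

namespace RD2
variable (R : RD2 θ)

theorem Rep.one : R.Rep 0 0 (R.ν + 1) 1 := by
  refine ⟨1, by simpa using Acts.one, ?_, ?_⟩
  · intro i j
    rw [Matrix.one_apply]
    split_ifs <;> simp
  · have := mN_one (n := Fin (R.ν + 1))
    simpa using this

theorem Rep.zero (D E : ℕ) : R.Rep D E 0 0 := by
  refine ⟨0, by simpa using Acts.zero, ?_, ?_⟩
  · intro i j; simp
  · simp [mN_zero]

variable {R}

theorem Rep.mono {D E : ℕ} {K K' : ℝ} {η : ℂ} (h : R.Rep D E K η) (hK : K ≤ K') :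
    R.Rep D E K' η := by
  obtain ⟨A, h1, h2, h3⟩ := h
  refine ⟨A, h1, h2, h3.trans ?_⟩
  have := R.hH
  gcongr

theorem Rep.mul {D D' E E' : ℕ} {K K' : ℝ} {η η' : ℂ} (h : R.Rep D E K η)
    (h' : R.Rep D' E' K' η') : R.Rep (D + D') (E + E') (K * K') (η * η') := by
  obtain ⟨A, h1, h2, h3⟩ := h
  obtain ⟨A', h1', h2', h3'⟩ := h'
  refine ⟨A * A', ?_, ?_, ?_⟩
  · have := h1.mul h1'
    convert this using 1
    ring
  · intro i j
    rw [Matrix.mul_apply]
    apply Polynomial.natDegree_sum_le_of_forall_le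
    intro k _
    refine Polynomial.natDegree_mul_le.trans ?_
    have := h2 i k
    have := h2' k j
    rw [Nat.mul_add]
    omega
  · refine (mN_mul _ _).trans ?_
    have h4 : 0 ≤ mN A' := mN_nonneg _
    have h5 : 0 ≤ K * R.H ^ (D + E) := (mN_nonneg A).trans h3
    calc mN A * mN A' ≤ (K * R.H ^ (D + E)) * (K' * R.H ^ (D' + E')) := mul_le_mul h3 h3' h4 h5
      _ = K * K' * R.H ^ (D + D' + (E + E')) := by
        rw [show D + D' + (E + E') = (D + E) + (D' + E') by ring, pow_add R.H (D + E)]; ring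

theorem Rep.add {D E : ℕ} {K K' : ℝ} {η η' : ℂ} (h : R.Rep D E K η) (h' : R.Rep D E K' η') :
    R.Rep D E (K + K') (η + η') := by
  obtain ⟨A, h1, h2, h3⟩ := h
  obtain ⟨A', h1', h2', h3'⟩ := h'
  refine ⟨A + A', ?_, ?_, ?_⟩
  · have := h1.add h1'
    convert this using 1
    ring
  · intro i j
    rw [Matrix.add_apply]
    exact (Polynomial.natDegree_add_le _ _).trans (max_le (h2 i j) (h2' i j))
  · refine (mN_add _ _).trans ?_
    rw [add_mul]
    linarith

theorem Rep.sum {ι : Type*} (s : Finset ι) (D E : ℕ) (K : ι → ℝ) (η : ι → ℂ)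
    (h : ∀ i ∈ s, R.Rep D E (K i) (η i)) : R.Rep D E (∑ i ∈ s, K i) (∑ i ∈ s, η i) := by
  classical
  induction s using Finset.induction_on with
  | empty => simpa using Rep.zero R D E
  | insert a s ha ih =>
    rw [Finset.sum_insert ha, Finset.sum_insert ha]
    exact (h a (Finset.mem_insert_self _ _)).add
      (ih (fun i hi => h i (Finset.mem_insert_of_mem hi)))

theorem Rep.lift1 {D E : ℕ} {K : ℝ} {η : ℂ} (h : R.Rep D E K η) : R.Rep (D + 1) E K η := by
  obtain ⟨A, h1, h2, h3⟩ := h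
  refine ⟨R.b • A, ?_, ?_, ?_⟩
  · have := h1.smul R.b
    convert this using 1
    ring
  · intro i j
    rw [Matrix.smul_apply, smul_eq_mul]
    refine Polynomial.natDegree_mul_le.trans ?_
    have := h2 i j
    have := R.hbδ
    rw [Nat.mul_add]
    omega
  · refine (mN_smul _ _).trans ?_
    have h5 : 0 ≤ K * R.H ^ (D + E) := (mN_nonneg A).trans h3
    have hH := R.hH
    calc pl R.b * mN A ≤ R.H * (K * R.H ^ (D + E)) :=
          mul_le_mul R.hbH h3 (mN_nonneg _) (by linarith)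
      _ = K * R.H ^ (D + 1 + E) := by
          rw [show D + 1 + E = (D + E) + 1 by ring, pow_succ]; ring

theorem Rep.lift1' {D E : ℕ} {K : ℝ} {η : ℂ} (h : R.Rep D E K η) : R.Rep D (E + 1) K η := by
  obtain ⟨A, h1, h2, h3⟩ := h
  refine ⟨(C R.b₀ : ℤ[X]) • A, ?_, ?_, ?_⟩
  · have := h1.smul (C R.b₀)
    convert this using 1
    rw [Polynomial.aeval_C]
    simp
    ring
  · intro i j
    rw [Matrix.smul_apply, smul_eq_mul]
    exact (Polynomial.natDegree_C_mul_le _ _).trans (h2 i j)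
  · refine (mN_smul _ _).trans ?_
    have h5 : 0 ≤ K * R.H ^ (D + E) := (mN_nonneg A).trans h3
    have hH := R.hH
    calc pl (C R.b₀) * mN A ≤ R.H * (K * R.H ^ (D + E)) :=
          mul_le_mul ((pl_C _).trans R.hb₀H) h3 (mN_nonneg _) (by linarith)
      _ = K * R.H ^ (D + (E + 1)) := by
          rw [show D + (E + 1) = (D + E) + 1 by ring, pow_succ]; ring

theorem Rep.lift {D D' E E' : ℕ} {K : ℝ} {η : ℂ} (h : R.Rep D E K η) (hD : D ≤ D')
    (hE : E ≤ E') : R.Rep D' E' K η := by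
  have h1 : R.Rep D' E K η := by
    induction D', hD using Nat.le_induction with
    | base => exact h
    | succ n _ ih => exact ih.lift1
  induction E', hE using Nat.le_induction with
  | base => exact h1
  | succ n _ ih => exact ih.lift1'

theorem Rep.int_mul {D E : ℕ} {K : ℝ} {η : ℂ} (a : ℤ) (h : R.Rep D E K η) :
    R.Rep D E (|(a : ℝ)| * K) ((a : ℂ) * η) := by
  obtain ⟨A, h1, h2, h3⟩ := h
  refine ⟨(C a : ℤ[X]) • A, ?_, ?_, ?_⟩
  · have := h1.smul (C a)
    convert this using 1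
    rw [Polynomial.aeval_C]
    simp
    ring
  · intro i j
    rw [Matrix.smul_apply, smul_eq_mul]
    exact (Polynomial.natDegree_C_mul_le _ _).trans (h2 i j)
  · refine (mN_smul _ _).trans ?_
    calc pl (C a) * mN A ≤ |(a : ℝ)| * (K * R.H ^ (D + E)) :=
          mul_le_mul (pl_C a) h3 (mN_nonneg _) (abs_nonneg _)
      _ = |(a : ℝ)| * K * R.H ^ (D + E) := by ring

theorem Rep.nat_mul {D E : ℕ} {K : ℝ} {η : ℂ} (a : ℕ) (h : R.Rep D E K η) :
    R.Rep D E (a * K) ((a : ℂ) * η) := by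
  have := h.int_mul (a : ℤ)
  simpa using this

theorem Rep.pow {D E : ℕ} {K : ℝ} {η : ℂ} (h : R.Rep D E K η) (k : ℕ) :
    R.Rep (D * k) (E * k) ((R.ν + 1) * K ^ k) (η ^ k) := by
  induction k with
  | zero => simpa using Rep.one R
  | succ k ih =>
    have := ih.mul h
    convert this using 1 <;> ring

theorem Rep.prod {ι : Type*} (s : Finset ι) (D E : ι → ℕ) (K : ι → ℝ) (η : ι → ℂ)
    (h : ∀ i ∈ s, R.Rep (D i) (E i) (K i) (η i)) :
    R.Rep (∑ i ∈ s, D i) (∑ i ∈ s, E i) ((R.ν + 1) * ∏ i ∈ s, K i) (∏ i ∈ s, η i) := by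
  classical
  induction s using Finset.induction_on with
  | empty => simpa using Rep.one R
  | insert a s ha ih =>
    rw [Finset.sum_insert ha, Finset.sum_insert ha, Finset.prod_insert ha, Finset.prod_insert ha]
    have := (h a (Finset.mem_insert_self _ _)).mul
      (ih (fun i hi => h i (Finset.mem_insert_of_mem hi)))
    convert this using 1
    ring

theorem v0_ne (R : RD2 θ) : R.v 0 ≠ 0 := by
  intro h
  have h1 := R.hv (fun i => if i = 0 then 1 else 0) (by
    rw [Finset.sum_eq_single 0]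
    · rw [h]; simp
    · intro i _ hi
      simp [hi]
    · simp)
  have := congrFun h1 0
  simp at this

end RD2

end Pool.Agent.W252
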