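import Pool.Agent.W252.GelRep

/-!
# Siegel's lemma over `ℤ[θ]` and norms
-/

set_option autoImplicit false

namespace Pool.Agent.W252

open Polynomial Matrix Finset
open scoped Matrix.Norms.Elementwise

variable {θ : ℂ}

theorem RD.v0_ne (R : RD θ) : R.v 0 ≠ 0 := by
  intro h
  have h1 := R.hv (fun i => if i = 0 then 1 else 0) (by
    rw [Finset.sum_eq_single 0]
    · rw [h]; simp
    · intro i _ hi
      simp [hi]
    · simp)
  have := congrFun h1 0
  simp at this

theorem coeff_sum_mul {Δ : ℕ} (t : Fin Δ → ℤ) (A : ℤ[X]) (s : ℕ) :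
    ((∑ m : Fin Δ, monomial (m : ℕ) (t m)) * A).coeff s =
      ∑ m : Fin Δ, (if (m : ℕ) ≤ s then A.coeff (s - m) else 0) * t m := by
  rw [Finset.sum_mul, Polynomial.finsetSum_coeff]
  apply Finset.sum_congr rfl
  intro m _
  rw [← Polynomial.C_mul_X_pow_eq_monomial, mul_assoc, Polynomial.coeff_C_mul, mul_comm (X ^ (m : ℕ)) A,
    Polynomial.coeff_mul_X_pow']
  split_ifs <;> ring

theorem siegel (R : RD θ) {Λ Cn : Type*} [Fintype Λ] [Fintype Cn] [DecidableEq Λ] [DecidableEq Cn]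
    [Nonempty Cn] (c : Cn → Λ → ℂ) (D : ℕ) (hD : 1 ≤ D) (K : ℝ) (hK : 1 ≤ K)
    (hc : ∀ κ l, R.Rep D K (c κ l))
    (hcount : 2 * (Fintype.card Cn * (R.ν + 1) * (2 * (R.δ * D))) ≤ Fintype.card Λ * (R.δ * D)) :
    ∃ p : Λ → ℤ[X], p ≠ 0 ∧ (∀ l, (p l).natDegree < R.δ * D) ∧
      (∀ l i, |((p l).coeff i : ℝ)| ≤ Fintype.card Λ * (R.δ * D : ℕ) * (K * R.H ^ D)) ∧
      ∀ κ, ∑ l, aeval θ (p l) * c κ l = 0 := by
  classical
  set Δ := R.δ * D with hΔ
  have hΔ1 : 1 ≤ Δ := Nat.one_le_iff_ne_zero.2 (Nat.mul_ne_zero (by have := R.hδ; omega) (by omega))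
  choose A hA1 hA2 hA3 using hc
  have hH := R.hH
  have hKH : 1 ≤ K * R.H ^ D := by
    have : 1 ≤ R.H ^ D := one_le_pow₀ hH
    nlinarith
  let M : Matrix (Cn × Fin (R.ν + 1) × Fin (2 * Δ)) (Λ × Fin Δ) ℤ := fun r q =>
    if (q.2 : ℕ) ≤ (r.2.2 : ℕ) then ((A r.1 q.1) 0 r.2.1).coeff ((r.2.2 : ℕ) - q.2) else 0
  have hcα : Fintype.card (Cn × Fin (R.ν + 1) × Fin (2 * Δ)) =
      Fintype.card Cn * (R.ν + 1) * (2 * Δ) := by
    simp [mul_assoc]
  have hcβ : Fintype.card (Λ × Fin Δ) = Fintype.card Λ * Δ := by simp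
  have hCpos : 0 < Fintype.card Cn := Fintype.card_pos
  have hpos : 0 < Fintype.card (Cn × Fin (R.ν + 1) × Fin (2 * Δ)) := by
    rw [hcα]; positivity
  have hlt : 2 * Fintype.card (Cn × Fin (R.ν + 1) × Fin (2 * Δ)) ≤ Fintype.card (Λ × Fin Δ) := by
    rw [hcα, hcβ]; exact hcount
  obtain ⟨t, ht0, hMt, htn⟩ := Int.Matrix.exists_ne_zero_int_vec_norm_le M (by omega) hpos
  have hMnorm : ‖M‖ ≤ K * R.H ^ D := by
    rw [Matrix.norm_le_iff (by linarith)]
    intro r q
    show ‖(if (q.2 : ℕ) ≤ (r.2.2 : ℕ) then ((A r.1 q.1) 0 r.2.1).coeff ((r.2.2 : ℕ) - q.2) else 0 : ℤ)‖ ≤ _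
    split_ifs
    · rw [Int.norm_eq_abs]
      refine (abs_coeff_le_pl _ _).trans (le_trans ?_ (hA3 r.1 q.1))
      unfold mN
      refine le_trans ?_ (Finset.single_le_sum (f := fun i => ∑ j, pl ((A r.1 q.1) i j))
        (fun _ _ => Finset.sum_nonneg (fun _ _ => pl_nonneg _)) (Finset.mem_univ 0))
      exact Finset.single_le_sum (f := fun j => pl ((A r.1 q.1) 0 j))
        (fun _ _ => pl_nonneg _) (Finset.mem_univ r.2.1)
    · simp only [norm_zero]; linarith
  have htn' : ‖t‖ ≤ Fintype.card Λ * (Δ : ℕ) * (K * R.H ^ D) := by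
    refine htn.trans ?_
    have hbase : (1 : ℝ) ≤ (Fintype.card (Λ × Fin Δ) : ℝ) * max 1 ‖M‖ := by
      have h1 : (1 : ℝ) ≤ (Fintype.card (Λ × Fin Δ) : ℝ) := by
        exact_mod_cast (by omega : 1 ≤ Fintype.card (Λ × Fin Δ))
      have h2 : (1 : ℝ) ≤ max 1 ‖M‖ := le_max_left _ _
      nlinarith
    have hexp : ((Fintype.card (Cn × Fin (R.ν + 1) × Fin (2 * Δ)) : ℕ) : ℝ) /
        ((Fintype.card (Λ × Fin Δ) : ℝ) -
          (Fintype.card (Cn × Fin (R.ν + 1) × Fin (2 * Δ)) : ℝ)) ≤ 1 := by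
      have h3 : (2 : ℝ) * (Fintype.card (Cn × Fin (R.ν + 1) × Fin (2 * Δ)) : ℝ) ≤
          (Fintype.card (Λ × Fin Δ) : ℝ) := by exact_mod_cast hlt
      have h4 : (0 : ℝ) < (Fintype.card (Cn × Fin (R.ν + 1) × Fin (2 * Δ)) : ℝ) := by
        exact_mod_cast hpos
      rw [div_le_one (by linarith)]
      linarith
    calc ((Fintype.card (Λ × Fin Δ) : ℝ) * max 1 ‖M‖) ^ _
        ≤ ((Fintype.card (Λ × Fin Δ) : ℝ) * max 1 ‖M‖) ^ (1 : ℝ) :=
          Real.rpow_le_rpow_of_exponent_le hbase hexp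
      _ = (Fintype.card (Λ × Fin Δ) : ℝ) * max 1 ‖M‖ := Real.rpow_one _
      _ ≤ Fintype.card Λ * (Δ : ℕ) * (K * R.H ^ D) := by
        rw [hcβ]
        push_cast
        have : max 1 ‖M‖ ≤ K * R.H ^ D := max_le hKH hMnorm
        gcongr
  let p : Λ → ℤ[X] := fun l => ∑ m : Fin Δ, monomial (m : ℕ) (t (l, m))
  have hcoef : ∀ l (m : Fin Δ), (p l).coeff m = t (l, m) := by
    intro l m
    rw [Polynomial.finsetSum_coeff, Finset.sum_eq_single m]
    · simp
    · intro m' _ hm'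
      rw [Polynomial.coeff_monomial, if_neg (fun h => hm' (Fin.ext h))]
    · simp
  have hdeg : ∀ l, (p l).natDegree < Δ := by
    intro l
    rw [Nat.lt_iff_le_pred (by omega)]
    apply Polynomial.natDegree_sum_le_of_forall_le
    intro m _
    refine (Polynomial.natDegree_monomial_le _).trans ?_
    have := m.2
    omega
  refine ⟨p, ?_, hdeg, ?_, ?_⟩
  · intro h
    apply ht0
    funext q
    have := hcoef q.1 q.2
    rw [h] at this
    simpa using this.symm
  · intro l i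
    by_cases hi : i < Δ
    · have h5 := hcoef l ⟨i, hi⟩
      simp only at h5
      rw [h5]
      have h6 : ‖t (l, ⟨i, hi⟩)‖ ≤ ‖t‖ := norm_le_pi_norm t _
      rw [Int.norm_eq_abs] at h6
      exact h6.trans htn'
    · rw [Polynomial.coeff_eq_zero_of_natDegree_lt (lt_of_lt_of_le (hdeg l) (not_lt.1 hi))]
      have : (0 : ℝ) ≤ Fintype.card Λ * (Δ : ℕ) * (K * R.H ^ D) := by positivity
      simpa using this
  · intro κ
    have hzero : ∀ j : Fin (R.ν + 1), ∑ l, p l * (A κ l) 0 j = 0 := by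
      intro j
      ext s
      rw [Polynomial.finsetSum_coeff, Polynomial.coeff_zero]
      by_cases hs : s < 2 * Δ
      · have h7 := congrFun hMt (κ, j, ⟨s, hs⟩)
        rw [Matrix.mulVec, dotProduct, Fintype.sum_prod_type] at h7
        rw [← Pi.zero_apply (M := fun _ => ℤ) (κ, j, (⟨s, hs⟩ : Fin (2 * Δ))), ← h7]
        apply Finset.sum_congr rfl
        intro l _
        exact coeff_sum_mul _ _ _
      · apply Finset.sum_eq_zero
        intro l _
        apply Polynomial.coeff_eq_zero_of_natDegree_lt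
        refine lt_of_le_of_lt Polynomial.natDegree_mul_le ?_
        have := hdeg l
        have := hA2 κ l 0 j
        omega
    have h8 : (aeval θ R.b ^ D * ∑ l, aeval θ (p l) * c κ l) * R.v 0 = 0 := by
      calc (aeval θ R.b ^ D * ∑ l, aeval θ (p l) * c κ l) * R.v 0
          = ∑ l, aeval θ (p l) * (aeval θ R.b ^ D * c κ l * R.v 0) := by
            rw [Finset.mul_sum, Finset.sum_mul]
            apply Finset.sum_congr rfl
            intro l _
            ring
        _ = ∑ l, ∑ j, aeval θ (p l * (A κ l) 0 j) * R.v j := by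
            apply Finset.sum_congr rfl
            intro l _
            rw [← hA1 κ l 0, Finset.mul_sum]
            apply Finset.sum_congr rfl
            intro j _
            rw [map_mul, mul_assoc]
        _ = ∑ j, aeval θ (∑ l, p l * (A κ l) 0 j) * R.v j := by
            rw [Finset.sum_comm]
            apply Finset.sum_congr rfl
            intro j _
            rw [map_sum, Finset.sum_mul]
        _ = 0 := by
            apply Finset.sum_eq_zero
            intro j _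
            rw [hzero j]
            simp
    have h9 := (mul_eq_zero.1 h8).resolve_right R.v0_ne
    exact (mul_eq_zero.1 h9).resolve_left (pow_ne_zero _ R.hb0)

/-- The norm of a combination. -/
theorem normStep (hθ : Transcendental ℚ θ) (R : RD θ) {Λ : Type*} [Fintype Λ] (c : Λ → ℂ) (D : ℕ)
    (K : ℝ) (hK : 1 ≤ K) (hc : ∀ l, R.Rep D K (c l)) (p : Λ → ℤ[X])
    (hdeg : ∀ l, (p l).natDegree < R.δ * D) (B : ℝ)
    (hcard : Fintype.card Λ * (R.δ * D : ℕ) * (K * R.H ^ D) ≤ B)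
    (hB : ∀ l i, |((p l).coeff i : ℝ)| ≤ B)
    (hne : ∑ l, aeval θ (p l) * c l ≠ 0) (Θ : ℝ) (h1 : 1 ≤ Θ) (hΘ : ‖θ‖ ≤ Θ) :
    ∃ P : ℤ[X], aeval θ P ≠ 0 ∧ P.natDegree ≤ (R.ν + 1) * (2 * (R.δ * D)) ∧
      (∀ i, |(P.coeff i : ℝ)| ≤ (B ^ 2) ^ (R.ν + 1)) ∧
      ‖aeval θ P‖ * ‖R.v 0‖ ≤ ‖aeval θ R.b‖ ^ D * ‖∑ l, aeval θ (p l) * c l‖ *
        (∑ i, ‖R.v i‖) * (B ^ 2 * Θ ^ (2 * (R.δ * D))) ^ R.ν := by
  classical
  choose A hA1 hA2 hA3 using hc
  have hH := R.hH
  have hKH0 : 0 ≤ K * R.H ^ D := by positivity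
  set A' : Matrix (Fin (R.ν + 1)) (Fin (R.ν + 1)) ℤ[X] := ∑ l, p l • A l with hA'
  have hact : Acts θ R.v A' (aeval θ R.b ^ D * ∑ l, aeval θ (p l) * c l) := by
    have := Acts.sum Finset.univ (fun l => p l • A l)
      (fun l => aeval θ (p l) * (aeval θ R.b ^ D * c l)) (fun l _ => (hA1 l).smul (p l))
    convert this using 1
    rw [Finset.mul_sum]
    apply Finset.sum_congr rfl
    intro l _
    ring
  have hdegA : ∀ i j, (A' i j).natDegree ≤ 2 * (R.δ * D) := by
    intro i j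
    rw [hA', Matrix.sum_apply]
    apply Polynomial.natDegree_sum_le_of_forall_le
    intro l _
    rw [Matrix.smul_apply, smul_eq_mul]
    refine Polynomial.natDegree_mul_le.trans ?_
    have := hdeg l
    have := hA2 l i j
    omega
  have hB0 : 0 ≤ B := le_trans (by positivity) hcard
  have hmN : mN A' ≤ B ^ 2 := by
    refine (mN_sum _ _).trans ?_
    calc ∑ l, mN (p l • A l) ≤ ∑ l : Λ, ((R.δ * D : ℕ) * B) * (K * R.H ^ D) := by
          apply Finset.sum_le_sum
          intro l _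
          refine (mN_smul _ _).trans ?_
          apply mul_le_mul (pl_le_of_coeff _ _ (hdeg l) B (hB l)) (hA3 l) (mN_nonneg _)
          positivity
      _ = (Fintype.card Λ * (R.δ * D : ℕ) * (K * R.H ^ D)) * B := by
          rw [Finset.sum_const, nsmul_eq_mul, Finset.card_univ]; ring
      _ ≤ B * B := mul_le_mul_of_nonneg_right hcard hB0
      _ = B ^ 2 := by ring
  obtain ⟨h3, h4⟩ := acts_det hθ R.hv hact (mul_ne_zero (pow_ne_zero _ R.hb0) hne) Θ h1 hΘ _ hdegA
  refine ⟨A'.det, h3, ?_, ?_, ?_⟩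
  · have := natDegree_det_le' A' _ hdegA
    simpa using this
  · intro i
    refine (abs_coeff_le_pl _ _).trans ((pl_det_le A').trans ?_)
    simp only [Fintype.card_fin]
    exact pow_le_pow_left₀ (mN_nonneg _) hmN _
  · refine h4.trans ?_
    rw [norm_mul, norm_pow]
    have h5 : 0 ≤ mN A' := mN_nonneg _
    have h6 : 0 ≤ ∑ i, ‖R.v i‖ := Finset.sum_nonneg (fun _ _ => norm_nonneg _)
    gcongr

end Pool.Agent.W252
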